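import Pool.Agent.helper57.Hamming

set_option autoImplicit false
set_option linter.unusedSectionVars false

namespace Pool.Agent.H57

open Finset

namespace PolygonalComplex

variable (X : PolygonalComplex)

section bounds

variable (K : ℝ) (hcmp : ∀ e e', (X.wt1 e : ℝ) ≤ K * X.wt1 e') (hpos : ∀ e, (0 : ℝ) < X.wt1 e)

include hcmp hpos

lemma sum_wt1_pos (e : X.E) : 0 < ∑ e', (X.wt1 e' : ℝ) :=
  Finset.sum_pos (fun e' _ => hpos e') ⟨e, Finset.mem_univ e⟩

lemma mu1_upper (e : X.E) : (Fintype.card X.E : ℝ) * X.mu1 e ≤ K := by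
  unfold mu1
  rw [← mul_div_assoc, div_le_iff₀ (X.sum_wt1_pos K hcmp hpos e)]
  have : ∑ e' : X.E, (X.wt1 e : ℝ) ≤ ∑ e', K * (X.wt1 e' : ℝ) :=
    Finset.sum_le_sum (fun e' _ => hcmp e e')
  rw [Finset.sum_const, nsmul_eq_mul, Finset.card_univ, ← Finset.mul_sum] at this
  exact this

lemma mu1_lower (e : X.E) : 1 ≤ K * (Fintype.card X.E * X.mu1 e) := by
  unfold mu1
  have hS := X.sum_wt1_pos K hcmp hpos e
  have h1 : K * (Fintype.card X.E * ((X.wt1 e : ℝ) / ∑ e', (X.wt1 e' : ℝ)))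
      = (K * (Fintype.card X.E * (X.wt1 e : ℝ))) / ∑ e', (X.wt1 e' : ℝ) := by ring
  rw [h1, le_div_iff₀ hS, one_mul]
  have : ∑ e' : X.E, (X.wt1 e' : ℝ) ≤ ∑ e' : X.E, K * (X.wt1 e : ℝ) :=
    Finset.sum_le_sum (fun e' _ => hcmp e' e)
  rw [Finset.sum_const, nsmul_eq_mul, Finset.card_univ] at this
  calc ∑ e' : X.E, (X.wt1 e' : ℝ) ≤ (Fintype.card X.E : ℝ) * (K * X.wt1 e) := this
    _ = _ := by ring

lemma mu1_pos (e : X.E) : 0 < X.mu1 e := by
  unfold mu1
  exact div_pos (hpos e) (X.sum_wt1_pos K hcmp hpos e)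

lemma sum_mu1 (e : X.E) : ∑ e', X.mu1 e' = 1 := by
  unfold mu1
  rw [← Finset.sum_div]
  exact div_self (ne_of_gt (X.sum_wt1_pos K hcmp hpos e))

lemma card_src_rev (v : X.V) :
    (univ.filter (fun e => X.src (X.rev e) = v)).card = (univ.filter (fun e => X.src e = v)).card := by
  apply Finset.card_bij (fun e _ => X.rev e)
  · intro e he
    simp only [Finset.mem_filter, Finset.mem_univ, true_and] at he ⊢
    exact he
  · intro a _ b _ h
    have := congrArg X.rev h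
    rwa [X.rev_rev, X.rev_rev] at this
  · intro b hb
    simp only [Finset.mem_filter, Finset.mem_univ, true_and] at hb
    exact ⟨X.rev b, by simp [X.rev_rev, hb], X.rev_rev b⟩

lemma wt0_upper (v : X.V) : (Fintype.card X.E : ℝ) * X.wt0 v ≤ 2 * X.degree v * K := by
  unfold wt0
  rw [Finset.mul_sum]
  have h1 : ∀ e ∈ univ.filter (fun e => X.src e = v ∨ X.src (X.rev e) = v),
      (Fintype.card X.E : ℝ) * X.mu1 e ≤ K := fun e _ => X.mu1_upper K hcmp hpos e
  refine le_trans (Finset.sum_le_card_nsmul _ _ _ h1) ?_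
  rw [nsmul_eq_mul]
  by_cases hE : Nonempty X.E
  · obtain ⟨e⟩ := hE
    have hK : 0 ≤ K := by
      have h2 := X.mu1_upper K hcmp hpos e
      have h3 := X.mu1_pos K hcmp hpos e
      have h4 : (0 : ℝ) ≤ Fintype.card X.E := Nat.cast_nonneg _
      exact le_trans (by positivity) h2
    apply mul_le_mul_of_nonneg_right _ hK
    have h2 : (univ.filter (fun e => X.src e = v ∨ X.src (X.rev e) = v)).card ≤ 2 * X.degree v := by
      rw [Finset.filter_or]
      refine le_trans (Finset.card_union_le _ _) ?_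
      rw [X.card_src_rev K hcmp hpos v]
      unfold degree
      omega
    exact_mod_cast h2
  · have : IsEmpty X.E := not_nonempty_iff.mp hE
    simp [degree]

lemma mu1_nonneg' (e : X.E) : 0 ≤ X.mu1 e := (X.mu1_pos K hcmp hpos e).le

lemma wt0_nonneg (v : X.V) : 0 ≤ X.wt0 v := by
  unfold wt0
  exact Finset.sum_nonneg (fun e _ => X.mu1_nonneg' K hcmp hpos e)

lemma one_le_sum_wt0 (e : X.E) : 1 ≤ ∑ v, X.wt0 v := by
  rw [← X.sum_mu1 K hcmp hpos e]
  have h1 : ∑ e', X.mu1 e' = ∑ v, ∑ e' ∈ univ.filter (fun e' => X.src e' = v), X.mu1 e' := by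
    rw [Finset.sum_fiberwise]
  rw [h1]
  refine Finset.sum_le_sum (fun v _ => ?_)
  unfold wt0
  apply Finset.sum_le_sum_of_subset_of_nonneg
  · intro e' he'
    simp only [Finset.mem_filter, Finset.mem_univ, true_and] at he' ⊢
    exact Or.inl he'
  · intro e' _ _
    exact X.mu1_nonneg' K hcmp hpos e'

lemma mu0_nonneg (e : X.E) (v : X.V) : 0 ≤ X.mu0 v := by
  unfold mu0
  have := X.one_le_sum_wt0 K hcmp hpos e
  exact div_nonneg (X.wt0_nonneg K hcmp hpos v) (by linarith)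

lemma mu0_upper (e : X.E) (v : X.V) : (Fintype.card X.E : ℝ) * X.mu0 v ≤ 2 * X.degree v * K := by
  unfold mu0
  have h1 := X.one_le_sum_wt0 K hcmp hpos e
  have h2 := X.wt0_nonneg K hcmp hpos v
  have h3 : X.wt0 v / ∑ v', X.wt0 v' ≤ X.wt0 v := div_le_self h2 h1
  refine le_trans ?_ (X.wt0_upper K hcmp hpos v)
  exact mul_le_mul_of_nonneg_left h3 (Nat.cast_nonneg _)

end bounds

/-- criterion for a lower bound of the Cheeger constant `h^B_0` -/
lemma hB0_ge (lam : ℝ) (hlam : 0 ≤ lam)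
    (h : ∀ (n : ℕ), 1 ≤ n → ∀ b : X.C0 n, (∀ s : Equiv.Perm (Fin n), b ≠ fun _ => s) →
      0 < norm1 (delta0 b) ∧ lam * distB0 b ≤ norm1 (delta0 b)) :
    ENNReal.ofReal lam ≤ X.hB0 := by
  unfold hB0
  refine le_iInf (fun n => le_iInf (fun hn => le_iInf (fun b => le_iInf (fun hb => ?_))))
  obtain ⟨h1, h2⟩ := h n hn b hb
  rw [ENNReal.le_div_iff_mul_le (Or.inr (by simpa using h1)) (Or.inl ENNReal.ofReal_ne_top)]
  rw [← ENNReal.ofReal_mul hlam]
  exact ENNReal.ofReal_le_ofReal h2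

/-- criterion for a lower bound of the Cheeger constant `h^B_1` -/
lemma hB1_ge (lam : ℝ) (hlam : 0 ≤ lam)
    (h : ∀ (n : ℕ), 1 ≤ n → ∀ a : X.C1 n, (∀ b : X.C0 n, a ≠ delta0 b) →
      0 < normDelta1 a ∧ lam * distB1 a ≤ normDelta1 a) :
    ENNReal.ofReal lam ≤ X.hB1 := by
  unfold hB1
  refine le_iInf (fun n => le_iInf (fun hn => le_iInf (fun a => le_iInf (fun ha => ?_))))
  obtain ⟨h1, h2⟩ := h n hn a ha
  rw [ENNReal.le_div_iff_mul_le (Or.inr (by simpa using h1)) (Or.inl ENNReal.ofReal_ne_top)]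
  rw [← ENNReal.ofReal_mul hlam]
  exact ENNReal.ofReal_le_ofReal h2

variable {X}

lemma distB0_le {n : ℕ} (b : X.C0 n) (s : Equiv.Perm (Fin n)) :
    distB0 b ≤ dist0 b (fun _ => s) := by
  unfold distB0
  exact ciInf_le (Set.finite_range _).bddBelow s

lemma distB1_le {n : ℕ} (a : X.C1 n) (b : X.C0 n) :
    distB1 a ≤ dist1 a (delta0 b) := by
  unfold distB1
  exact ciInf_le (Set.finite_range _).bddBelow b

end PolygonalComplex

end Pool.Agent.H57
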