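import Pool.Agent.helper57.Weights
import Pool.Agent.helper57.General

set_option autoImplicit false
set_option linter.unusedSectionVars false

namespace Pool.Agent.H57

open Finset

section cheeger

variable {V κ : Type} [Fintype V] [DecidableEq V] [Fintype κ] [DecidableEq κ]

/-- Poincare inequality from the spectral gap -/
lemma poincare (p : κ → Equiv.Perm V) (hκ : 0 < Fintype.card κ) (hN : 0 < Fintype.card V) (lam : ℝ)
    (hlam : 0 < lam) (hg : Gap p lam) (g : V → ℝ) :
    2 * Fintype.card κ * (1 - lam) * (∑ x, g x ^ 2 - (∑ x, g x) ^ 2 / Fintype.card V)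
      ≤ ∑ x, ∑ i, (g x - g (p i x)) ^ 2 := by
  have hN' : (0 : ℝ) < Fintype.card V := by exact_mod_cast hN
  have hD : (0 : ℝ) < Fintype.card κ := by exact_mod_cast hκ
  set N : ℝ := ((Fintype.card V : ℕ) : ℝ) with hNdef
  set D : ℝ := ((Fintype.card κ : ℕ) : ℝ) with hDdef
  set c : ℝ := (∑ x, g x) / N with hc
  set g0 : V → ℝ := fun x => g x - c with hg0
  have hsum0 : ∑ x, g0 x = 0 := by
    rw [hg0, Finset.sum_sub_distrib]
    simp only [Finset.sum_const, Finset.card_univ, nsmul_eq_mul]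
    rw [← hNdef, hc]
    field_simp
    ring
  have hvar : ∑ x, g0 x ^ 2 = ∑ x, g x ^ 2 - (∑ x, g x) ^ 2 / N := by
    have e1 : ∀ x, g0 x ^ 2 = g x ^ 2 - 2 * c * g x + c ^ 2 := by intro x; rw [hg0]; ring
    simp_rw [e1]
    rw [Finset.sum_add_distrib, Finset.sum_sub_distrib, ← Finset.mul_sum]
    simp only [Finset.sum_const, Finset.card_univ, nsmul_eq_mul]
    rw [← hNdef]
    have e2 : ∑ x, g x = N * c := by rw [hc]; field_simp
    rw [e2]
    field_simp
    ring
  have hgap := hg g0 hsum0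
  have hcross : ∑ x, g0 x * avg p g0 x ≤ lam * ∑ x, g0 x ^ 2 := by
    have e1 : ∀ x, g0 x * avg p g0 x ≤ (lam / 2) * g0 x ^ 2 + (1 / (2 * lam)) * (avg p g0 x) ^ 2 := by
      intro x
      have : 0 ≤ (1 / (2 * lam)) * (avg p g0 x - lam * g0 x) ^ 2 := by positivity
      have e3 : (1 / (2 * lam)) * (avg p g0 x - lam * g0 x) ^ 2
          = (lam / 2) * g0 x ^ 2 + (1 / (2 * lam)) * (avg p g0 x) ^ 2 - g0 x * avg p g0 x := by
        field_simp
        ring
      linarith
    refine le_trans (Finset.sum_le_sum (fun x _ => e1 x)) ?_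
    rw [Finset.sum_add_distrib, ← Finset.mul_sum, ← Finset.mul_sum]
    have e2 : (1 / (2 * lam)) * ∑ x, (avg p g0 x) ^ 2 ≤ (1 / (2 * lam)) * (lam ^ 2 * ∑ x, g0 x ^ 2) :=
      mul_le_mul_of_nonneg_left hgap (by positivity)
    have e4 : (1 / (2 * lam)) * (lam ^ 2 * ∑ x, g0 x ^ 2) = (lam / 2) * ∑ x, g0 x ^ 2 := by
      field_simp
    rw [e4] at e2
    linarith
  have hexp : ∑ x, ∑ i, (g x - g (p i x)) ^ 2 = 2 * D * ∑ x, g0 x ^ 2 - 2 * D * ∑ x, g0 x * avg p g0 x := by
    have e1 : ∀ x i, (g x - g (p i x)) ^ 2 = g0 x ^ 2 + g0 (p i x) ^ 2 - 2 * (g0 x * g0 (p i x)) := by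
      intro x i; rw [hg0]; ring
    simp_rw [e1, Finset.sum_sub_distrib, Finset.sum_add_distrib]
    have e2 : ∑ x, ∑ i : κ, g0 x ^ 2 = D * ∑ x, g0 x ^ 2 := by
      simp only [Finset.sum_const, Finset.card_univ, nsmul_eq_mul]
      rw [← Finset.mul_sum]
    have e3 : ∑ x, ∑ i : κ, g0 (p i x) ^ 2 = D * ∑ x, g0 x ^ 2 := by
      rw [Finset.sum_comm]
      have : ∀ i : κ, ∑ x, g0 (p i x) ^ 2 = ∑ x, g0 x ^ 2 := fun i => Equiv.sum_comp (p i) (fun x => g0 x ^ 2)
      simp_rw [this]
      simp only [Finset.sum_const, Finset.card_univ, nsmul_eq_mul]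
      rfl
    have e4 : ∑ x, ∑ i : κ, 2 * (g0 x * g0 (p i x)) = 2 * D * ∑ x, g0 x * avg p g0 x := by
      rw [Finset.mul_sum]
      refine Finset.sum_congr rfl (fun x _ => ?_)
      unfold avg
      rw [← Finset.mul_sum, ← Finset.mul_sum]
      rw [← hDdef]
      field_simp
    rw [e2, e3, e4]
    ring
  rw [hexp, ← hvar]
  nlinarith [hcross]

/-- discrete version for functions with values in a finite set -/
lemma poincare_disc (p : κ → Equiv.Perm V) (hκ : 0 < Fintype.card κ) (hN : 0 < Fintype.card V) (lam : ℝ)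
    (hlam : 0 < lam) (hg : Gap p lam) {ι : Type} [Fintype ι] [DecidableEq ι] (f : V → ι) :
    Fintype.card κ * (1 - lam) * ∑ x, ∑ y, (if f x ≠ f y then (1 : ℝ) else 0)
      ≤ Fintype.card V * ∑ x, ∑ i, (if f x ≠ f (p i x) then (1 : ℝ) else 0) := by
  have hN' : (0 : ℝ) < Fintype.card V := by exact_mod_cast hN
  have h := fun k : ι => poincare p hκ hN lam hlam hg (fun x => if f x = k then 1 else 0)
  have hs := Finset.sum_le_sum (fun (k : ι) (_ : k ∈ univ) => h k)
  rw [← Finset.mul_sum, Finset.sum_sub_distrib] at hs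
  have e1 : ∑ k, ∑ x, (if f x = k then (1 : ℝ) else 0) ^ 2 = Fintype.card V := by
    rw [Finset.sum_comm]
    simp
  have e2 : ∑ k, (∑ x, (if f x = k then (1 : ℝ) else 0)) ^ 2 / (Fintype.card V : ℝ)
      = (∑ x, ∑ y, (if f x = f y then (1 : ℝ) else 0)) / Fintype.card V := by
    rw [← Finset.sum_div]
    congr 1
    simp_rw [sq, Finset.sum_mul_sum]
    rw [Finset.sum_comm]
    refine Finset.sum_congr rfl (fun x _ => ?_)
    rw [Finset.sum_comm]
    refine Finset.sum_congr rfl (fun y _ => ?_)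
    by_cases hxy : f x = f y
    · rw [if_pos hxy, hxy]; simp
    · rw [if_neg hxy]
      apply Finset.sum_eq_zero
      intro k _
      by_cases h1 : f x = k
      · have : f y ≠ k := fun h2 => hxy (h1.trans h2.symm)
        simp [this]
      · simp [h1]
  have e3 : ∑ k, ∑ x, ∑ i, ((if f x = k then (1 : ℝ) else 0) - (if f (p i x) = k then 1 else 0)) ^ 2
      = 2 * ∑ x, ∑ i, (if f x ≠ f (p i x) then (1 : ℝ) else 0) := by
    rw [Finset.sum_comm, Finset.mul_sum]
    refine Finset.sum_congr rfl (fun x _ => ?_)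
    rw [Finset.sum_comm, Finset.mul_sum]
    refine Finset.sum_congr rfl (fun i _ => ?_)
    by_cases hxy : f x = f (p i x)
    · rw [← hxy]; simp
    · rw [if_pos hxy]
      have e4 : ∀ k, ((if f x = k then (1 : ℝ) else 0) - (if f (p i x) = k then 1 else 0)) ^ 2
          = (if f x = k then (1 : ℝ) else 0) + (if f (p i x) = k then 1 else 0) := by
        intro k
        by_cases h1 : f x = k
        · have : f (p i x) ≠ k := fun h2 => hxy (h1.trans h2.symm)
          simp [h1, this]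
        · simp [h1]
      simp_rw [e4, Finset.sum_add_distrib]
      simp
      norm_num
  rw [e1, e2, e3] at hs
  have e5 : ∑ x, ∑ y, (if f x ≠ f y then (1 : ℝ) else 0)
      = (Fintype.card V : ℝ) ^ 2 - ∑ x, ∑ y, (if f x = f y then (1 : ℝ) else 0) := by
    have : ∀ x y, (if f x ≠ f y then (1 : ℝ) else 0) = 1 - (if f x = f y then (1 : ℝ) else 0) := by
      intro x y; by_cases h : f x = f y <;> simp [h]
    simp_rw [this, Finset.sum_sub_distrib]
    simp
    ring
  rw [e5]
  have e6 : (Fintype.card V : ℝ) - (∑ x, ∑ y, (if f x = f y then (1 : ℝ) else 0)) / Fintype.card V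
      = ((Fintype.card V : ℝ) ^ 2 - ∑ x, ∑ y, (if f x = f y then (1 : ℝ) else 0)) / Fintype.card V := by
    field_simp
  rw [e6] at hs
  rw [← mul_div_assoc, div_le_iff₀ hN'] at hs
  linarith

lemma poincare_perm (p : κ → Equiv.Perm V) (hκ : 0 < Fintype.card κ) (hN : 0 < Fintype.card V) (lam : ℝ)
    (hlam : 0 < lam) (hg : Gap p lam) {n : ℕ} (β : V → Equiv.Perm (Fin n)) :
    Fintype.card κ * (1 - lam) * ∑ x, ∑ y, hamming (β x) (β y)
      ≤ Fintype.card V * ∑ x, ∑ i, hamming (β x) (β (p i x)) := by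
  have h := fun j : Fin n => poincare_disc p hκ hN lam hlam hg (fun x => β x j)
  have hs := Finset.sum_le_sum (fun (j : Fin n) (_ : j ∈ univ) => h j)
  rw [← Finset.mul_sum, ← Finset.mul_sum] at hs
  have e1 : ∀ s t : Equiv.Perm (Fin n), hamming s t = (∑ j, (if s j ≠ t j then (1 : ℝ) else 0)) / n := by
    intro s t
    unfold hamming
    rw [Finset.card_filter]
    push_cast
    rfl
  simp_rw [e1, ← Finset.sum_div]
  rw [← mul_div_assoc, ← mul_div_assoc]
  apply div_le_div_of_nonneg_right _ (Nat.cast_nonneg n)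
  have e2 : ∑ x, ∑ y, ∑ j, (if β x j ≠ β y j then (1 : ℝ) else 0)
      = ∑ j, ∑ x, ∑ y, (if β x j ≠ β y j then (1 : ℝ) else 0) := by
    rw [Finset.sum_comm (s := (univ : Finset (Fin n)))]
    refine Finset.sum_congr rfl (fun x _ => ?_)
    rw [Finset.sum_comm]
  have e3 : ∑ x, ∑ i, ∑ j, (if β x j ≠ β (p i x) j then (1 : ℝ) else 0)
      = ∑ j, ∑ x, ∑ i, (if β x j ≠ β (p i x) j then (1 : ℝ) else 0) := by
    rw [Finset.sum_comm (s := (univ : Finset (Fin n)))]
    refine Finset.sum_congr rfl (fun x _ => ?_)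
    rw [Finset.sum_comm]
  rw [e2, e3]
  exact hs

variable (p : κ → Equiv.Perm V) (L : ℕ) (hL : 0 < L)

omit [Fintype κ] in
lemma mem_img (v : V) (x : V) (i : κ) (t o : Bool) :
    dsrc p (x, i, t, o) = v ↔ x = (if o then (p i).symm v else v) := by
  cases o
  · simp [dsrc]
  · simp only [dsrc, if_true]
    constructor
    · intro h; rw [← h]; exact ((p i).symm_apply_apply x).symm
    · intro h; rw [h]; exact (p i).apply_symm_apply v

lemma card_dsrc (v : V) :
    (univ.filter (fun e : Dart V κ => dsrc p e = v)).card = 4 * Fintype.card κ := by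
  have key : (univ : Finset (κ × Bool × Bool)).card
      = (univ.filter (fun e : Dart V κ => dsrc p e = v)).card := by
    apply Finset.card_bij (fun q _ =>
      ((if q.2.2 then (p q.1).symm v else v, q.1, q.2.1, q.2.2) : Dart V κ))
    · rintro ⟨i, t, o⟩ _
      rw [Finset.mem_filter]
      exact ⟨Finset.mem_univ _, (mem_img p v _ i t o).mpr rfl⟩
    · rintro ⟨i, t, o⟩ _ ⟨i', t', o'⟩ _ h
      simp only [Prod.mk.injEq] at h
      obtain ⟨-, h1, h2, h3⟩ := h
      rw [h1, h2, h3]
    · rintro ⟨x, i, t, o⟩ h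
      rw [Finset.mem_filter] at h
      have h' := (mem_img p v x i t o).mp h.2
      exact ⟨(i, t, o), Finset.mem_univ _, by simp only [h']⟩
  rw [← key]
  simp
  ring

lemma degree_cplx (v : V) : (cplx p L hL).degree v = 4 * Fintype.card κ :=
  card_dsrc p v

lemma card_E : Fintype.card (cplx p L hL).E = 4 * Fintype.card κ * Fintype.card V := by
  have : Fintype.card (cplx p L hL).E = Fintype.card (Dart V κ) := rfl
  rw [this]
  simp
  ring

lemma sum_darts (f : Dart V κ → ℝ) :
    ∑ e, f e = ∑ x, ∑ i, (f (x, i, false, false) + f (x, i, false, true)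
      + f (x, i, true, false) + f (x, i, true, true)) := by
  rw [Fintype.sum_prod_type]
  refine Finset.sum_congr rfl (fun x _ => ?_)
  rw [Fintype.sum_prod_type]
  refine Finset.sum_congr rfl (fun i _ => ?_)
  rw [Fintype.sum_prod_type]
  simp
  ring

end cheeger

end Pool.Agent.H57
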