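import Pool.Agent.helper57.Mix

set_option autoImplicit false
set_option linter.unusedSectionVars false

namespace Pool.Agent.H57

open Finset

section occupation

variable {V κ : Type} [Fintype V] [DecidableEq V] [Fintype κ] [DecidableEq κ]

/-- number of times the walk from `r` along `A` makes the step `i` at the vertex `x` -/
def occ (p : κ → Equiv.Perm V) (x : V) (i : κ) : V → List κ → ℕ
  | _, [] => 0
  | r, j :: A => (if r = x ∧ j = i then 1 else 0) + occ p x i (p j r) A

lemma W_succ_card (p : κ → Equiv.Perm V) (l : ℕ) (x y : V) :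
    ((W p (l + 1) x y).card : ℝ) = ∑ j, ((W p l (p j x) y).card : ℝ) := by
  have h1 : ∀ l x, ((W p l x y).card : ℝ) = ∑ A ∈ words κ l, (if walk p x A = y then (1 : ℝ) else 0) := by
    intro l x
    unfold W
    rw [Finset.card_filter]
    push_cast
    rfl
  simp_rw [h1]
  rw [sum_words_succ]
  rfl

/-- expected occupation -/
noncomputable def Occ (p : κ → Equiv.Perm V) (x : V) (i : κ) (l : ℕ) (y : V) : ℝ :=
  ∑ A ∈ words κ l, (occ p x i y A : ℝ)

noncomputable def Green (p : κ → Equiv.Perm V) (x : V) (l : ℕ) (y : V) : ℝ :=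
  ∑ t ∈ range l, ((W p t y x).card : ℝ) / (Fintype.card κ : ℝ) ^ t

lemma Occ_succ (p : κ → Equiv.Perm V) (x : V) (i : κ) (l : ℕ) (y : V) :
    Occ p x i (l + 1) y = (if y = x then (Fintype.card κ : ℝ) ^ l else 0) + ∑ j, Occ p x i l (p j y) := by
  unfold Occ
  rw [sum_words_succ]
  have h0 : ∀ (j : κ) (A : List κ), ((occ p x i y (j :: A) : ℕ) : ℝ)
      = (if y = x ∧ j = i then (1 : ℝ) else 0) + (occ p x i (p j y) A : ℝ) := by
    intro j A
    simp [occ]
  simp_rw [h0, Finset.sum_add_distrib]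
  congr 1
  simp only [Finset.sum_const, card_words, nsmul_eq_mul]
  rw [← Finset.mul_sum]
  by_cases hy : y = x
  · simp [hy]
  · simp [hy]

lemma Occ_eq (p : κ → Equiv.Perm V) (hκ : 0 < Fintype.card κ) (x : V) (i : κ) (l : ℕ) (y : V) :
    (Fintype.card κ : ℝ) * Occ p x i l y = (Fintype.card κ : ℝ) ^ l * Green p x l y := by
  have hd : (Fintype.card κ : ℝ) ≠ 0 := by positivity
  induction l generalizing y with
  | zero => simp [Occ, Green, words, occ]
  | succ l ih =>
    rw [Occ_succ, mul_add, Finset.mul_sum]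
    simp_rw [ih]
    unfold Green
    rw [Finset.sum_range_succ']
    simp_rw [W_succ_card]
    have h0 : ((W p 0 y x).card : ℝ) = if y = x then 1 else 0 := by
      have h00 : W p 0 y x = if y = x then {[]} else ∅ := by
        unfold W
        rw [show words κ 0 = {[]} from rfl, Finset.filter_singleton]
        rfl
      rw [h00]
      by_cases h : y = x <;> simp [h]
    rw [h0]
    have h1 : ∑ j, (Fintype.card κ : ℝ) ^ l * ∑ t ∈ range l, ((W p t (p j y) x).card : ℝ) / (Fintype.card κ : ℝ) ^ t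
        = (Fintype.card κ : ℝ) ^ (l + 1) * ∑ k ∈ range l, (∑ j, ((W p k (p j y) x).card : ℝ)) / (Fintype.card κ : ℝ) ^ (k + 1) := by
      simp_rw [Finset.mul_sum, Finset.sum_div, Finset.mul_sum]
      rw [Finset.sum_comm]
      refine Finset.sum_congr rfl (fun t _ => Finset.sum_congr rfl (fun j _ => ?_))
      field_simp
      ring
    rw [h1]
    by_cases hy : y = x
    · simp [hy]; ring
    · simp [hy]

lemma Green_le (p : κ → Equiv.Perm V) (hκ : 0 < Fintype.card κ) (lam : ℝ) (hlam : 0 ≤ lam)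
    (hlam1 : lam < 1) (hg : Gap p lam) (x : V) (l : ℕ) (y : V) :
    Green p x l y ≤ 1 / (1 - lam) + l / Fintype.card V := by
  unfold Green
  have h1 : ∀ t ∈ range l, ((W p t y x).card : ℝ) / (Fintype.card κ : ℝ) ^ t
      ≤ 1 / Fintype.card V + lam ^ t := by
    intro t _
    have := (abs_le.mp (mixing p hκ lam hlam hg t y x)).2
    linarith
  refine le_trans (Finset.sum_le_sum h1) ?_
  rw [Finset.sum_add_distrib]
  have h2 : ∑ t ∈ range l, lam ^ t ≤ 1 / (1 - lam) := by
    rw [geom_sum_eq (ne_of_lt hlam1)]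
    rw [← neg_div_neg_eq]
    have : 0 < 1 - lam := by linarith
    rw [neg_sub, neg_sub]
    apply div_le_div_of_nonneg_right _ this.le
    have : 0 ≤ lam ^ l := by positivity
    linarith
  simp only [Finset.sum_const, Finset.card_range, nsmul_eq_mul]
  have h3 : (l : ℝ) * (1 / Fintype.card V) = l / Fintype.card V := by ring
  rw [h3]
  linarith

/-- first moment -/
noncomputable def M1 (p : κ → Equiv.Perm V) (x : V) (i : κ) (l : ℕ) : ℝ :=
  ∑ r, ∑ A ∈ words κ l, (occ p x i r A : ℝ)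

/-- second moment -/
noncomputable def M2 (p : κ → Equiv.Perm V) (x : V) (i : κ) (l : ℕ) : ℝ :=
  ∑ r, ∑ A ∈ words κ l, (occ p x i r A : ℝ) ^ 2

lemma M1_succ (p : κ → Equiv.Perm V) (x : V) (i : κ) (l : ℕ) :
    M1 p x i (l + 1) = (Fintype.card κ : ℝ) ^ l + Fintype.card κ * M1 p x i l := by
  have h := fun r => Occ_succ p x i l r
  unfold M1
  have h1 : ∀ r, ∑ A ∈ words κ (l + 1), (occ p x i r A : ℝ)
      = (if r = x then (Fintype.card κ : ℝ) ^ l else 0) + ∑ j, Occ p x i l (p j r) := h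
  simp_rw [h1, Finset.sum_add_distrib]
  rw [Finset.sum_comm]
  have h2 : ∀ j, ∑ r, Occ p x i l (p j r) = ∑ r, Occ p x i l r := fun j => Equiv.sum_comp (p j) _
  simp_rw [h2]
  simp [Occ]

lemma M1_eq (p : κ → Equiv.Perm V) (x : V) (i : κ) (l : ℕ) :
    Fintype.card κ * M1 p x i l = l * (Fintype.card κ : ℝ) ^ l := by
  induction l with
  | zero => simp [M1, words, occ]
  | succ l ih =>
    rw [M1_succ, mul_add]
    push_cast
    rw [show (Fintype.card κ : ℝ) * (Fintype.card κ * M1 p x i l) = Fintype.card κ * (l * (Fintype.card κ : ℝ) ^ l) by rw [ih]]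
    ring

lemma M2_succ (p : κ → Equiv.Perm V) (x : V) (i : κ) (l : ℕ) :
    M2 p x i (l + 1) = (Fintype.card κ : ℝ) ^ l + 2 * Occ p x i l (p i x)
      + Fintype.card κ * M2 p x i l := by
  unfold M2
  simp_rw [sum_words_succ]
  have h0 : ∀ (r : V) (j : κ) (A : List κ), ((occ p x i r (j :: A) : ℕ) : ℝ) ^ 2
      = (if r = x ∧ j = i then (1 + 2 * (occ p x i (p j r) A : ℝ)) else 0) + (occ p x i (p j r) A : ℝ) ^ 2 := by
    intro r j A
    by_cases h : r = x ∧ j = i
    · simp [occ, h]; ring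
    · simp [occ, h]
  simp_rw [h0, Finset.sum_add_distrib]
  congr 1
  · have h1 : ∀ r j, ∑ A ∈ words κ l, (if r = x ∧ j = i then (1 + 2 * (occ p x i (p j r) A : ℝ)) else 0)
        = if r = x then (if j = i then ((Fintype.card κ : ℝ) ^ l + 2 * Occ p x i l (p i x)) else 0) else 0 := by
      intro r j
      by_cases hr : r = x
      · by_cases hj : j = i
        · subst hr; subst hj
          simp [Finset.sum_add_distrib, card_words, Occ, Finset.mul_sum]
        · simp [hj]
      · simp [hr]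
    simp_rw [h1]
    simp
  · rw [Finset.sum_comm]
    have h2 : ∀ j, ∑ r, ∑ A ∈ words κ l, (occ p x i (p j r) A : ℝ) ^ 2
        = ∑ r, ∑ A ∈ words κ l, (occ p x i r A : ℝ) ^ 2 :=
      fun j => Equiv.sum_comp (p j) (fun r => ∑ A ∈ words κ l, (occ p x i r A : ℝ) ^ 2)
    simp_rw [h2]
    simp

lemma M2_le (p : κ → Equiv.Perm V) (hκ : 0 < Fintype.card κ) (x : V) (i : κ) (C0 : ℝ) (K : ℕ)
    (hC0 : ∀ l ≤ K, Green p x l (p i x) ≤ C0) (l : ℕ) (hl : l ≤ K + 1) :
    Fintype.card κ * M2 p x i l ≤ l * (Fintype.card κ : ℝ) ^ l * (1 + 2 * C0) := by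
  have hd : (1 : ℝ) ≤ Fintype.card κ := by exact_mod_cast hκ
  have hC0' : 0 ≤ C0 := le_trans (by simp [Green]) (hC0 0 (Nat.zero_le _))
  induction l with
  | zero => simp [M2, words, occ]
  | succ l ih =>
    have ih' := ih (by omega)
    rw [M2_succ]
    have h1 := Occ_eq p hκ x i l (p i x)
    have h2 := hC0 l (by omega)
    have h3 : (Fintype.card κ : ℝ) * Occ p x i l (p i x) ≤ (Fintype.card κ : ℝ) ^ l * C0 := by
      rw [h1]
      exact mul_le_mul_of_nonneg_left h2 (by positivity)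
    push_cast
    have h4 : (Fintype.card κ : ℝ) * (Fintype.card κ * M2 p x i l)
        ≤ Fintype.card κ * (l * (Fintype.card κ : ℝ) ^ l * (1 + 2 * C0)) :=
      mul_le_mul_of_nonneg_left ih' (by positivity)
    have h5 : (Fintype.card κ : ℝ) ^ l * C0 ≤ (Fintype.card κ : ℝ) ^ (l + 1) * C0 := by
      rw [pow_succ]
      have : 0 ≤ (Fintype.card κ : ℝ) ^ l * C0 := by positivity
      nlinarith
    have h6 : (Fintype.card κ : ℝ) ^ (l + 1) = Fintype.card κ * (Fintype.card κ : ℝ) ^ l := by ring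
    rw [h6] at h5 ⊢
    nlinarith

/-- number of pairs (starting vertex, word) whose walk uses the step `(x,i)` -/
lemma used_ge (p : κ → Equiv.Perm V) (hκ : 0 < Fintype.card κ) (x : V) (i : κ) (C0 : ℝ) (K : ℕ)
    (hC0 : ∀ l ≤ K, Green p x l (p i x) ≤ C0) (l : ℕ) (hl : l ≤ K + 1) :
    l * (Fintype.card κ : ℝ) ^ l ≤ Fintype.card κ * (1 + 2 * C0) *
      ∑ r, ∑ A ∈ words κ l, (if 0 < occ p x i r A then (1 : ℝ) else 0) := by
  have hd : (1 : ℝ) ≤ Fintype.card κ := by exact_mod_cast hκ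
  have hC0' : 0 ≤ C0 := le_trans (by simp [Green]) (hC0 0 (Nat.zero_le _))
  have h1 := M1_eq p x i l
  have h2 := M2_le p hκ x i C0 K hC0 l hl
  set S := ∑ r, ∑ A ∈ words κ l, (if 0 < occ p x i r A then (1 : ℝ) else 0) with hS
  have hcs : (M1 p x i l) ^ 2 ≤ S * M2 p x i l := by
    have e1 : M1 p x i l = ∑ q ∈ (univ : Finset V) ×ˢ words κ l,
        (if 0 < occ p x i q.1 q.2 then (1 : ℝ) else 0) * (occ p x i q.1 q.2 : ℝ) := by
      rw [Finset.sum_product]
      unfold M1
      refine Finset.sum_congr rfl (fun r _ => Finset.sum_congr rfl (fun A _ => ?_))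
      by_cases h : 0 < occ p x i r A
      · simp [h]
      · have : occ p x i r A = 0 := by omega
        simp [this]
    have e2 : S = ∑ q ∈ (univ : Finset V) ×ˢ words κ l,
        (if 0 < occ p x i q.1 q.2 then (1 : ℝ) else 0) ^ 2 := by
      rw [Finset.sum_product, hS]
      refine Finset.sum_congr rfl (fun r _ => Finset.sum_congr rfl (fun A _ => ?_))
      split_ifs <;> simp
    have e3 : M2 p x i l = ∑ q ∈ (univ : Finset V) ×ˢ words κ l, (occ p x i q.1 q.2 : ℝ) ^ 2 := by
      rw [Finset.sum_product]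
      rfl
    rw [e1, e2, e3]
    exact Finset.sum_mul_sq_le_sq_mul_sq _ _ _
  have hS0 : 0 ≤ S := by
    rw [hS]
    refine Finset.sum_nonneg (fun r _ => Finset.sum_nonneg (fun A _ => ?_))
    split_ifs <;> norm_num
  by_cases hl0 : l = 0
  · subst hl0; simp; positivity
  have hM1 : 0 < l * (Fintype.card κ : ℝ) ^ l := by positivity
  -- d² M1² ≤ S d² M2
  have h3 : (l * (Fintype.card κ : ℝ) ^ l) ^ 2 ≤ (Fintype.card κ : ℝ) * S * (l * (Fintype.card κ : ℝ) ^ l * (1 + 2 * C0)) := by
    rw [← h1]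
    have : (Fintype.card κ * M1 p x i l) ^ 2 ≤ (Fintype.card κ : ℝ) * S * (Fintype.card κ * M2 p x i l) := by
      have := mul_le_mul_of_nonneg_left hcs (show (0 : ℝ) ≤ (Fintype.card κ : ℝ) ^ 2 by positivity)
      nlinarith
    refine le_trans this ?_
    rw [h1]
    exact mul_le_mul_of_nonneg_left h2 (by positivity)
  have h4 : (l * (Fintype.card κ : ℝ) ^ l) * (l * (Fintype.card κ : ℝ) ^ l)
      ≤ (Fintype.card κ * (1 + 2 * C0) * S) * (l * (Fintype.card κ : ℝ) ^ l) := by
    nlinarith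
  exact le_of_mul_le_mul_right h4 hM1

end occupation

end Pool.Agent.H57
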