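import Pool.Agent.helper57.Gauge
import Pool.Agent.helper57.Occ

set_option autoImplicit false
set_option linter.unusedSectionVars false

namespace Pool.Agent.H57

open Finset

section cplx

variable {V κ : Type} [Fintype V] [DecidableEq V] [Fintype κ] [DecidableEq κ]

/-- oriented edges: `(x, i, t, o)` is the edge of colour `i` and type `t` from `x` to `p i x`,
with its orientation reversed if `o = true` -/
abbrev Dart (V κ : Type) := V × κ × Bool × Bool

def dsrc (p : κ → Equiv.Perm V) (e : Dart V κ) : V := if e.2.2.2 then p e.2.1 e.1 else e.1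

def drev (e : Dart V κ) : Dart V κ := (e.1, e.2.1, e.2.2.1, !e.2.2.2)

lemma drev_drev (e : Dart V κ) : drev (drev e) = e := by
  obtain ⟨x, i, t, o⟩ := e
  simp [drev]

lemma drev_ne (e : Dart V κ) : drev e ≠ e := by
  obtain ⟨x, i, t, o⟩ := e
  intro h
  simp [drev] at h

/-- the path along a word, of type `t` -/
def fpath (p : κ → Equiv.Perm V) (t : Bool) : V → List κ → List (Dart V κ)
  | _, [] => []
  | x, i :: A => (x, i, t, false) :: fpath p t (p i x) A

/-- the closed path `A B⁻¹` based at `r` -/
def cpath (p : κ → Equiv.Perm V) (r : V) (A B : List κ) : List (Dart V κ) :=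
  fpath p false r A ++ ((fpath p true r B).map drev).reverse

lemma fpath_mem (p : κ → Equiv.Perm V) (t : Bool) (x : V) (A : List κ) :
    ∀ e ∈ fpath p t x A, e.2.2.1 = t ∧ e.2.2.2 = false := by
  induction A generalizing x with
  | nil => simp [fpath]
  | cons i A ih =>
    intro e he
    simp only [fpath, List.mem_cons] at he
    rcases he with rfl | he
    · simp
    · exact ih _ e he

lemma fpath_length (p : κ → Equiv.Perm V) (t : Bool) (x : V) (A : List κ) :
    (fpath p t x A).length = A.length := by
  induction A generalizing x with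
  | nil => simp [fpath]
  | cons i A ih => simp [fpath, ih]

lemma fpath_head (p : κ → Equiv.Perm V) (t : Bool) (x : V) (A : List κ) :
    ∀ e ∈ (fpath p t x A).head?, dsrc p e = x := by
  cases A with
  | nil => simp [fpath]
  | cons i A => simp [fpath, dsrc]

lemma fpath_last (p : κ → Equiv.Perm V) (t : Bool) (x : V) (A : List κ) :
    ∀ e ∈ (fpath p t x A).getLast?, dsrc p (drev e) = walk p x A := by
  induction A generalizing x with
  | nil => simp [fpath]
  | cons i A ih =>
    intro e he
    cases A with
    | nil =>
      simp [fpath] at he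
      subst he
      simp [dsrc, drev, walk]
    | cons j A =>
      simp only [fpath, List.getLast?_cons_cons] at he
      exact ih (p i x) e he

/-- the relation required between consecutive edges -/
def Rel (p : κ → Equiv.Perm V) (e e' : Dart V κ) : Prop := dsrc p (drev e) = dsrc p e' ∧ e' ≠ drev e

lemma fpath_chain (p : κ → Equiv.Perm V) (t : Bool) (x : V) (A : List κ) :
    (fpath p t x A).IsChain (Rel p) := by
  induction A generalizing x with
  | nil => simp [fpath]
  | cons i A ih =>
    cases A with
    | nil => simp [fpath]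
    | cons j A =>
      simp only [fpath, List.isChain_cons_cons]
      refine ⟨?_, ih (p i x)⟩
      simp [Rel, dsrc, drev]

lemma bpath_chain (p : κ → Equiv.Perm V) (t : Bool) (x : V) (A : List κ) :
    (((fpath p t x A).map drev).reverse).IsChain (Rel p) := by
  rw [List.isChain_reverse, List.isChain_map]
  induction A generalizing x with
  | nil => simp [fpath]
  | cons i A ih =>
    cases A with
    | nil => simp [fpath]
    | cons j A =>
      simp only [fpath, List.isChain_cons_cons]
      refine ⟨?_, ih (p i x)⟩
      simp [Rel, dsrc, drev]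

lemma cpath_chain (p : κ → Equiv.Perm V) (r : V) (A B : List κ) (h : walk p r A = walk p r B) :
    (cpath p r A B).IsChain (Rel p) := by
  unfold cpath
  rw [List.isChain_append]
  refine ⟨fpath_chain p _ _ _, bpath_chain p _ _ _, ?_⟩
  intro e he e' he'
  rw [List.head?_reverse, List.getLast?_map] at he'
  simp only [Option.mem_def, Option.map_eq_some_iff] at he'
  obtain ⟨e'', he'', rfl⟩ := he'
  have h1 := fpath_last p false r A e he
  have h2 := fpath_last p true r B e'' he''
  refine ⟨by rw [h1, h2, h], ?_⟩
  have h3 := fpath_mem p false r A e (List.mem_of_mem_getLast? he)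
  have h4 := fpath_mem p true r B e'' (List.mem_of_mem_getLast? he'')
  intro hcon
  have := congrArg (fun e => e.2.2.1) hcon
  simp only [drev] at this
  rw [h3.1, h4.1] at this
  exact absurd this (by decide)

lemma cpath_closed (p : κ → Equiv.Perm V) (r : V) (A B : List κ) (hA : A ≠ []) (hB : B ≠ []) :
    ∀ e ∈ (cpath p r A B).getLast?, ∀ e' ∈ (cpath p r A B).head?, Rel p e e' := by
  intro e he e' he'
  have hA' : fpath p false r A ≠ [] := by
    rw [← List.length_pos_iff, fpath_length]; exact List.length_pos_iff.mpr hA
  have hB' : ((fpath p true r B).map drev).reverse ≠ [] := by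
    rw [← List.length_pos_iff]; simp [fpath_length]; exact List.length_pos_iff.mpr hB
  unfold cpath at he he'
  rw [List.getLast?_append_of_ne_nil _ hB'] at he
  rw [List.head?_append_of_ne_nil _ hA'] at he'
  rw [List.getLast?_reverse, List.head?_map] at he
  simp only [Option.mem_def, Option.map_eq_some_iff] at he
  obtain ⟨e'', he'', rfl⟩ := he
  have h1 := fpath_head p false r A e' he'
  have h2 := fpath_head p true r B e'' he''
  refine ⟨by rw [drev_drev, h1, h2], ?_⟩
  rw [drev_drev]
  have h3 := fpath_mem p false r A e' (List.mem_of_mem_head? he')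
  have h4 := fpath_mem p true r B e'' (List.mem_of_mem_head? he'')
  intro hcon
  rw [hcon, h4.1] at h3
  exact absurd h3.1 (by decide)

/-- closed pairs of words -/
def FS (p : κ → Equiv.Perm V) (l m : ℕ) : Finset (V × List κ × List κ) :=
  (univ ×ˢ (words κ l ×ˢ words κ m)).filter (fun q => walk p q.1 q.2.1 = walk p q.1 q.2.2)

def la (L : ℕ) : Fin 3 → ℕ := ![L, L + 1, L]
def lb (L : ℕ) : Fin 3 → ℕ := ![L, L, L + 1]

lemma la_pos (L : ℕ) (hL : 0 < L) (c : Fin 3) : 0 < la L c := by
  fin_cases c <;> simp [la, hL]

lemma lb_pos (L : ℕ) (hL : 0 < L) (c : Fin 3) : 0 < lb L c := by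
  fin_cases c <;> simp [lb, hL]

/-- the polygonal complex of a family of permutations -/
def cplx (p : κ → Equiv.Perm V) (L : ℕ) (hL : 0 < L) : PolygonalComplex where
  V := V
  E := Dart V κ
  F := Σ c : Fin 3, {q : V × List κ × List κ // q ∈ FS p (la L c) (lb L c)}
  src := dsrc p
  rev := drev
  rev_rev := drev_drev
  rev_ne := drev_ne
  path := fun f => cpath p f.2.1.1 f.2.1.2.1 f.2.1.2.2
  path_ne_nil := by
    rintro ⟨c, ⟨r, A, B⟩, hq⟩
    simp only [FS, Finset.mem_filter, Finset.mem_product, Finset.mem_univ, true_and, mem_words] at hq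
    have : 0 < A.length := by rw [hq.1.1]; exact la_pos L hL c
    intro h
    have h2 : (cpath p r A B).length = 0 := by rw [show cpath p r A B = [] from h]; rfl
    rw [cpath, List.length_append, fpath_length] at h2
    omega
  path_chain := by
    rintro ⟨c, ⟨r, A, B⟩, hq⟩
    simp only [FS, Finset.mem_filter] at hq
    exact cpath_chain p r A B hq.2
  path_closed := by
    rintro ⟨c, ⟨r, A, B⟩, hq⟩
    simp only [FS, Finset.mem_filter, Finset.mem_product, Finset.mem_univ, true_and, mem_words] at hq
    have hA : 0 < A.length := by rw [hq.1.1]; exact la_pos L hL c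
    have hB : 0 < B.length := by rw [hq.1.2]; exact lb_pos L hL c
    exact cpath_closed p r A B (List.length_pos_iff.mp hA) (List.length_pos_iff.mp hB)

end cplx

end Pool.Agent.H57
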