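import Pool.Agent.helper57.Main

set_option autoImplicit false
set_option linter.unusedSectionVars false

namespace Pool.Agent.H57

open Finset PolygonalComplex

namespace PolygonalComplex

variable (X : PolygonalComplex)

section bounds2

variable (K : ℝ) (hcmp : ∀ e e', (X.wt1 e : ℝ) ≤ K * X.wt1 e') (hpos : ∀ e, (0 : ℝ) < X.wt1 e)

include hcmp hpos

lemma sum_wt0_le (e0 : X.E) : ∑ v, X.wt0 v ≤ 2 := by
  have h1 : ∑ e', X.mu1 e' = ∑ v, ∑ e' ∈ univ.filter (fun e' => X.src e' = v), X.mu1 e' := by
    rw [Finset.sum_fiberwise]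
  have h2 : ∑ e', X.mu1 e' = ∑ v, ∑ e' ∈ univ.filter (fun e' => X.src (X.rev e') = v), X.mu1 e' := by
    rw [Finset.sum_fiberwise]
  have h3 := X.sum_mu1 K hcmp hpos e0
  have h4 : ∀ v, X.wt0 v ≤ ∑ e' ∈ univ.filter (fun e' => X.src e' = v), X.mu1 e'
      + ∑ e' ∈ univ.filter (fun e' => X.src (X.rev e') = v), X.mu1 e' := by
    intro v
    unfold wt0
    rw [Finset.filter_or]
    have h5 := Finset.sum_union_inter (s₁ := univ.filter (fun e' => X.src e' = v))
      (s₂ := univ.filter (fun e' => X.src (X.rev e') = v)) (f := X.mu1)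
    have h6 : 0 ≤ ∑ e' ∈ (univ.filter (fun e' => X.src e' = v)) ∩
        (univ.filter (fun e' => X.src (X.rev e') = v)), X.mu1 e' :=
      Finset.sum_nonneg (fun e _ => X.mu1_nonneg' K hcmp hpos e)
    linarith
  refine le_trans (Finset.sum_le_sum (fun v _ => h4 v)) ?_
  rw [Finset.sum_add_distrib, ← h1, ← h2, h3]
  norm_num

lemma mu0_lower (e0 : X.E) (v : X.V) : (X.degree v : ℝ) ≤ 2 * K * (Fintype.card X.E * X.mu0 v) := by
  have h1 := X.sum_wt0_le K hcmp hpos e0
  have h0 := X.one_le_sum_wt0 K hcmp hpos e0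
  have hK : 0 ≤ K := by
    have h2 := X.mu1_upper K hcmp hpos e0
    have h3 := X.mu1_pos K hcmp hpos e0
    have h4 : (0 : ℝ) ≤ Fintype.card X.E := Nat.cast_nonneg _
    exact le_trans (by positivity) h2
  have h2 : (X.degree v : ℝ) ≤ K * (Fintype.card X.E * X.wt0 v) := by
    have h3 : ∀ e ∈ univ.filter (fun e => X.src e = v), 1 ≤ K * (Fintype.card X.E * X.mu1 e) :=
      fun e _ => X.mu1_lower K hcmp hpos e
    have h4 := Finset.card_nsmul_le_sum _ _ _ h3
    rw [nsmul_eq_mul, mul_one] at h4
    refine le_trans h4 ?_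
    rw [← Finset.mul_sum, ← Finset.mul_sum]
    apply mul_le_mul_of_nonneg_left _ hK
    apply mul_le_mul_of_nonneg_left _ (Nat.cast_nonneg _)
    unfold wt0
    apply Finset.sum_le_sum_of_subset_of_nonneg
    · intro e' he'
      simp only [Finset.mem_filter, Finset.mem_univ, true_and] at he' ⊢
      exact Or.inl he'
    · intro e' _ _
      exact X.mu1_nonneg' K hcmp hpos e'
  have h3 : X.wt0 v ≤ 2 * X.mu0 v := by
    unfold mu0
    rw [← mul_div_assoc, le_div_iff₀ (by linarith)]
    have := X.wt0_nonneg K hcmp hpos v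
    nlinarith
  have h4 : (0 : ℝ) ≤ Fintype.card X.E := Nat.cast_nonneg _
  calc (X.degree v : ℝ) ≤ K * (Fintype.card X.E * X.wt0 v) := h2
    _ ≤ K * (Fintype.card X.E * (2 * X.mu0 v)) := by gcongr
    _ = _ := by ring

end bounds2

end PolygonalComplex

section fam

variable {V κ : Type} [Fintype V] [DecidableEq V] [Fintype κ] [DecidableEq κ]

variable (p : κ → Equiv.Perm V) (L : ℕ) (hL : 0 < L)

lemma nearUnif_of_gap (hN : 0 < Fintype.card V) (hκ : 0 < Fintype.card κ) (lam : ℝ)
    (hlam : 0 ≤ lam) (hlam1 : lam ≤ 1) (hg : Gap p lam) (hLam : lam ^ L ≤ 1 / (2 * Fintype.card V)) :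
    NearUnif p L := by
  intro m hm x y
  have hN' : (0 : ℝ) < Fintype.card V := by exact_mod_cast hN
  have hD : (0 : ℝ) < Fintype.card κ := by exact_mod_cast hκ
  have hDm : (0 : ℝ) < (Fintype.card κ : ℝ) ^ m := by positivity
  have h1 := abs_le.mp (mixing p hκ lam hlam hg m x y)
  have h2 : lam ^ m ≤ 1 / (2 * Fintype.card V) := by
    refine le_trans ?_ hLam
    exact pow_le_pow_of_le_one hlam hlam1 (by omega)
  have e1 : ((W p m x y).card : ℝ) = ((W p m x y).card : ℝ) / (Fintype.card κ : ℝ) ^ m * (Fintype.card κ : ℝ) ^ m := by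
    field_simp
  have e2 : (1 : ℝ) / (2 * Fintype.card V) = 1 / Fintype.card V - 1 / (2 * Fintype.card V) := by
    field_simp; ring
  have e3 : (3 : ℝ) / (2 * Fintype.card V) = 1 / Fintype.card V + 1 / (2 * Fintype.card V) := by
    field_simp; ring
  have l1 : (1 : ℝ) / (2 * Fintype.card V) ≤ ((W p m x y).card : ℝ) / (Fintype.card κ : ℝ) ^ m := by
    rw [e2]; linarith [h1.1]
  have l2 : ((W p m x y).card : ℝ) / (Fintype.card κ : ℝ) ^ m ≤ (3 : ℝ) / (2 * Fintype.card V) := by
    rw [e3]; linarith [h1.2]
  constructor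
  · rw [e1]
    calc (Fintype.card κ : ℝ) ^ m / (2 * Fintype.card V)
        = (1 : ℝ) / (2 * Fintype.card V) * (Fintype.card κ : ℝ) ^ m := by ring
      _ ≤ _ := mul_le_mul_of_nonneg_right l1 hDm.le
  · rw [e1]
    calc _ ≤ (3 : ℝ) / (2 * Fintype.card V) * (Fintype.card κ : ℝ) ^ m := mul_le_mul_of_nonneg_right l2 hDm.le
      _ = _ := by ring

lemma reach_walk (x : V) (A : List κ) :
    Relation.ReflTransGen (fun a b => ∃ e : Dart V κ, dsrc p e = a ∧ dsrc p (drev e) = b) x (walk p x A) := by
  induction A generalizing x with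
  | nil => exact Relation.ReflTransGen.refl
  | cons i A ih =>
    refine Relation.ReflTransGen.head ?_ (ih (p i x))
    exact ⟨(x, i, false, false), by simp [dsrc], by simp [dsrc, drev]⟩

lemma connected_cplx (hN : 0 < Fintype.card V) (hκ : 0 < Fintype.card κ) (hnu : NearUnif p L) :
    (cplx p L hL).Connected := by
  have hN' : (0 : ℝ) < Fintype.card V := by exact_mod_cast hN
  have hD : (0 : ℝ) < Fintype.card κ := by exact_mod_cast hκ
  refine ⟨Fintype.card_pos_iff.mp hN, ?_⟩
  intro x y
  change V at x y
  have h1 := (hnu L (Or.inl rfl) x y).1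
  have h2 : (0 : ℝ) < ((W p L x y).card : ℝ) := lt_of_lt_of_le (by positivity) h1
  have h3 : 0 < (W p L x y).card := by exact_mod_cast h2
  obtain ⟨A, hA⟩ := Finset.card_pos.mp h3
  unfold W at hA
  rw [Finset.mem_filter] at hA
  have h4 := reach_walk p x A
  rw [hA.2] at h4
  exact h4

lemma length_cpath (r : V) (A B : List κ) : (cpath p r A B).length = A.length + B.length := by
  unfold cpath
  simp [fpath_length]

lemma length_path (f : (cplx p L hL).F) : ((cplx p L hL).path f).length ≤ 2 * L + 1 := by
  obtain ⟨c, ⟨⟨r, A, B⟩, hq⟩⟩ := f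
  have h1 : ((cplx p L hL).path ⟨c, ⟨⟨r, A, B⟩, hq⟩⟩).length = A.length + B.length :=
    length_cpath p r A B
  rw [h1]
  simp only [FS, Finset.mem_filter, Finset.mem_product, Finset.mem_univ, true_and, mem_words] at hq
  rw [hq.1.1, hq.1.2]
  fin_cases c <;> simp [la, lb] <;> omega

/-! distinct polygons have distinct boundary cycles -/

lemma fpath_inj (t : Bool) (x y : V) (A B : List κ) (hA : A ≠ []) (h : fpath p t x A = fpath p t y B) :
    x = y ∧ A = B := by
  induction A generalizing x y B with
  | nil => exact absurd rfl hA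
  | cons i A ih =>
    cases B with
    | nil => simp [fpath] at h
    | cons j B =>
      simp only [fpath, List.cons.injEq, Prod.mk.injEq, and_true] at h
      obtain ⟨⟨rfl, rfl⟩, h2⟩ := h
      refine ⟨rfl, ?_⟩
      cases A with
      | nil =>
        cases B with
        | nil => rfl
        | cons j B => simp [fpath] at h2
      | cons k A =>
        rw [(ih _ _ B (List.cons_ne_nil _ _) h2).2]

lemma split_typed {α : Type} (c : α → Bool) (u v u' v' : List α) (hu : ∀ a ∈ u, c a = false)
    (hv : ∀ a ∈ v, c a = true) (hu' : ∀ a ∈ u', c a = false) (hv' : ∀ a ∈ v', c a = true)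
    (h : u ++ v = u' ++ v') : u = u' ∧ v = v' := by
  have f1 : ∀ (l : List α), (∀ a ∈ l, c a = false) → l.filter c = [] := by
    intro l hl
    rw [List.filter_eq_nil_iff]
    intro a ha; simp [hl a ha]
  have f2 : ∀ (l : List α), (∀ a ∈ l, c a = true) → l.filter c = l := by
    intro l hl
    rw [List.filter_eq_self]
    exact hl
  have hvv : v = v' := by
    have := congrArg (List.filter c) h
    rw [List.filter_append, List.filter_append, f1 u hu, f1 u' hu', f2 v hv, f2 v' hv'] at this
    simpa using this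
  subst hvv
  exact ⟨List.append_cancel_right h, rfl⟩

lemma cpath_inj (r r' : V) (A B A' B' : List κ) (hA : A ≠ []) (hB : B ≠ [])
    (h : cpath p r A B = cpath p r' A' B') : r = r' ∧ A = A' ∧ B = B' := by
  unfold cpath at h
  have key := split_typed (fun e : Dart V κ => e.2.2.1) _ _ _ _
    (fun e he => (fpath_mem p false r A e he).1)
    (by
      intro e he
      rw [List.mem_reverse, List.mem_map] at he
      obtain ⟨e', he', rfl⟩ := he
      exact (fpath_mem p true r B e' he').1)
    (fun e he => (fpath_mem p false r' A' e he).1)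
    (by
      intro e he
      rw [List.mem_reverse, List.mem_map] at he
      obtain ⟨e', he', rfl⟩ := he
      exact (fpath_mem p true r' B' e' he').1) h
  obtain ⟨h1, h2⟩ := key
  obtain ⟨h3, h4⟩ := fpath_inj p false r r' A A' hA h1
  have h5 := List.reverse_injective h2
  have h6 : Function.Injective (drev : Dart V κ → Dart V κ) := by
    intro e e' he
    have := congrArg drev he
    rwa [drev_drev, drev_drev] at this
  have h7 := (List.map_injective_iff.mpr h6) h5
  obtain ⟨_, h8⟩ := fpath_inj p true r r' B B' hB h7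
  exact ⟨h3, h4, h8⟩

/-- a rotation of a list of the form (false-typed)(true-typed), both parts nonempty, which is again
of this form is the list itself -/
lemma rot_typed {α : Type} (c : α → Bool) (u v u' v' : List α) (hu : ∀ a ∈ u, c a = false)
    (hv : ∀ a ∈ v, c a = true) (hu' : ∀ a ∈ u', c a = false) (hv' : ∀ a ∈ v', c a = true)
    (hu'ne : u' ≠ []) (hv'ne : v' ≠ [])
    (h : (u ++ v) ~r (u' ++ v')) : u ++ v = u' ++ v' := by
  obtain ⟨k, hk⟩ := h
  by_cases hlen : (u ++ v) = []
  · rw [hlen] at hk ⊢
    rw [List.rotate_nil] at hk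
    exact hk
  have hpos : 0 < (u ++ v).length := List.length_pos_iff.mpr hlen
  rw [← List.rotate_mod] at hk
  have hk' : k % (u ++ v).length < (u ++ v).length := Nat.mod_lt _ hpos
  generalize k % (u ++ v).length = m at hk hk'
  by_cases hm : m = 0
  · rw [hm, List.rotate_zero] at hk; exact hk
  exfalso
  -- the first letter of the rotated list is at position m, the last one at position m - 1
  have hk2 := hk
  rw [List.rotate_eq_drop_append_take hk'.le] at hk2
  -- head
  have hdne : (u ++ v).drop m ≠ [] := by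
    intro h0
    rw [List.drop_eq_nil_iff] at h0
    omega
  have htne : (u ++ v).take m ≠ [] := by
    intro h0
    rw [List.take_eq_nil_iff] at h0
    rcases h0 with h0 | h0
    · exact hm h0
    · exact hlen h0
  have hhead : c ((u ++ v)[m]) = false := by
    have e1 : ((u ++ v).drop m ++ (u ++ v).take m).head? = some ((u ++ v)[m]) := by
      rw [List.head?_append_of_ne_nil _ hdne, List.head?_drop]
      exact List.getElem?_eq_getElem hk'
    rw [hk2, List.head?_append_of_ne_nil _ hu'ne] at e1
    exact hu' _ (List.mem_of_mem_head? e1)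
  have hm1 : m - 1 < (u ++ v).length := by omega
  have hlast : c ((u ++ v)[m - 1]) = true := by
    have e1 : ((u ++ v).drop m ++ (u ++ v).take m).getLast? = some ((u ++ v)[m - 1]) := by
      rw [List.getLast?_append_of_ne_nil _ htne, List.getLast?_take, if_neg hm]
      rw [List.getElem?_eq_getElem hm1]
      rfl
    rw [hk2, List.getLast?_append_of_ne_nil _ hv'ne] at e1
    exact hv' _ (List.mem_of_mem_getLast? e1)
  -- contradiction with the shape of `u ++ v`
  by_cases hmu : m < u.length
  · have : (u ++ v)[m - 1] = u[m - 1] := List.getElem_append_left (by omega)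
    rw [this, hu _ (List.getElem_mem _)] at hlast
    exact absurd hlast (by decide)
  · have : (u ++ v)[m] = v[m - u.length]'(by rw [List.length_append] at hk'; omega) :=
      List.getElem_append_right (by omega)
    rw [this, hv _ (List.getElem_mem _)] at hhead
    exact absurd hhead (by decide)

lemma cpath_rot (r r' : V) (A B A' B' : List κ) (hA : A ≠ []) (hB : B ≠ []) (hA' : A' ≠ []) (hB' : B' ≠ [])
    (h : cpath p r A B ~r cpath p r' A' B') : r = r' ∧ A = A' ∧ B = B' := by
  refine cpath_inj p r r' A B A' B' hA hB ?_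
  unfold cpath at h ⊢
  refine rot_typed (fun e : Dart V κ => e.2.2.1) _ _ _ _
    (fun e he => (fpath_mem p false r A e he).1)
    (by
      intro e he
      rw [List.mem_reverse, List.mem_map] at he
      obtain ⟨e', he', rfl⟩ := he
      exact (fpath_mem p true r B e' he').1)
    (fun e he => (fpath_mem p false r' A' e he).1)
    (by
      intro e he
      rw [List.mem_reverse, List.mem_map] at he
      obtain ⟨e', he', rfl⟩ := he
      exact (fpath_mem p true r' B' e' he').1) ?_ ?_ h
  · rw [← List.length_pos_iff, fpath_length]; exact List.length_pos_iff.mpr hA'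
  · rw [← List.length_pos_iff]; simp [fpath_length]; exact List.length_pos_iff.mpr hB'

lemma cpath_not_rot_inv (r r' : V) (A B A' B' : List κ) (hA : A ≠ []) :
    ¬ (cpath p r A B ~r ((cpath p r' A' B').map drev).reverse) := by
  intro h
  have hne : fpath p false r A ≠ [] := by
    rw [← List.length_pos_iff, fpath_length]; exact List.length_pos_iff.mpr hA
  obtain ⟨e, he⟩ := List.exists_mem_of_ne_nil _ hne
  have h1 := fpath_mem p false r A e he
  have h2 : e ∈ cpath p r A B := by
    unfold cpath
    exact List.mem_append_left _ he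
  have h3 : e ∈ ((cpath p r' A' B').map drev).reverse := h.mem_iff.mp h2
  rw [List.mem_reverse, List.mem_map] at h3
  obtain ⟨e', he', rfl⟩ := h3
  unfold cpath at he'
  rw [List.mem_append, List.mem_reverse, List.mem_map] at he'
  rcases he' with he' | ⟨e'', he'', rfl⟩
  · have h4 := fpath_mem p false r' A' e' he'
    have h5 := h1.2
    simp only [drev] at h5
    rw [h4.2] at h5
    exact absurd h5 (by decide)
  · rw [drev_drev] at h1
    have h4 := fpath_mem p true r' B' e'' he''
    rw [h4.1] at h1
    exact absurd h1.1 (by decide)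

lemma path_distinct (f f' : (cplx p L hL).F) (hff : f ≠ f') :
    ¬ ((cplx p L hL).path f ~r (cplx p L hL).path f') ∧
    ¬ ((cplx p L hL).path f ~r (((cplx p L hL).path f').map (cplx p L hL).rev).reverse) := by
  obtain ⟨c, ⟨⟨r, A, B⟩, hq⟩⟩ := f
  obtain ⟨c', ⟨⟨r', A', B'⟩, hq'⟩⟩ := f'
  have hq0 := hq
  have hq0' := hq'
  simp only [FS, Finset.mem_filter, Finset.mem_product, Finset.mem_univ, true_and, mem_words] at hq0 hq0'
  have hA : A ≠ [] := List.length_pos_iff.mp (by rw [hq0.1.1]; exact la_pos L hL c)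
  have hB : B ≠ [] := List.length_pos_iff.mp (by rw [hq0.1.2]; exact lb_pos L hL c)
  have hA' : A' ≠ [] := List.length_pos_iff.mp (by rw [hq0'.1.1]; exact la_pos L hL c')
  have hB' : B' ≠ [] := List.length_pos_iff.mp (by rw [hq0'.1.2]; exact lb_pos L hL c')
  constructor
  · intro h
    obtain ⟨rfl, rfl, rfl⟩ := cpath_rot p r r' A B A' B' hA hB hA' hB' h
    have hcc : c = c' := by
      have h1 := hq0.1.1
      rw [hq0'.1.1] at h1
      have h2 := hq0.1.2
      rw [hq0'.1.2] at h2
      fin_cases c <;> fin_cases c' <;> simp [la, lb] at h1 h2 <;> rfl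
    subst hcc
    exact hff rfl
  · intro h
    exact cpath_not_rot_inv p r r' A B A' B' hA h

end fam

end Pool.Agent.H57
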