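import Pool.Agent.helper57.Family

set_option autoImplicit false
set_option linter.unusedSectionVars false

namespace Pool.Agent.H57

open Finset PolygonalComplex

section final

variable {V κ : Type} [Fintype V] [DecidableEq V] [Fintype κ] [DecidableEq κ]

/-- the length of the words -/
noncomputable def Lf (lam : ℝ) (N : ℕ) : ℕ := ⌈Real.log (2 * N) / (- Real.log lam)⌉₊ + 1

lemma Lf_pos (lam : ℝ) (N : ℕ) : 0 < Lf lam N := Nat.succ_pos _

lemma Lf_le (lam : ℝ) (hlam : 0 < lam) (hlam1 : lam < 1) (N : ℕ) (hN : 0 < N) :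
    (Lf lam N : ℝ) ≤ Real.log (2 * N) / (- Real.log lam) + 2 := by
  have hc : 0 < - Real.log lam := by
    have := Real.log_neg hlam hlam1
    linarith
  have hN' : (1 : ℝ) ≤ N := by exact_mod_cast hN
  have h1 : 0 ≤ Real.log (2 * N) := Real.log_nonneg (by linarith)
  have h2 := Nat.ceil_lt_add_one (div_nonneg h1 hc.le)
  unfold Lf
  push_cast
  linarith

lemma Lf_pow (lam : ℝ) (hlam : 0 < lam) (hlam1 : lam < 1) (N : ℕ) (hN : 0 < N) :
    lam ^ (Lf lam N) ≤ 1 / (2 * N) := by
  have hc : 0 < - Real.log lam := by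
    have := Real.log_neg hlam hlam1
    linarith
  have hN' : (1 : ℝ) ≤ N := by exact_mod_cast hN
  have h1 : Real.log (2 * N) / (- Real.log lam) ≤ Lf lam N := by
    unfold Lf
    push_cast
    have := Nat.le_ceil (Real.log (2 * N) / (- Real.log lam))
    linarith
  rw [div_le_iff₀ hc] at h1
  have h2 : lam ^ (Lf lam N) = Real.exp ((Lf lam N) * Real.log lam) := by
    rw [Real.exp_nat_mul, Real.exp_log hlam]
  rw [h2]
  have h3 : (1 : ℝ) / (2 * N) = Real.exp (- Real.log (2 * N)) := by
    rw [Real.exp_neg, Real.exp_log (by linarith)]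
    ring
  rw [h3]
  apply Real.exp_le_exp.mpr
  linarith

/-- the constant bounding the Green function -/
noncomputable def CG (lam : ℝ) : ℝ := 1 / (1 - lam) + (2 / (- Real.log lam) + 2)

lemma Lf_div_le (lam : ℝ) (hlam : 0 < lam) (hlam1 : lam < 1) (N : ℕ) (hN : 0 < N) :
    (Lf lam N : ℝ) / N ≤ 2 / (- Real.log lam) + 2 := by
  have hc : 0 < - Real.log lam := by
    have := Real.log_neg hlam hlam1
    linarith
  have hN' : (1 : ℝ) ≤ N := by exact_mod_cast hN
  have h1 := Lf_le lam hlam hlam1 N hN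
  rw [div_le_iff₀ (by linarith)]
  refine le_trans h1 ?_
  have h2 : Real.log (2 * N) ≤ 2 * N := by
    have := Real.log_le_sub_one_of_pos (show (0 : ℝ) < 2 * N by linarith)
    linarith
  have h3 : Real.log (2 * N) / (- Real.log lam) ≤ 2 * N / (- Real.log lam) :=
    div_le_div_of_nonneg_right h2 hc.le
  have h4 : 2 * (N : ℝ) / (- Real.log lam) = 2 / (- Real.log lam) * N := by ring
  rw [h4] at h3
  nlinarith

/-- all properties of the complex of a family of permutations with spectral gap -/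
lemma main_family (p : κ → Equiv.Perm V) (hκ : 0 < Fintype.card κ) (hN : 4 ≤ Fintype.card V)
    (lam : ℝ) (hlam : 0 < lam) (hlam1 : lam < 1) (hg : Gap p lam) (K : ℝ)
    (hK : K = 6 * (1 + 2 * CG lam)) :
    let X := cplx p (Lf lam (Fintype.card V)) (Lf_pos _ _)
    X.Connected ∧ (∀ v, X.degree v = 4 * Fintype.card κ) ∧
    ENNReal.ofReal ((1 - lam) / (2 * K ^ 2)) ≤ X.hB0 ∧
    ENNReal.ofReal ((1 / (6 * (1 + 2 * Fintype.card κ))) / K) ≤ X.hB1 ∧
    (∀ f, ((X.path f).length : ℝ) ≤ (4 / (- Real.log lam) + 5) * Real.log (Fintype.card X.V)) ∧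
    (∀ v, 1 / (2 * K) ≤ Fintype.card X.V * X.mu0 v ∧ Fintype.card X.V * X.mu0 v ≤ 2 * K) ∧
    (∀ e, 1 / K ≤ Fintype.card X.E * X.mu1 e ∧ Fintype.card X.E * X.mu1 e ≤ K) ∧
    (∀ f f' : X.F, f ≠ f' → ¬ (X.path f ~r X.path f') ∧
      ¬ (X.path f ~r ((X.path f').map X.rev).reverse)) := by
  intro X
  have hNpos : 0 < Fintype.card V := by omega
  have hN' : (0 : ℝ) < Fintype.card V := by exact_mod_cast hNpos
  have hD : (0 : ℝ) < Fintype.card κ := by exact_mod_cast hκ
  have hc : 0 < - Real.log lam := by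
    have := Real.log_neg hlam hlam1
    linarith
  have hCG : 0 ≤ CG lam := by
    unfold CG
    have : 0 < 1 - lam := by linarith
    positivity
  have hKpos : 0 < K := by rw [hK]; positivity
  have hL := Lf_pos lam (Fintype.card V)
  have hnu : NearUnif p (Lf lam (Fintype.card V)) :=
    nearUnif_of_gap p _ hNpos hκ lam hlam.le hlam1.le hg (Lf_pow lam hlam hlam1 _ hNpos)
  have hC0 : ∀ x i, ∀ l ≤ Lf lam (Fintype.card V), Green p x l (p i x) ≤ CG lam := by
    intro x i l hl
    refine le_trans (Green_le p hκ lam hlam.le hlam1 hg x l (p i x)) ?_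
    unfold CG
    have h1 := Lf_div_le lam hlam hlam1 _ hNpos
    have h2 : (l : ℝ) / Fintype.card V ≤ (Lf lam (Fintype.card V) : ℝ) / Fintype.card V :=
      div_le_div_of_nonneg_right (by exact_mod_cast hl) hN'.le
    linarith
  have hcmp : ∀ e e' : X.E, (X.wt1 e : ℝ) ≤ K * X.wt1 e' := by
    intro e e'
    rw [hK]
    exact wt1_compare p _ hL hNpos hκ hnu (CG lam) hC0 e e'
  have hpos : ∀ e : X.E, (0 : ℝ) < X.wt1 e :=
    fun e => wt1_pos p _ hL hNpos hκ hnu (CG lam) hC0 e
  obtain ⟨x0⟩ : Nonempty V := Fintype.card_pos_iff.mp hNpos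
  obtain ⟨i0⟩ : Nonempty κ := Fintype.card_pos_iff.mp hκ
  have e0 : X.E := ((x0, i0, false, false) : Dart V κ)
  have hE : ((Fintype.card X.E : ℕ) : ℝ) = 4 * Fintype.card κ * Fintype.card V :=
    cardE_real p _ hL
  have hdeg : ∀ v : X.V, X.degree v = 4 * Fintype.card κ := fun v => degree_cplx p _ hL v
  have hVV : Fintype.card X.V = Fintype.card V := rfl
  refine ⟨connected_cplx p _ hL hNpos hκ hnu, hdeg, ?_, ?_, ?_, ?_, ?_, ?_⟩
  · rw [hK]
    exact h0_bound p _ hL hNpos hκ hnu (CG lam) hC0 lam hlam hlam1 hg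
  · rw [hK]
    exact h1_bound p _ hL hNpos hκ hnu (CG lam) hC0
  · intro f
    have h1 := length_path p _ hL f
    have h1' : ((X.path f).length : ℝ) ≤ 2 * Lf lam (Fintype.card V) + 1 := by exact_mod_cast h1
    refine le_trans h1' ?_
    have h2 := Lf_le lam hlam hlam1 _ hNpos
    rw [hVV]
    have hN4 : (4 : ℝ) ≤ Fintype.card V := by exact_mod_cast hN
    have hlog2 := Real.log_two_gt_d9
    have h3 : 1 ≤ Real.log (Fintype.card V) := by
      have h4 : Real.log 4 = 2 * Real.log 2 := by
        rw [show (4 : ℝ) = 2 ^ 2 by norm_num, Real.log_pow]; norm_num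
      have h5 : Real.log 4 ≤ Real.log (Fintype.card V) := Real.log_le_log (by norm_num) hN4
      linarith
    have h4 : Real.log (2 * Fintype.card V) ≤ 2 * Real.log (Fintype.card V) := by
      rw [Real.log_mul (by norm_num) (by positivity)]
      have h5 : Real.log 2 ≤ Real.log (Fintype.card V) := Real.log_le_log (by norm_num) (by linarith)
      linarith
    have h5 : Real.log (2 * Fintype.card V) / (- Real.log lam)
        ≤ 2 * Real.log (Fintype.card V) / (- Real.log lam) :=
      div_le_div_of_nonneg_right h4 hc.le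
    have h6 : (4 / (- Real.log lam) + 5) * Real.log (Fintype.card V)
        = 2 * (2 * Real.log (Fintype.card V) / (- Real.log lam)) + 5 * Real.log (Fintype.card V) := by
      ring
    rw [h6]
    linarith
  · intro v
    have h1 := mu0_lower X K hcmp hpos e0 v
    have h2 := mu0_upper X K hcmp hpos e0 v
    rw [hE, hdeg v] at h1 h2
    push_cast at h1 h2
    rw [hVV]
    constructor
    · rw [div_le_iff₀ (by positivity)]
      have h3 : 4 * (Fintype.card κ : ℝ) * 1 ≤ 4 * (Fintype.card κ : ℝ) * (Fintype.card V * X.mu0 v * (2 * K)) := by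
        calc 4 * (Fintype.card κ : ℝ) * 1 = 4 * (Fintype.card κ : ℝ) := by ring
          _ ≤ _ := h1
          _ = _ := by ring
      exact le_of_mul_le_mul_left h3 (by positivity)
    · have h3 : 4 * (Fintype.card κ : ℝ) * (Fintype.card V * X.mu0 v) ≤ 4 * (Fintype.card κ : ℝ) * (2 * K) := by
        calc 4 * (Fintype.card κ : ℝ) * (Fintype.card V * X.mu0 v)
            = 4 * (Fintype.card κ : ℝ) * Fintype.card V * X.mu0 v := by ring
          _ ≤ _ := h2
          _ = _ := by ring
      exact le_of_mul_le_mul_left h3 (by positivity)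
  · intro e
    have h1 := mu1_lower X K hcmp hpos e
    have h2 := mu1_upper X K hcmp hpos e
    refine ⟨?_, h2⟩
    rw [div_le_iff₀ hKpos]
    linarith
  · intro f f' hff
    exact path_distinct p _ hL f f' hff

lemma lam0_pos : 0 < lam0 := by unfold lam0; norm_num
lemma lam0_lt : lam0 < 1 := by unfold lam0; norm_num

/-- the main theorem -/
theorem main_theorem :
    ∃ (k : ℕ) (lam C : ℝ), 0 < lam ∧ ∃ X : ℕ → PolygonalComplex,
      StrictMono (fun m => Fintype.card (X m).V) ∧
      ∀ m, (X m).Connected ∧ (∀ v, (X m).degree v ≤ k) ∧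
        ENNReal.ofReal lam ≤ (X m).hB0 ∧ ENNReal.ofReal lam ≤ (X m).hB1 ∧
        (∀ f, (((X m).path f).length : ℝ) ≤ C * Real.log (Fintype.card (X m).V)) ∧
        (∀ v, lam ≤ Fintype.card (X m).V * (X m).mu0 v ∧ Fintype.card (X m).V * (X m).mu0 v ≤ C) ∧
        (∀ e, lam ≤ Fintype.card (X m).E * (X m).mu1 e ∧ Fintype.card (X m).E * (X m).mu1 e ≤ C) ∧
        (∀ f f' : (X m).F, f ≠ f' → ¬ ((X m).path f ~r (X m).path f') ∧
          ¬ ((X m).path f ~r (((X m).path f').map (X m).rev).reverse)) := by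
  obtain ⟨K, hK⟩ : ∃ K : ℝ, K = 6 * (1 + 2 * CG lam0) := ⟨_, rfl⟩
  have h0 := lam0_pos
  have h1 := lam0_lt
  have h1' : 0 < 1 - lam0 := by linarith
  have hc : 0 < - Real.log lam0 := by
    have := Real.log_neg h0 h1
    linarith
  have hCG : 0 ≤ CG lam0 := by
    unfold CG
    positivity
  have hKpos : 0 < K := by rw [hK]; positivity
  have hcardV : ∀ m : ℕ, Fintype.card (V2 (m + 2)) = (m + 2) ^ 2 := by
    intro m
    rw [Fintype.card_prod, ZMod.card, sq]
  have hC : (0 : ℝ) < 4 / (- Real.log lam0) + 5 := by positivity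
  refine ⟨4 * Fintype.card (Fin 5), min ((1 - lam0) / (2 * K ^ 2))
    (min ((1 / (6 * (1 + 2 * Fintype.card (Fin 5)))) / K) (min (1 / (2 * K)) (1 / K))),
    max (4 / (- Real.log lam0) + 5) (max (2 * K) K), ?_,
    fun m => cplx (perms (m + 2)) (Lf lam0 (Fintype.card (V2 (m + 2)))) (Lf_pos _ _), ?_, ?_⟩
  · apply lt_min (by positivity)
    apply lt_min (by positivity)
    apply lt_min (by positivity) (by positivity)
  · intro a b hab
    have e1 : ∀ m : ℕ, Fintype.card (cplx (perms (m + 2)) (Lf lam0 (Fintype.card (V2 (m + 2)))) (Lf_pos _ _)).V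
        = (m + 2) ^ 2 := fun m => hcardV m
    simp only [e1]
    exact Nat.pow_lt_pow_left (by omega) (by norm_num)
  · intro m
    have hm : 4 ≤ Fintype.card (V2 (m + 2)) := by
      rw [hcardV]
      exact Nat.pow_le_pow_left (show 2 ≤ m + 2 by omega) 2
    obtain ⟨f1, f2, f3, f4, f5, f6, f7, f8⟩ := main_family (perms (m + 2)) (by simp) hm lam0 h0 h1
      (gap_perms (m + 2)) K hK
    refine ⟨f1, fun v => (f2 v).le, ?_, ?_, ?_, ?_, ?_, f8⟩
    · exact le_trans (ENNReal.ofReal_le_ofReal (min_le_left _ _)) f3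
    · exact le_trans (ENNReal.ofReal_le_ofReal (le_trans (min_le_right _ _) (min_le_left _ _))) f4
    · intro f
      refine le_trans (f5 f) ?_
      apply mul_le_mul_of_nonneg_right (le_max_left _ _)
      exact Real.log_natCast_nonneg _
    · intro v
      exact ⟨le_trans (le_trans (min_le_right _ _) (le_trans (min_le_right _ _) (min_le_left _ _))) (f6 v).1,
        le_trans (f6 v).2 (le_trans (le_max_left _ _) (le_max_right _ _))⟩
    · intro e
      exact ⟨le_trans (le_trans (min_le_right _ _) (le_trans (min_le_right _ _) (min_le_right _ _))) (f7 e).1,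
        le_trans (f7 e).2 (le_trans (le_max_right _ _) (le_max_right _ _))⟩

end final

end Pool.Agent.H57
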