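import Mathlib

set_option autoImplicit false

namespace Pool.Agent.H57

open Finset

/-- The two-dimensional discrete torus. -/
abbrev V2 (n : ℕ) := ZMod n × ZMod n

section Fourier

variable {n : ℕ} [NeZero n]

/-- the standard character -/
noncomputable def chi (a : ZMod n) : ℂ := ZMod.stdAddChar a

lemma chi_add (a b : ZMod n) : chi (a + b) = chi a * chi b := by
  unfold chi; exact AddChar.map_add_eq_mul _ _ _

lemma chi_zero : chi (0 : ZMod n) = 1 := by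
  unfold chi; exact AddChar.map_zero_eq_one _

lemma chi_neg (a : ZMod n) : chi (-a) = (starRingEnd ℂ) (chi a) := by
  unfold chi; exact AddChar.map_neg_eq_conj _ _

lemma chi_mul_conj (a : ZMod n) : chi a * (starRingEnd ℂ) (chi a) = 1 := by
  rw [← chi_neg, ← chi_add, add_neg_cancel, chi_zero]

lemma chi_normSq (a : ZMod n) : Complex.normSq (chi a) = 1 := by
  have h := chi_mul_conj a
  rw [Complex.mul_conj] at h
  exact_mod_cast h

lemma chi_sum (b : ZMod n) : ∑ x : ZMod n, chi (x * b) = if b = 0 then (n : ℂ) else 0 := by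
  have h := AddChar.sum_mulShift (R' := ℂ) b (ZMod.isPrimitive_stdAddChar n)
  unfold chi
  rw [h]
  split_ifs <;> simp

/-- Fourier transform on the discrete torus -/
noncomputable def Fh (f : V2 n → ℂ) (z : V2 n) : ℂ :=
  ∑ v : V2 n, f v * chi (-(z.1 * v.1 + z.2 * v.2))

lemma ortho (u v : V2 n) :
    ∑ z : V2 n, chi (-(z.1 * u.1 + z.2 * u.2)) * (starRingEnd ℂ) (chi (-(z.1 * v.1 + z.2 * v.2)))
      = if u = v then (n : ℂ) ^ 2 else 0 := by
  have h1 : ∀ z : V2 n, chi (-(z.1 * u.1 + z.2 * u.2)) *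
      (starRingEnd ℂ) (chi (-(z.1 * v.1 + z.2 * v.2)))
      = chi (z.1 * (v.1 - u.1)) * chi (z.2 * (v.2 - u.2)) := by
    intro z
    rw [← chi_neg, ← chi_add, ← chi_add]
    congr 1
    ring
  simp_rw [h1]
  rw [Fintype.sum_prod_type]
  simp_rw [← Finset.mul_sum]
  rw [← Finset.sum_mul, chi_sum, chi_sum]
  by_cases huv : u = v
  · subst huv; simp [sq]
  · rw [if_neg huv]
    by_cases h2 : v.1 - u.1 = 0
    · have h3 : v.2 - u.2 ≠ 0 := by
        intro h3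
        apply huv
        exact Prod.ext (sub_eq_zero.mp h2).symm (sub_eq_zero.mp h3).symm
      simp [h3]
    · simp [h2]

lemma parseval (f : V2 n → ℂ) :
    ∑ z, Complex.normSq (Fh f z) = (n : ℝ) ^ 2 * ∑ v, Complex.normSq (f v) := by
  have h : (∑ z, (Complex.normSq (Fh f z) : ℂ)) = (n : ℂ) ^ 2 * ∑ v, (Complex.normSq (f v) : ℂ) := by
    simp_rw [← Complex.mul_conj]
    unfold Fh
    simp_rw [map_sum, map_mul, Finset.sum_mul_sum]
    have h1 : ∀ z : V2 n, ∑ i : V2 n, ∑ j : V2 n, f i * chi (-(z.1 * i.1 + z.2 * i.2)) *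
        ((starRingEnd ℂ) (f j) * (starRingEnd ℂ) (chi (-(z.1 * j.1 + z.2 * j.2))))
        = ∑ i : V2 n, ∑ j : V2 n, (f i * (starRingEnd ℂ) (f j)) * (chi (-(z.1 * i.1 + z.2 * i.2)) *
          (starRingEnd ℂ) (chi (-(z.1 * j.1 + z.2 * j.2)))) := by
      intro z
      refine Finset.sum_congr rfl (fun i _ => Finset.sum_congr rfl (fun j _ => ?_))
      ring
    simp_rw [h1]
    rw [Finset.sum_comm, Finset.mul_sum]
    refine Finset.sum_congr rfl (fun i _ => ?_)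
    rw [Finset.sum_comm]
    simp_rw [← Finset.mul_sum, ortho]
    simp
    ring
  exact_mod_cast h


/-- the four basic permutations of the torus -/
def pe1 : Equiv.Perm (V2 n) where
  toFun v := (v.1 + 1, v.2)
  invFun v := (v.1 - 1, v.2)
  left_inv v := by ext <;> simp
  right_inv v := by ext <;> simp

def pe2 : Equiv.Perm (V2 n) where
  toFun v := (v.1, v.2 + 1)
  invFun v := (v.1, v.2 - 1)
  left_inv v := by ext <;> simp
  right_inv v := by ext <;> simp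

def pt1 : Equiv.Perm (V2 n) where
  toFun v := (v.1 + 2 * v.2, v.2)
  invFun v := (v.1 - 2 * v.2, v.2)
  left_inv v := by ext <;> simp
  right_inv v := by ext <;> simp

def pt2 : Equiv.Perm (V2 n) where
  toFun v := (v.1, v.2 + 2 * v.1)
  invFun v := (v.1, v.2 - 2 * v.1)
  left_inv v := by ext <;> simp
  right_inv v := by ext <;> simp

/-- the dual maps -/
def g1 : Equiv.Perm (V2 n) where
  toFun z := (z.1, z.2 - 2 * z.1)
  invFun z := (z.1, z.2 + 2 * z.1)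
  left_inv v := by ext <;> simp
  right_inv v := by ext <;> simp

def g2 : Equiv.Perm (V2 n) where
  toFun z := (z.1 - 2 * z.2, z.2)
  invFun z := (z.1 + 2 * z.2, z.2)
  left_inv v := by ext <;> simp
  right_inv v := by ext <;> simp

lemma Fh_pe1 (f : V2 n → ℂ) (z : V2 n) :
    Fh (fun v => f (pe1 v)) z = chi z.1 * Fh f z := by
  unfold Fh
  rw [← Equiv.sum_comp pe1 (fun v => f v * chi (-(z.1 * v.1 + z.2 * v.2))), Finset.mul_sum]
  refine Finset.sum_congr rfl (fun v _ => ?_)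
  rw [show chi z.1 * (f (pe1 v) * chi (-(z.1 * (pe1 v).1 + z.2 * (pe1 v).2)))
    = f (pe1 v) * (chi z.1 * chi (-(z.1 * (pe1 v).1 + z.2 * (pe1 v).2))) by ring, ← chi_add]
  congr 2
  simp [pe1]
  ring

lemma Fh_pe2 (f : V2 n → ℂ) (z : V2 n) :
    Fh (fun v => f (pe2 v)) z = chi z.2 * Fh f z := by
  unfold Fh
  rw [← Equiv.sum_comp pe2 (fun v => f v * chi (-(z.1 * v.1 + z.2 * v.2))), Finset.mul_sum]
  refine Finset.sum_congr rfl (fun v _ => ?_)
  rw [show chi z.2 * (f (pe2 v) * chi (-(z.1 * (pe2 v).1 + z.2 * (pe2 v).2)))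
    = f (pe2 v) * (chi z.2 * chi (-(z.1 * (pe2 v).1 + z.2 * (pe2 v).2))) by ring, ← chi_add]
  congr 2
  simp [pe2]
  ring

lemma Fh_pt1 (f : V2 n → ℂ) (z : V2 n) :
    Fh (fun v => f (pt1 v)) z = Fh f (g1 z) := by
  unfold Fh
  rw [← Equiv.sum_comp pt1 (fun v => f v * chi (-((g1 z).1 * v.1 + (g1 z).2 * v.2)))]
  refine Finset.sum_congr rfl (fun v _ => ?_)
  congr 2
  simp [pt1, g1]
  ring

lemma Fh_pt2 (f : V2 n → ℂ) (z : V2 n) :
    Fh (fun v => f (pt2 v)) z = Fh f (g2 z) := by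
  unfold Fh
  rw [← Equiv.sum_comp pt2 (fun v => f v * chi (-((g2 z).1 * v.1 + (g2 z).2 * v.2)))]
  refine Finset.sum_congr rfl (fun v _ => ?_)
  congr 2
  simp [pt2, g2]
  ring

lemma Fh_sub (f g : V2 n → ℂ) (z : V2 n) : Fh (fun v => f v - g v) z = Fh f z - Fh g z := by
  unfold Fh
  rw [← Finset.sum_sub_distrib]
  refine Finset.sum_congr rfl (fun v _ => ?_)
  ring

lemma Fh_zero (f : V2 n → ℂ) : Fh f 0 = ∑ v, f v := by
  unfold Fh
  simp [chi_zero]

/-- lower bound for `|χ(a)-1|²` away from zero -/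
lemma normSq_chi_sub_one (a : ZMod n) (ha : (n : ℤ) ≤ 12 * |a.valMinAbs|) :
    (1 : ℝ) / 4 ≤ Complex.normSq (chi a - 1) := by
  have h1 : Complex.normSq (chi a - 1) = 2 - 2 * (chi a).re := by
    rw [Complex.normSq_sub, chi_normSq]
    simp
    ring
  have h2 : (chi a).re = Real.cos (2 * Real.pi * (|a.valMinAbs| : ℤ) / n) := by
    have h3 : chi a = Complex.exp (2 * Real.pi * Complex.I * (a.valMinAbs : ℂ) / n) := by
      unfold chi
      conv_lhs => rw [← ZMod.coe_valMinAbs a]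
      exact ZMod.stdAddChar_coe _
    rw [h3]
    have h4 : (2 * Real.pi * Complex.I * (a.valMinAbs : ℂ) / n)
        = ((2 * Real.pi * (a.valMinAbs : ℝ) / n : ℝ) : ℂ) * Complex.I := by
      push_cast; ring
    rw [h4, Complex.exp_ofReal_mul_I_re]
    have h5 : (((|a.valMinAbs| : ℤ)) : ℝ) = |(a.valMinAbs : ℝ)| := by push_cast; rfl
    rw [h5]
    rw [← Real.cos_abs]
    congr 1
    rw [abs_div, abs_mul, abs_mul]
    have : |(n : ℝ)| = n := abs_of_nonneg (Nat.cast_nonneg n)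
    rw [this, abs_of_pos Real.pi_pos]
    simp
  have hn : (0 : ℝ) < n := by exact_mod_cast Nat.pos_of_ne_zero (NeZero.ne n)
  have h6 : Real.cos (2 * Real.pi * (|a.valMinAbs| : ℤ) / n) ≤ Real.cos (Real.pi / 6) := by
    apply Real.cos_le_cos_of_nonneg_of_le_pi
    · positivity
    · have h7 := ZMod.natAbs_valMinAbs_le a
      have h8 : 2 * |a.valMinAbs| ≤ n := by
        have : (|a.valMinAbs| : ℤ) = a.valMinAbs.natAbs := Int.abs_eq_natAbs _
        omega
      have h9 : 2 * ((|a.valMinAbs| : ℤ) : ℝ) ≤ n := by exact_mod_cast h8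
      rw [div_le_iff₀ hn]
      nlinarith [Real.pi_pos]
    · have h9 : (n : ℝ) ≤ 12 * ((|a.valMinAbs| : ℤ) : ℝ) := by exact_mod_cast ha
      rw [le_div_iff₀ hn]
      nlinarith [Real.pi_pos]
  rw [h1, h2]
  rw [Real.cos_pi_div_six] at h6
  have h10 : Real.sqrt 3 ≤ 7 / 4 := by
    rw [Real.sqrt_le_left (by norm_num)]
    norm_num
  linarith


lemma shift_bound (F : V2 n → ℂ) (g : Equiv.Perm (V2 n)) (ε T : ℝ) (hε : 0 < ε)
    (hT : ∑ z, ‖F z‖ ^ 2 = T) (h : ∑ z, ‖F (g z) - F z‖ ^ 2 ≤ ε ^ 2 * T) :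
    ∑ z, |‖F (g z)‖ ^ 2 - ‖F z‖ ^ 2| ≤ 2 * ε * T := by
  have hT' : ∑ z, ‖F (g z)‖ ^ 2 = T := by
    rw [← hT]; exact Equiv.sum_comp g (fun z => ‖F z‖ ^ 2)
  have hp : ∀ z, |‖F (g z)‖ ^ 2 - ‖F z‖ ^ 2|
      ≤ (1 / ε) * ‖F (g z) - F z‖ ^ 2 + (ε / 2) * (‖F (g z)‖ ^ 2 + ‖F z‖ ^ 2) := by
    intro z
    set a := ‖F (g z)‖
    set b := ‖F z‖
    set c := ‖F (g z) - F z‖
    have ha : 0 ≤ a := norm_nonneg _
    have hb : 0 ≤ b := norm_nonneg _
    have hc : 0 ≤ c := norm_nonneg _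
    have hab : |a - b| ≤ c := abs_norm_sub_norm_le _ _
    have e1 : |a ^ 2 - b ^ 2| = |a - b| * (a + b) := by
      rw [show a ^ 2 - b ^ 2 = (a - b) * (a + b) by ring, abs_mul, abs_of_nonneg (a := a + b) (by positivity)]
    rw [e1]
    have e2 : |a - b| * (a + b) ≤ c * (a + b) := mul_le_mul_of_nonneg_right hab (by positivity)
    have e3 : c * (a + b) ≤ (1 / ε) * c ^ 2 + (ε / 4) * (a + b) ^ 2 := by
      have : 0 ≤ (1 / ε) * (c - (ε / 2) * (a + b)) ^ 2 := by positivity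
      have e4 : (1 / ε) * (c - (ε / 2) * (a + b)) ^ 2
          = (1 / ε) * c ^ 2 + (ε / 4) * (a + b) ^ 2 - c * (a + b) := by
        field_simp
        ring
      linarith
    have e5 : (ε / 4) * (a + b) ^ 2 ≤ (ε / 2) * (a ^ 2 + b ^ 2) := by
      nlinarith [sq_nonneg (a - b)]
    linarith
  calc ∑ z, |‖F (g z)‖ ^ 2 - ‖F z‖ ^ 2|
      ≤ ∑ z, ((1 / ε) * ‖F (g z) - F z‖ ^ 2 + (ε / 2) * (‖F (g z)‖ ^ 2 + ‖F z‖ ^ 2)) :=
        Finset.sum_le_sum (fun z _ => hp z)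
    _ = (1 / ε) * ∑ z, ‖F (g z) - F z‖ ^ 2 + (ε / 2) * (T + T) := by
        rw [Finset.sum_add_distrib, ← Finset.mul_sum, ← Finset.mul_sum, Finset.sum_add_distrib, hT, hT']
    _ ≤ (1 / ε) * (ε ^ 2 * T) + (ε / 2) * (T + T) := by gcongr
    _ = 2 * ε * T := by field_simp; ring

lemma mass_le (F : V2 n → ℂ) (g : Equiv.Perm (V2 n)) (ε T : ℝ)
    (h : ∑ z, |‖F (g z)‖ ^ 2 - ‖F z‖ ^ 2| ≤ 2 * ε * T) (A : Finset (V2 n)) :
    ∑ z ∈ A, ‖F z‖ ^ 2 ≤ ∑ z ∈ A.image g, ‖F z‖ ^ 2 + 2 * ε * T := by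
  rw [Finset.sum_image (fun x _ y _ hxy => g.injective hxy)]
  have h1 : ∑ z ∈ A, |‖F (g z)‖ ^ 2 - ‖F z‖ ^ 2| ≤ 2 * ε * T :=
    le_trans (Finset.sum_le_sum_of_subset_of_nonneg (Finset.subset_univ A)
      (fun _ _ _ => abs_nonneg _)) h
  have h2 : ∑ z ∈ A, ‖F z‖ ^ 2 - ∑ z ∈ A, ‖F (g z)‖ ^ 2 ≤ ∑ z ∈ A, |‖F (g z)‖ ^ 2 - ‖F z‖ ^ 2| := by
    rw [← Finset.sum_sub_distrib]
    refine Finset.sum_le_sum (fun z _ => ?_)
    rw [abs_sub_comm]
    exact le_abs_self _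
  linarith

lemma mass_le_inv (F : V2 n → ℂ) (g : Equiv.Perm (V2 n)) (ε T : ℝ)
    (h : ∑ z, |‖F (g z)‖ ^ 2 - ‖F z‖ ^ 2| ≤ 2 * ε * T) (A : Finset (V2 n)) :
    ∑ z ∈ A, ‖F z‖ ^ 2 ≤ ∑ z ∈ A.image g.symm, ‖F z‖ ^ 2 + 2 * ε * T := by
  apply mass_le
  rw [← Equiv.sum_comp g]
  simp only [Equiv.symm_apply_apply]
  simp_rw [abs_sub_comm (‖F _‖ ^ 2) (‖F (g _)‖ ^ 2)]
  exact h

/-- coordinates -/
def s1 (z : V2 n) : ℤ := z.1.valMinAbs
def s2 (z : V2 n) : ℤ := z.2.valMinAbs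

/-- the box -/
def inU (z : V2 n) : Prop := 12 * |s1 z| < n ∧ 12 * |s2 z| < n

instance : DecidablePred (inU (n := n)) := fun z => by unfold inU; infer_instance

/-- no wrap-around for small combinations -/
lemma no_wrap (a b : ZMod n) (k : ℤ) (hk : |k| ≤ 4) (ha : 12 * |a.valMinAbs| < n)
    (hb : 12 * |b.valMinAbs| < n) :
    (b + k * a).valMinAbs = b.valMinAbs + k * a.valMinAbs := by
  rw [ZMod.valMinAbs_spec]
  constructor
  · simp
  · have h1 : |k * a.valMinAbs| ≤ 4 * |a.valMinAbs| := by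
      rw [abs_mul]
      exact mul_le_mul_of_nonneg_right hk (abs_nonneg _)
    have h2 := abs_le.mp h1
    have h3 := abs_le.mp (le_refl |b.valMinAbs|)
    constructor
    · linarith [h2.1, h3.1]
    · linarith [h2.2, h3.2]

lemma g1_s (z : V2 n) (hz : inU z) : s1 (g1 z) = s1 z ∧ s2 (g1 z) = s2 z - 2 * s1 z := by
  refine ⟨rfl, ?_⟩
  have := no_wrap z.1 z.2 (-2) (by norm_num) hz.1 hz.2
  unfold s1 s2 g1
  simp only [Equiv.coe_fn_mk]
  rw [show z.2 - 2 * z.1 = z.2 + ((-2 : ℤ) : ZMod n) * z.1 by push_cast; ring, this]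
  ring

lemma g1i_s (z : V2 n) (hz : inU z) : s1 (g1.symm z) = s1 z ∧ s2 (g1.symm z) = s2 z + 2 * s1 z := by
  refine ⟨rfl, ?_⟩
  have := no_wrap z.1 z.2 2 (by norm_num) hz.1 hz.2
  unfold s1 s2 g1
  simp only [Equiv.coe_fn_symm_mk]
  rw [show z.2 + 2 * z.1 = z.2 + ((2 : ℤ) : ZMod n) * z.1 by push_cast; ring, this]

lemma g2_s (z : V2 n) (hz : inU z) : s2 (g2 z) = s2 z ∧ s1 (g2 z) = s1 z - 2 * s2 z := by
  refine ⟨rfl, ?_⟩
  have := no_wrap z.2 z.1 (-2) (by norm_num) hz.2 hz.1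
  unfold s1 s2 g2
  simp only [Equiv.coe_fn_mk]
  rw [show z.1 - 2 * z.2 = z.1 + ((-2 : ℤ) : ZMod n) * z.2 by push_cast; ring, this]
  ring

lemma g2i_s (z : V2 n) (hz : inU z) : s2 (g2.symm z) = s2 z ∧ s1 (g2.symm z) = s1 z + 2 * s2 z := by
  refine ⟨rfl, ?_⟩
  have := no_wrap z.2 z.1 2 (by norm_num) hz.2 hz.1
  unfold s1 s2 g2
  simp only [Equiv.coe_fn_symm_mk]
  rw [show z.1 + 2 * z.2 = z.1 + ((2 : ℤ) : ZMod n) * z.2 by push_cast; ring, this]

/-- abstract two-set estimate -/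
lemma two_images (F : V2 n → ℂ) (g : Equiv.Perm (V2 n)) (ε T : ℝ)
    (h : ∑ z, |‖F (g z)‖ ^ 2 - ‖F z‖ ^ 2| ≤ 2 * ε * T) (A B : Finset (V2 n))
    (h1 : ∀ z ∈ A, g z ∈ B) (h2 : ∀ z ∈ A, g.symm z ∈ B)
    (h3 : ∀ z ∈ A, ∀ z' ∈ A, g z ≠ g.symm z') :
    2 * ∑ z ∈ A, ‖F z‖ ^ 2 ≤ ∑ z ∈ B, ‖F z‖ ^ 2 + 4 * ε * T := by
  have e1 := mass_le F g ε T h A
  have e2 := mass_le_inv F g ε T h A
  have e3 : Disjoint (A.image g) (A.image g.symm) := by
    rw [Finset.disjoint_left]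
    intro w hw hw'
    obtain ⟨z, hz, rfl⟩ := Finset.mem_image.mp hw
    obtain ⟨z', hz', hzz⟩ := Finset.mem_image.mp hw'
    exact h3 z hz z' hz' hzz.symm
  have e4 : A.image g ∪ A.image g.symm ⊆ B := by
    intro w hw
    rcases Finset.mem_union.mp hw with hw | hw
    · obtain ⟨z, hz, rfl⟩ := Finset.mem_image.mp hw
      exact h1 z hz
    · obtain ⟨z, hz, rfl⟩ := Finset.mem_image.mp hw
      exact h2 z hz
  have e5 : ∑ z ∈ A.image g, ‖F z‖ ^ 2 + ∑ z ∈ A.image g.symm, ‖F z‖ ^ 2 ≤ ∑ z ∈ B, ‖F z‖ ^ 2 := by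
    rw [← Finset.sum_union e3]
    exact Finset.sum_le_sum_of_subset_of_nonneg e4 (fun _ _ _ => by positivity)
  linarith

lemma key (F : V2 n → ℂ) (hF0 : F 0 = 0) (T : ℝ) (hT : ∑ z, ‖F z‖ ^ 2 = T)
    (h1 : ∑ z, ‖chi z.1 * F z - F z‖ ^ 2 ≤ (1 / 40) ^ 2 * T)
    (h2 : ∑ z, ‖chi z.2 * F z - F z‖ ^ 2 ≤ (1 / 40) ^ 2 * T)
    (h3 : ∑ z, ‖F (g1 z) - F z‖ ^ 2 ≤ (1 / 40) ^ 2 * T)
    (h4 : ∑ z, ‖F (g2 z) - F z‖ ^ 2 ≤ (1 / 40) ^ 2 * T) : T ≤ 0 := by
  have b1 := shift_bound F g1 (1 / 40) T (by norm_num) hT h3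
  have b2 := shift_bound F g2 (1 / 40) T (by norm_num) hT h4
  set ν : V2 n → ℝ := fun z => ‖F z‖ ^ 2 with hν
  have hν0 : ∀ z, 0 ≤ ν z := fun z => by positivity
  -- sets
  set U : Finset (V2 n) := univ.filter (fun z => inU z) with hU
  set X : Finset (V2 n) := univ.filter (fun z => |s1 z| < |s2 z|) with hX
  set Y : Finset (V2 n) := univ.filter (fun z => |s2 z| < |s1 z|) with hY
  set XU : Finset (V2 n) := univ.filter (fun z => inU z ∧ |s1 z| < |s2 z|) with hXU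
  set YU : Finset (V2 n) := univ.filter (fun z => inU z ∧ |s2 z| < |s1 z|) with hYU
  set Dp : Finset (V2 n) := univ.filter (fun z => inU z ∧ s1 z = s2 z ∧ s1 z ≠ 0) with hDp
  set Dm : Finset (V2 n) := univ.filter (fun z => inU z ∧ s1 z = -s2 z ∧ s1 z ≠ 0) with hDm
  set C : Finset (V2 n) := univ.filter (fun z => ¬ inU z) with hC
  -- mass outside the box
  have outside : ∑ z ∈ C, ν z ≤ 8 * (1 / 40) ^ 2 * T := by
    have e1 : ∀ z ∈ C, ν z ≤ 4 * (‖chi z.1 * F z - F z‖ ^ 2 + ‖chi z.2 * F z - F z‖ ^ 2) := by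
      intro z hz
      simp only [hC, Finset.mem_filter, inU, not_and_or, not_lt] at hz
      have f1 : ∀ a : ZMod n, ‖chi a * F z - F z‖ ^ 2 = Complex.normSq (chi a - 1) * ν z := by
        intro a
        rw [show chi a * F z - F z = (chi a - 1) * F z by ring, norm_mul, mul_pow,
          Complex.normSq_eq_norm_sq]
      rw [f1, f1]
      rcases hz.2 with h | h
      · have := normSq_chi_sub_one z.1 h
        have h5 := Complex.normSq_nonneg (chi z.2 - 1)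
        nlinarith [hν0 z, mul_nonneg h5 (hν0 z)]
      · have := normSq_chi_sub_one z.2 h
        have h5 := Complex.normSq_nonneg (chi z.1 - 1)
        nlinarith [hν0 z, mul_nonneg h5 (hν0 z)]
    calc ∑ z ∈ C, ν z ≤ ∑ z ∈ C, 4 * (‖chi z.1 * F z - F z‖ ^ 2 + ‖chi z.2 * F z - F z‖ ^ 2) :=
          Finset.sum_le_sum e1
      _ ≤ ∑ z, 4 * (‖chi z.1 * F z - F z‖ ^ 2 + ‖chi z.2 * F z - F z‖ ^ 2) :=
          Finset.sum_le_sum_of_subset_of_nonneg (Finset.subset_univ _) (fun _ _ _ => by positivity)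
      _ = 4 * (∑ z, ‖chi z.1 * F z - F z‖ ^ 2 + ∑ z, ‖chi z.2 * F z - F z‖ ^ 2) := by
          rw [← Finset.mul_sum, Finset.sum_add_distrib]
      _ ≤ 8 * (1 / 40) ^ 2 * T := by linarith
  have hT0 : 0 ≤ T := by rw [← hT]; exact Finset.sum_nonneg (fun z _ => hν0 z)
  -- splitting
  have splitX : ∑ z ∈ X, ν z ≤ ∑ z ∈ XU, ν z + ∑ z ∈ C, ν z := by
    have : X ⊆ XU ∪ C := by
      intro z hz
      simp only [hX, hXU, hC, Finset.mem_filter, Finset.mem_univ, true_and, Finset.mem_union] at *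
      tauto
    exact le_trans (Finset.sum_le_sum_of_subset_of_nonneg this (fun z _ _ => hν0 z))
      (by
        have := Finset.sum_union_inter (s₁ := XU) (s₂ := C) (f := ν)
        have h5 : 0 ≤ ∑ z ∈ XU ∩ C, ν z := Finset.sum_nonneg (fun z _ => hν0 z)
        linarith)
  have splitY : ∑ z ∈ Y, ν z ≤ ∑ z ∈ YU, ν z + ∑ z ∈ C, ν z := by
    have : Y ⊆ YU ∪ C := by
      intro z hz
      simp only [hY, hYU, hC, Finset.mem_filter, Finset.mem_univ, true_and, Finset.mem_union] at *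
      tauto
    exact le_trans (Finset.sum_le_sum_of_subset_of_nonneg this (fun z _ _ => hν0 z))
      (by
        have := Finset.sum_union_inter (s₁ := YU) (s₂ := C) (f := ν)
        have h5 : 0 ≤ ∑ z ∈ YU ∩ C, ν z := Finset.sum_nonneg (fun z _ => hν0 z)
        linarith)
  have c1 : 2 * ∑ z ∈ YU, ν z ≤ ∑ z ∈ X, ν z + 4 * (1 / 40) * T := by
    apply two_images F g1 (1 / 40) T b1 YU X
    · intro z hz
      simp only [hYU, hX, Finset.mem_filter, Finset.mem_univ, true_and] at *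
      obtain ⟨e1, e2⟩ := g1_s z hz.1
      rw [e1, e2]
      have := hz.2
      grind
    · intro z hz
      simp only [hYU, hX, Finset.mem_filter, Finset.mem_univ, true_and] at *
      obtain ⟨e1, e2⟩ := g1i_s z hz.1
      rw [e1, e2]
      have := hz.2
      grind
    · intro z hz z' hz' hzz
      simp only [hYU, Finset.mem_filter, Finset.mem_univ, true_and] at *
      have e1 : z'.1 = z.1 := by
        have := congrArg Prod.fst hzz
        simp [g1] at this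
        exact this.symm
      have e2 : z'.2 = z.2 + ((-4 : ℤ) : ZMod n) * z.1 := by
        have := congrArg Prod.snd hzz
        simp [g1] at this
        rw [e1] at this
        push_cast
        linear_combination -this
      have e3 : s2 z' = s2 z - 4 * s1 z := by
        unfold s2 s1
        rw [e2, no_wrap z.1 z.2 (-4) (by norm_num) hz.1.1 hz.1.2]
        ring
      have e4 : s1 z' = s1 z := by unfold s1; rw [e1]
      have := hz'.2
      rw [e3, e4] at this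
      have := hz.2
      grind
  have c2 : 2 * ∑ z ∈ XU, ν z ≤ ∑ z ∈ Y, ν z + 4 * (1 / 40) * T := by
    apply two_images F g2 (1 / 40) T b2 XU Y
    · intro z hz
      simp only [hXU, hY, Finset.mem_filter, Finset.mem_univ, true_and] at *
      obtain ⟨e1, e2⟩ := g2_s z hz.1
      rw [e1, e2]
      have := hz.2
      grind
    · intro z hz
      simp only [hXU, hY, Finset.mem_filter, Finset.mem_univ, true_and] at *
      obtain ⟨e1, e2⟩ := g2i_s z hz.1
      rw [e1, e2]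
      have := hz.2
      grind
    · intro z hz z' hz' hzz
      simp only [hXU, Finset.mem_filter, Finset.mem_univ, true_and] at *
      have e1 : z'.2 = z.2 := by
        have := congrArg Prod.snd hzz
        simp [g2] at this
        exact this.symm
      have e2 : z'.1 = z.1 + ((-4 : ℤ) : ZMod n) * z.2 := by
        have := congrArg Prod.fst hzz
        simp [g2] at this
        rw [e1] at this
        push_cast
        linear_combination -this
      have e3 : s1 z' = s1 z - 4 * s2 z := by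
        unfold s2 s1
        rw [e2, no_wrap z.2 z.1 (-4) (by norm_num) hz.1.2 hz.1.1]
        ring
      have e4 : s2 z' = s2 z := by unfold s2; rw [e1]
      have := hz'.2
      rw [e3, e4] at this
      have := hz.2
      grind
  have c3 : ∑ z ∈ Dp, ν z ≤ ∑ z ∈ X, ν z + 2 * (1 / 40) * T := by
    refine le_trans (mass_le_inv F g1 (1 / 40) T b1 Dp) ?_
    refine add_le_add (Finset.sum_le_sum_of_subset_of_nonneg ?_ (fun z _ _ => hν0 z)) le_rfl
    · intro w hw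
      obtain ⟨z, hz, rfl⟩ := Finset.mem_image.mp hw
      simp only [hDp, hX, Finset.mem_filter, Finset.mem_univ, true_and] at *
      obtain ⟨e1, e2⟩ := g1i_s z hz.1
      rw [e1, e2]
      have := hz.2
      grind
  have c4 : ∑ z ∈ Dm, ν z ≤ ∑ z ∈ X, ν z + 2 * (1 / 40) * T := by
    refine le_trans (mass_le F g1 (1 / 40) T b1 Dm) ?_
    refine add_le_add (Finset.sum_le_sum_of_subset_of_nonneg ?_ (fun z _ _ => hν0 z)) le_rfl
    · intro w hw
      obtain ⟨z, hz, rfl⟩ := Finset.mem_image.mp hw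
      simp only [hDm, hX, Finset.mem_filter, Finset.mem_univ, true_and] at *
      obtain ⟨e1, e2⟩ := g1_s z hz.1
      rw [e1, e2]
      have := hz.2
      grind
  have total : T ≤ ∑ z ∈ XU, ν z + ∑ z ∈ YU, ν z + ∑ z ∈ Dp, ν z + ∑ z ∈ Dm, ν z + ∑ z ∈ C, ν z := by
    have hcover : (univ : Finset (V2 n)) ⊆ insert 0 (XU ∪ (YU ∪ (Dp ∪ (Dm ∪ C)))) := by
      intro z _
      simp only [hXU, hYU, hDp, hDm, hC, Finset.mem_insert, Finset.mem_filter, Finset.mem_univ,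
        true_and, Finset.mem_union]
      by_cases hz : inU z
      · by_cases h0 : s1 z = 0 ∧ s2 z = 0
        · left
          have f1 : z.1 = 0 := (ZMod.valMinAbs_eq_zero _).mp h0.1
          have f2 : z.2 = 0 := (ZMod.valMinAbs_eq_zero _).mp h0.2
          exact Prod.ext f1 f2
        · right
          simp only [hz, true_and, not_true_eq_false, or_false]
          grind
      · simp [hz]
    have hu : ∀ A B : Finset (V2 n), ∑ z ∈ A ∪ B, ν z ≤ ∑ z ∈ A, ν z + ∑ z ∈ B, ν z := by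
      intro A B
      have := Finset.sum_union_inter (s₁ := A) (s₂ := B) (f := ν)
      have h5 : 0 ≤ ∑ z ∈ A ∩ B, ν z := Finset.sum_nonneg (fun z _ => hν0 z)
      linarith
    have e1 : T ≤ ∑ z ∈ insert 0 (XU ∪ (YU ∪ (Dp ∪ (Dm ∪ C)))), ν z := by
      rw [← hT]
      exact Finset.sum_le_sum_of_subset_of_nonneg hcover (fun z _ _ => hν0 z)
    have e2 : ∑ z ∈ insert 0 (XU ∪ (YU ∪ (Dp ∪ (Dm ∪ C)))), ν z
        ≤ ν 0 + ∑ z ∈ (XU ∪ (YU ∪ (Dp ∪ (Dm ∪ C)))), ν z := by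
      rw [Finset.insert_eq]
      refine le_trans (hu _ _) ?_
      simp
    have e3 : ν 0 = 0 := by simp [hν, hF0]
    have e4 := hu XU (YU ∪ (Dp ∪ (Dm ∪ C)))
    have e5 := hu YU (Dp ∪ (Dm ∪ C))
    have e6 := hu Dp (Dm ∪ C)
    have e7 := hu Dm C
    linarith
  nlinarith

end Fourier

end Pool.Agent.H57
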