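import Pool.Agent.helper57.Gap

set_option autoImplicit false

namespace Pool.Agent.H57

open Finset

section general

variable {V κ : Type} [Fintype V] [DecidableEq V] [Fintype κ] [DecidableEq κ]

/-- averaging operator of a family of permutations -/
noncomputable def avg (p : κ → Equiv.Perm V) (f : V → ℝ) (x : V) : ℝ :=
  (∑ i, f (p i x)) / Fintype.card κ

/-- spectral gap: contraction on mean-zero functions -/
def Gap (p : κ → Equiv.Perm V) (lam : ℝ) : Prop :=
  ∀ f : V → ℝ, ∑ x, f x = 0 → ∑ x, (avg p f x) ^ 2 ≤ lam ^ 2 * ∑ x, f x ^ 2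

end general

section torus

variable {n : ℕ} [NeZero n]

/-- five permutations of the torus -/
def perms (n : ℕ) [NeZero n] : Fin 5 → Equiv.Perm (V2 n) := ![1, pe1, pe2, pt1, pt2]

lemma Fh_normSq_sub (f : V2 n → ℂ) (s : Equiv.Perm (V2 n)) :
    ∑ z, ‖Fh (fun v => f (s v)) z - Fh f z‖ ^ 2 = (n : ℝ) ^ 2 * ∑ v, ‖f (s v) - f v‖ ^ 2 := by
  have h := parseval (fun v => f (s v) - f v)
  simp_rw [Fh_sub, Complex.normSq_eq_norm_sq] at h
  exact h

/-- no almost invariant functions -/
lemma exists_moved (f : V2 n → ℝ) (hf : ∑ v, f v = 0) (hne : 0 < ∑ v, f v ^ 2) :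
    ∃ s ∈ [pe1 (n := n), pe2, pt1, pt2],
      (1 / 40) ^ 2 * ∑ v, f v ^ 2 < ∑ v, (f (s v) - f v) ^ 2 := by
  by_contra hcon
  push Not at hcon
  have hn : (0 : ℝ) < n := by exact_mod_cast Nat.pos_of_ne_zero (NeZero.ne n)
  set fc : V2 n → ℂ := fun v => (f v : ℂ) with hfc
  set F := Fh fc with hF
  have hsq : ∑ z, ‖F z‖ ^ 2 = (n : ℝ) ^ 2 * ∑ v, f v ^ 2 := by
    have h := parseval fc
    simp_rw [Complex.normSq_eq_norm_sq] at h
    rw [hF, h]
    congr 1
    refine Finset.sum_congr rfl (fun v _ => ?_)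
    rw [hfc]
    simp
  have hF0 : F 0 = 0 := by
    rw [hF, Fh_zero]
    simp only [hfc]
    exact_mod_cast hf
  have hs : ∀ s : Equiv.Perm (V2 n), s ∈ [pe1 (n := n), pe2, pt1, pt2] →
      ∑ z, ‖Fh (fun v => fc (s v)) z - F z‖ ^ 2 ≤ (1 / 40) ^ 2 * ((n : ℝ) ^ 2 * ∑ v, f v ^ 2) := by
    intro s hs
    rw [hF, Fh_normSq_sub]
    have h1 : ∑ v, ‖fc (s v) - fc v‖ ^ 2 = ∑ v, (f (s v) - f v) ^ 2 := by
      refine Finset.sum_congr rfl (fun v _ => ?_)
      rw [hfc]
      rw [← Complex.ofReal_sub, Complex.norm_real, Real.norm_eq_abs, sq_abs]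
    rw [h1]
    have h2 := hcon s hs
    nlinarith [sq_nonneg (n : ℝ)]
  have k := key F hF0 _ hsq
    (by have := hs pe1 (by simp); simp_rw [Fh_pe1] at this; exact this)
    (by have := hs pe2 (by simp); simp_rw [Fh_pe2] at this; exact this)
    (by have := hs pt1 (by simp); simp_rw [Fh_pt1] at this; exact this)
    (by have := hs pt2 (by simp); simp_rw [Fh_pt2] at this; exact this)
  have : 0 < (n : ℝ) ^ 2 * ∑ v, f v ^ 2 := by positivity
  linarith

/-- the contraction constant -/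
noncomputable def lam0 : ℝ := 1 - 1 / 32000

lemma gap_perms (n : ℕ) [NeZero n] : Gap (perms n) lam0 := by
  intro f hf
  by_cases hne : 0 < ∑ v, f v ^ 2
  swap
  · have h0 : ∑ v, f v ^ 2 = 0 := le_antisymm (not_lt.mp hne) (Finset.sum_nonneg (fun _ _ => sq_nonneg _))
    have h1 : ∀ v, f v = 0 := by
      intro v
      have := (Finset.sum_eq_zero_iff_of_nonneg (fun v _ => sq_nonneg (f v))).mp h0 v (Finset.mem_univ v)
      exact pow_eq_zero_iff (two_ne_zero) |>.mp this
    have h2 : ∀ x, avg (perms n) f x = 0 := by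
      intro x; unfold avg; simp [h1]
    simp [h1, h2]
  -- vectors
  let vec : (V2 n → ℝ) → EuclideanSpace ℝ (V2 n) := fun g => WithLp.toLp 2 g
  have hvec : ∀ g : V2 n → ℝ, ‖vec g‖ ^ 2 = ∑ x, g x ^ 2 := by
    intro g
    rw [EuclideanSpace.norm_sq_eq]
    refine Finset.sum_congr rfl (fun x _ => ?_)
    simp [vec]
  obtain ⟨s, hs, hmove⟩ := exists_moved f hf hne
  have hperm : ∀ t : Equiv.Perm (V2 n), ‖vec (fun x => f (t x))‖ = ‖vec f‖ := by
    intro t
    have h1 : ‖vec (fun x => f (t x))‖ ^ 2 = ‖vec f‖ ^ 2 := by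
      rw [hvec, hvec]
      exact Equiv.sum_comp t (fun x => f x ^ 2)
    have h2 := norm_nonneg (vec (fun x => f (t x)))
    have h3 := norm_nonneg (vec f)
    nlinarith [sq_eq_sq₀ h2 h3 |>.mp h1]
  have hfs : ‖vec f + vec (fun x => f (s x))‖ ≤ (2 - 1 / 6400) * ‖vec f‖ := by
    have h1 : ‖vec f + vec (fun x => f (s x))‖ ^ 2 + ‖vec f - vec (fun x => f (s x))‖ ^ 2
        = 2 * (‖vec f‖ ^ 2 + ‖vec (fun x => f (s x))‖ ^ 2) := by
      have := parallelogram_law_with_norm ℝ (vec f) (vec (fun x => f (s x)))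
      nlinarith [this]
    have h2 : ‖vec f - vec (fun x => f (s x))‖ ^ 2 = ∑ v, (f (s v) - f v) ^ 2 := by
      have : vec f - vec (fun x => f (s x)) = vec (fun x => f x - f (s x)) := rfl
      rw [this, hvec]
      refine Finset.sum_congr rfl (fun x _ => ?_)
      ring
    rw [hperm s, h2] at h1
    have h3 : (1 / 40) ^ 2 * ‖vec f‖ ^ 2 < ∑ v, (f (s v) - f v) ^ 2 := by rw [hvec]; exact hmove
    have h4 := norm_nonneg (vec f)
    refine (pow_le_pow_iff_left₀ (norm_nonneg _) (by positivity) two_ne_zero).mp ?_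
    nlinarith [sq_nonneg ‖vec f‖]
  have hsum : vec (avg (perms n) f) = (1 / 5 : ℝ) • (vec f + vec (fun x => f (pe1 x))
      + vec (fun x => f (pe2 x)) + vec (fun x => f (pt1 x)) + vec (fun x => f (pt2 x))) := by
    ext x
    simp [vec, avg, perms, Fin.sum_univ_five]
    ring
  have hbound : ‖vec (avg (perms n) f)‖ ≤ lam0 * ‖vec f‖ := by
    rw [hsum, norm_smul]
    have p1 := hperm pe1
    have p2 := hperm pe2
    have p3 := hperm pt1
    have p4 := hperm pt2
    set w0 := vec f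
    set w1 := vec (fun x => f (pe1 x))
    set w2 := vec (fun x => f (pe2 x))
    set w3 := vec (fun x => f (pt1 x))
    set w4 := vec (fun x => f (pt2 x))
    have hcase : ‖w0 + w1 + w2 + w3 + w4‖ ≤ (2 - 1 / 6400) * ‖w0‖ + 3 * ‖w0‖ := by
      simp only [List.mem_cons, List.not_mem_nil, or_false] at hs
      rcases hs with rfl | rfl | rfl | rfl
      · have e1 : w0 + w1 + w2 + w3 + w4 = (w0 + w1) + (w2 + (w3 + w4)) := by abel
        rw [e1]
        have e2 := norm_add_le (w0 + w1) (w2 + (w3 + w4))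
        have e3 := norm_add_le w2 (w3 + w4)
        have e4 := norm_add_le w3 w4
        linarith
      · have e1 : w0 + w1 + w2 + w3 + w4 = (w0 + w2) + (w1 + (w3 + w4)) := by abel
        rw [e1]
        have e2 := norm_add_le (w0 + w2) (w1 + (w3 + w4))
        have e3 := norm_add_le w1 (w3 + w4)
        have e4 := norm_add_le w3 w4
        linarith
      · have e1 : w0 + w1 + w2 + w3 + w4 = (w0 + w3) + (w1 + (w2 + w4)) := by abel
        rw [e1]
        have e2 := norm_add_le (w0 + w3) (w1 + (w2 + w4))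
        have e3 := norm_add_le w1 (w2 + w4)
        have e4 := norm_add_le w2 w4
        linarith
      · have e1 : w0 + w1 + w2 + w3 + w4 = (w0 + w4) + (w1 + (w2 + w3)) := by abel
        rw [e1]
        have e2 := norm_add_le (w0 + w4) (w1 + (w2 + w3))
        have e3 := norm_add_le w1 (w2 + w3)
        have e4 := norm_add_le w2 w3
        linarith
    have : ‖(1 / 5 : ℝ)‖ = 1 / 5 := by norm_num
    rw [this]
    unfold lam0
    linarith
  rw [← hvec, ← hvec, ← mul_pow]
  exact pow_le_pow_left₀ (norm_nonneg _) hbound 2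

end torus

end Pool.Agent.H57
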