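import Pool.Agent.helper57.Gap2

set_option autoImplicit false

namespace Pool.Agent.H57

open Finset

set_option linter.unusedSectionVars false

section words

variable {V κ : Type} [Fintype V] [DecidableEq V] [Fintype κ] [DecidableEq κ]

/-- words of a given length -/
def words (κ : Type) [Fintype κ] [DecidableEq κ] : ℕ → Finset (List κ)
  | 0 => {[]}
  | l + 1 => (univ ×ˢ words κ l).image (fun p => p.1 :: p.2)

lemma mem_words (l : ℕ) (A : List κ) : A ∈ words κ l ↔ A.length = l := by
  induction l generalizing A with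
  | zero => simp [words, List.length_eq_zero_iff]
  | succ l ih =>
    simp only [words, Finset.mem_image, Finset.mem_product, Finset.mem_univ, true_and, Prod.exists]
    constructor
    · rintro ⟨i, B, hB, rfl⟩
      simp [(ih B).mp hB]
    · intro h
      cases A with
      | nil => simp at h
      | cons i B => exact ⟨i, B, (ih B).mpr (by simpa using h), rfl⟩

lemma sum_words_succ {M : Type} [AddCommMonoid M] (l : ℕ) (f : List κ → M) :
    ∑ A ∈ words κ (l + 1), f A = ∑ i, ∑ A ∈ words κ l, f (i :: A) := by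
  simp only [words]
  rw [Finset.sum_image, Finset.sum_product]
  rintro ⟨i, A⟩ _ ⟨j, B⟩ _ h
  simp at h
  simp [h.1, h.2]

lemma card_words (l : ℕ) : (words κ l).card = Fintype.card κ ^ l := by
  rw [Finset.card_eq_sum_ones]
  induction l with
  | zero => simp [words]
  | succ l ih =>
    rw [sum_words_succ]
    simp_rw [ih]
    simp [pow_succ]
    ring

/-- walk along a word -/
def walk (p : κ → Equiv.Perm V) : V → List κ → V
  | x, [] => x
  | x, i :: A => walk p (p i x) A

/-- words of length `l` from `x` to `y` -/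
def W (p : κ → Equiv.Perm V) (l : ℕ) (x y : V) : Finset (List κ) :=
  (words κ l).filter (fun A => walk p x A = y)

/-- iterates of the averaging operator on delta functions -/
lemma card_W (p : κ → Equiv.Perm V) (hκ : 0 < Fintype.card κ) (l : ℕ) (x y : V) :
    ((W p l x y).card : ℝ) = (Fintype.card κ : ℝ) ^ l * ((avg p)^[l] (fun z => if z = y then 1 else 0)) x := by
  have h1 : ∀ l x, ((W p l x y).card : ℝ) = ∑ A ∈ words κ l, (if walk p x A = y then (1 : ℝ) else 0) := by
    intro l x
    unfold W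
    rw [Finset.card_filter]
    push_cast
    rfl
  rw [h1]
  induction l generalizing x with
  | zero =>
    rw [show words κ 0 = {[]} from rfl, Finset.sum_singleton]
    by_cases h : x = y <;> simp [walk, h]
  | succ l ih =>
    rw [sum_words_succ, Function.iterate_succ_apply']
    unfold avg at ih ⊢
    have h0 : ∀ (i : κ) (A : List κ), (if walk p x (i :: A) = y then (1 : ℝ) else 0)
        = if walk p (p i x) A = y then (1 : ℝ) else 0 := fun i A => rfl
    simp_rw [h0]
    have h2 : ∀ i, ∑ A ∈ words κ l, (if walk p (p i x) A = y then (1 : ℝ) else 0)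
        = (Fintype.card κ : ℝ) ^ l * ((fun f x => (∑ i, f (p i x)) / (Fintype.card κ : ℝ))^[l]
          (fun z => if z = y then 1 else 0)) (p i x) := fun i => ih (p i x)
    simp_rw [h2, ← Finset.mul_sum]
    have h3 : (Fintype.card κ : ℝ) ≠ 0 := by positivity
    field_simp
    ring

lemma sum_avg (p : κ → Equiv.Perm V) (hκ : 0 < Fintype.card κ) (f : V → ℝ) :
    ∑ x, avg p f x = ∑ x, f x := by
  unfold avg
  rw [← Finset.sum_div, Finset.sum_comm]
  have : ∀ i, ∑ x, f (p i x) = ∑ x, f x := fun i => Equiv.sum_comp (p i) f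
  simp_rw [this]
  have h3 : (Fintype.card κ : ℝ) ≠ 0 := by positivity
  simp
  field_simp

lemma avg_const (p : κ → Equiv.Perm V) (hκ : 0 < Fintype.card κ) (f : V → ℝ) (c : ℝ) :
    avg p (fun x => f x - c) = fun x => avg p f x - c := by
  funext x
  unfold avg
  rw [Finset.sum_sub_distrib]
  have h3 : (Fintype.card κ : ℝ) ≠ 0 := by positivity
  simp
  field_simp

lemma iter_avg_const (p : κ → Equiv.Perm V) (hκ : 0 < Fintype.card κ) (f : V → ℝ) (c : ℝ) (t : ℕ) :
    (avg p)^[t] (fun x => f x - c) = fun x => (avg p)^[t] f x - c := by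
  induction t with
  | zero => rfl
  | succ t ih => rw [Function.iterate_succ_apply', ih, avg_const p hκ, Function.iterate_succ_apply']

lemma iter_gap (p : κ → Equiv.Perm V) (hκ : 0 < Fintype.card κ) (lam : ℝ) (hg : Gap p lam)
    (f : V → ℝ) (hf : ∑ x, f x = 0) (t : ℕ) :
    ∑ x, (avg p)^[t] f x = 0 ∧ ∑ x, ((avg p)^[t] f x) ^ 2 ≤ (lam ^ 2) ^ t * ∑ x, f x ^ 2 := by
  induction t with
  | zero => simp [hf]
  | succ t ih =>
    rw [Function.iterate_succ_apply']
    refine ⟨by rw [sum_avg p hκ]; exact ih.1, ?_⟩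
    refine le_trans (hg _ ih.1) ?_
    calc lam ^ 2 * ∑ x, (avg p)^[t] f x ^ 2 ≤ lam ^ 2 * ((lam ^ 2) ^ t * ∑ x, f x ^ 2) :=
          mul_le_mul_of_nonneg_left ih.2 (sq_nonneg lam)
      _ = (lam ^ 2) ^ (t + 1) * ∑ x, f x ^ 2 := by ring

/-- mixing -/
lemma mixing (p : κ → Equiv.Perm V) (hκ : 0 < Fintype.card κ) (lam : ℝ) (hlam : 0 ≤ lam)
    (hg : Gap p lam) (t : ℕ) (x y : V) :
    |((W p t x y).card : ℝ) / (Fintype.card κ : ℝ) ^ t - 1 / Fintype.card V| ≤ lam ^ t := by
  have hV : 0 < Fintype.card V := Fintype.card_pos_iff.mpr ⟨x⟩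
  have hV' : (0 : ℝ) < Fintype.card V := by exact_mod_cast hV
  set δ : V → ℝ := fun z => if z = y then 1 else 0 with hδ
  set c : ℝ := 1 / Fintype.card V with hc
  have h0 : ∑ z, (δ z - c) = 0 := by
    rw [Finset.sum_sub_distrib]
    simp [hδ, hc]
    field_simp
    simp
  have h1 := iter_gap p hκ lam hg (fun z => δ z - c) h0 t
  have h2 : ∑ z, (δ z - c) ^ 2 ≤ 1 := by
    have e1 : ∀ z, (δ z - c) ^ 2 = δ z - 2 * c * δ z + c ^ 2 := by
      intro z
      simp only [hδ]
      split_ifs <;> ring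
    simp_rw [e1]
    rw [Finset.sum_add_distrib, Finset.sum_sub_distrib, ← Finset.mul_sum]
    have e2 : ∑ z, δ z = 1 := by simp [hδ]
    rw [e2]
    simp only [Finset.sum_const, Finset.card_univ, nsmul_eq_mul]
    have e3 : (Fintype.card V : ℝ) * c ^ 2 = c := by
      rw [hc]; field_simp
    rw [e3]
    have : 0 ≤ c := by positivity
    linarith
  have h3 : ((avg p)^[t] (fun z => δ z - c) x) ^ 2 ≤ (lam ^ t) ^ 2 := by
    have e1 : ((avg p)^[t] (fun z => δ z - c) x) ^ 2 ≤ ∑ x, ((avg p)^[t] (fun z => δ z - c) x) ^ 2 :=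
      Finset.single_le_sum (f := fun x => ((avg p)^[t] (fun z => δ z - c) x) ^ 2)
        (fun _ _ => sq_nonneg _) (Finset.mem_univ x)
    have e2 : (lam ^ 2) ^ t = (lam ^ t) ^ 2 := by rw [← pow_mul, ← pow_mul, mul_comm]
    have e3 : 0 ≤ (lam ^ 2) ^ t := by positivity
    nlinarith [h1.2]
  have h4 : ((W p t x y).card : ℝ) / (Fintype.card κ : ℝ) ^ t - c = (avg p)^[t] (fun z => δ z - c) x := by
    rw [card_W p hκ, iter_avg_const p hκ]
    have h3 : (Fintype.card κ : ℝ) ^ t ≠ 0 := by positivity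
    rw [mul_div_cancel_left₀ _ h3]
  rw [h4]
  exact abs_le_of_sq_le_sq h3 (by positivity)

end words

end Pool.Agent.H57
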