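import Pool.Agent.helper57.Hamming
import Pool.Agent.helper57.Mix

set_option autoImplicit false
set_option linter.unusedSectionVars false

namespace Pool.Agent.H57

open Finset

section gauge

variable {V κ : Type} [Fintype V] [DecidableEq V] [Fintype κ] [DecidableEq κ]

/-- holonomy along a word -/
def hol {G : Type} [Group G] (p : κ → Equiv.Perm V) (a : V → κ → G) : V → List κ → G
  | _, [] => 1
  | x, i :: A => a x i * hol p a (p i x) A

variable {n : ℕ}

/-- the three kinds of defects -/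
noncomputable def T3 (p : κ → Equiv.Perm V) (L : ℕ) (a b : V → κ → Equiv.Perm (Fin n)) : ℝ :=
  ∑ x, ∑ u, ∑ A ∈ W p L x u, ∑ B ∈ W p L x u, hamming (hol p a x A) (hol p b x B)

noncomputable def T1 (p : κ → Equiv.Perm V) (L : ℕ) (a b : V → κ → Equiv.Perm (Fin n)) : ℝ :=
  ∑ x, ∑ i, ∑ u, ∑ A ∈ W p L (p i x) u, ∑ B ∈ W p L x u,
    hamming (a x i * hol p a (p i x) A) (hol p b x B)

noncomputable def T2 (p : κ → Equiv.Perm V) (L : ℕ) (a b : V → κ → Equiv.Perm (Fin n)) : ℝ :=
  ∑ x, ∑ i, ∑ u, ∑ A ∈ W p L x u, ∑ B ∈ W p L (p i x) u,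
    hamming (hol p a x A) (b x i * hol p b (p i x) B)

lemma gauge [Nonempty V] (p : κ → Equiv.Perm V) (L : ℕ) (a b : V → κ → Equiv.Perm (Fin n)) (c1 : ℝ)
    (hc1 : 0 < c1) (hW : ∀ x u, c1 ≤ ((W p L x u).card : ℝ)) :
    ∃ β : V → Equiv.Perm (Fin n),
      (Fintype.card V : ℝ) * ∑ x, ∑ i, (hamming (a x i) ((β x)⁻¹ * β (p i x))
        + hamming (b x i) ((β x)⁻¹ * β (p i x)))
      ≤ (2 * Fintype.card κ * T3 p L a b + T1 p L a b + T2 p L a b) / c1 ^ 2 := by
  set w : V → V → ℝ := fun x u => ((W p L x u).card : ℝ) with hw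
  have hwpos : ∀ x u, 0 < w x u := fun x u => lt_of_lt_of_le hc1 (hW x u)
  have hne : ∀ x u, (W p L x u).Nonempty := by
    intro x u
    rw [← Finset.card_pos]
    have h := hwpos x u
    simp only [hw] at h
    exact_mod_cast h
  let G0 : V → V → List κ → ℝ := fun x u A =>
    (∑ B ∈ W p L x u, hamming (hol p a x A) (hol p b x B)) / w x u
  let G1 : V → κ → V → List κ → ℝ := fun y i u A =>
    (∑ B ∈ W p L ((p i).symm y) u, hamming (a ((p i).symm y) i * hol p a y A)
      (hol p b ((p i).symm y) B)) / w ((p i).symm y) u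
  let G2 : V → κ → V → List κ → ℝ := fun x i u A =>
    (∑ B ∈ W p L (p i x) u, hamming (hol p a x A) (b x i * hol p b (p i x) B)) / w (p i x) u
  let H : V → V → List κ → ℝ := fun x u A =>
    2 * Fintype.card κ * G0 x u A + ∑ i, G2 x i u A + ∑ i, G1 x i u A
  -- choice of words
  have hchoice : ∀ x u, ∃ A ∈ W p L x u, H x u A * w x u ≤ ∑ A ∈ W p L x u, H x u A := by
    intro x u
    obtain ⟨A, hA, hmin⟩ := Finset.exists_min_image (W p L x u) (H x u) (hne x u)
    refine ⟨A, hA, ?_⟩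
    have : ∑ A' ∈ W p L x u, H x u A ≤ ∑ A' ∈ W p L x u, H x u A' :=
      Finset.sum_le_sum (fun A' hA' => hmin A' hA')
    rw [Finset.sum_const, nsmul_eq_mul] at this
    rw [mul_comm]
    exact this
  choose Aw hAw hAle using hchoice
  let β : V → V → Equiv.Perm (Fin n) := fun u x => (hol p a x (Aw x u))⁻¹
  -- edge estimates
  have edgeA : ∀ u x i, hamming (a x i) ((β u x)⁻¹ * β u (p i x))
      ≤ G1 (p i x) i u (Aw (p i x) u) + G0 x u (Aw x u) := by
    intro u x i
    have hwx := hwpos x u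
    simp only [G1, G0, β, Equiv.symm_apply_apply]
    rw [← add_div, le_div_iff₀ hwx, ← Finset.sum_add_distrib]
    have : hamming (a x i) (((hol p a x (Aw x u))⁻¹)⁻¹ * (hol p a (p i x) (Aw (p i x) u))⁻¹) * w x u
        = ∑ B ∈ W p L x u, hamming (a x i) (((hol p a x (Aw x u))⁻¹)⁻¹ * (hol p a (p i x) (Aw (p i x) u))⁻¹) := by
      rw [Finset.sum_const, nsmul_eq_mul, mul_comm]
    rw [this]
    refine Finset.sum_le_sum (fun B _ => ?_)
    rw [inv_inv]
    rw [← hamming_mul_right (hol p a (p i x) (Aw (p i x) u)) (a x i)]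
    rw [inv_mul_cancel_right]
    refine le_trans (hamming_triangle _ (hol p b x B) _) ?_
    rw [hamming_symm (hol p b x B)]
  have edgeB : ∀ u x i, hamming (b x i) ((β u x)⁻¹ * β u (p i x))
      ≤ G2 x i u (Aw x u) + G0 (p i x) u (Aw (p i x) u) := by
    intro u x i
    have hwx := hwpos (p i x) u
    simp only [G2, G0, β]
    rw [← add_div, le_div_iff₀ hwx, ← Finset.sum_add_distrib]
    have : hamming (b x i) (((hol p a x (Aw x u))⁻¹)⁻¹ * (hol p a (p i x) (Aw (p i x) u))⁻¹) * w (p i x) u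
        = ∑ B ∈ W p L (p i x) u, hamming (b x i) (((hol p a x (Aw x u))⁻¹)⁻¹ * (hol p a (p i x) (Aw (p i x) u))⁻¹) := by
      rw [Finset.sum_const, nsmul_eq_mul, mul_comm]
    rw [this]
    refine Finset.sum_le_sum (fun B _ => ?_)
    rw [inv_inv]
    refine le_trans (hamming_triangle _ (hol p a x (Aw x u) * (hol p b (p i x) B)⁻¹) _) ?_
    rw [hamming_mul_left, hamming_inv]
    rw [← hamming_mul_right (hol p b (p i x) B) (b x i), inv_mul_cancel_right]
    rw [hamming_symm (b x i * hol p b (p i x) B), hamming_symm (hol p b (p i x) B)]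
  -- cost of the gauge
  have hcost : ∀ u, ∑ x, ∑ i, (hamming (a x i) ((β u x)⁻¹ * β u (p i x))
        + hamming (b x i) ((β u x)⁻¹ * β u (p i x))) ≤ ∑ x, H x u (Aw x u) := by
    intro u
    have e1 : ∑ x, ∑ i, (hamming (a x i) ((β u x)⁻¹ * β u (p i x))
        + hamming (b x i) ((β u x)⁻¹ * β u (p i x)))
        ≤ ∑ x, ∑ i, ((G1 (p i x) i u (Aw (p i x) u) + G0 x u (Aw x u))
          + (G2 x i u (Aw x u) + G0 (p i x) u (Aw (p i x) u))) :=
      Finset.sum_le_sum (fun x _ => Finset.sum_le_sum (fun i _ => add_le_add (edgeA u x i) (edgeB u x i)))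
    refine le_trans e1 (le_of_eq ?_)
    simp only [Finset.sum_add_distrib, H]
    have s1 : ∑ x, ∑ i, G1 (p i x) i u (Aw (p i x) u) = ∑ x, ∑ i, G1 x i u (Aw x u) := by
      rw [Finset.sum_comm]
      conv_rhs => rw [Finset.sum_comm]
      refine Finset.sum_congr rfl (fun i _ => ?_)
      exact Equiv.sum_comp (p i) (fun x => G1 x i u (Aw x u))
    have s2 : ∑ x, ∑ i, G0 (p i x) u (Aw (p i x) u) = ∑ x, ∑ i : κ, G0 x u (Aw x u) := by
      rw [Finset.sum_comm]
      conv_rhs => rw [Finset.sum_comm]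
      refine Finset.sum_congr rfl (fun i _ => ?_)
      exact Equiv.sum_comp (p i) (fun x => G0 x u (Aw x u))
    rw [s1, s2]
    have s3 : ∑ x, ∑ i : κ, G0 x u (Aw x u) = ∑ x, Fintype.card κ * G0 x u (Aw x u) := by
      refine Finset.sum_congr rfl (fun x _ => ?_)
      simp
    rw [s3]
    have s4 : ∑ x, 2 * (Fintype.card κ : ℝ) * G0 x u (Aw x u)
        = 2 * ∑ x, Fintype.card κ * G0 x u (Aw x u) := by
      rw [Finset.mul_sum]
      refine Finset.sum_congr rfl (fun x _ => ?_)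
      ring
    rw [s4]
    ring
  -- averaging over words
  have hdiv : ∀ (x y u v : V) (S : ℝ), 0 ≤ S → S / (w x u * w y v) ≤ S / c1 ^ 2 := by
    intro x y u v S hS
    apply div_le_div_of_nonneg_left hS (by positivity)
    rw [sq]
    exact mul_le_mul (hW x u) (hW y v) hc1.le (hwpos x u).le
  have hH : ∀ x u, H x u (Aw x u) ≤
      (2 * Fintype.card κ * (∑ A ∈ W p L x u, ∑ B ∈ W p L x u, hamming (hol p a x A) (hol p b x B))
      + ∑ i, (∑ A ∈ W p L x u, ∑ B ∈ W p L (p i x) u, hamming (hol p a x A) (b x i * hol p b (p i x) B))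
      + ∑ i, (∑ A ∈ W p L x u, ∑ B ∈ W p L ((p i).symm x) u, hamming (a ((p i).symm x) i * hol p a x A)
      (hol p b ((p i).symm x) B))) / c1 ^ 2 := by
    intro x u
    have e1 : H x u (Aw x u) ≤ (∑ A ∈ W p L x u, H x u A) / w x u := by
      rw [le_div_iff₀ (hwpos x u)]
      exact hAle x u
    refine le_trans e1 ?_
    simp only [H, G0, G1, G2, Finset.sum_add_distrib]
    rw [add_div, add_div, add_div, add_div]
    have t0 : (∑ A ∈ W p L x u, 2 * (Fintype.card κ : ℝ) *
        ((∑ B ∈ W p L x u, hamming (hol p a x A) (hol p b x B)) / w x u)) / w x u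
        ≤ 2 * Fintype.card κ * (∑ A ∈ W p L x u, ∑ B ∈ W p L x u, hamming (hol p a x A) (hol p b x B)) / c1 ^ 2 := by
      rw [← Finset.mul_sum, ← Finset.sum_div, mul_div_assoc, mul_div_assoc, div_div]
      apply mul_le_mul_of_nonneg_left _ (by positivity)
      exact hdiv x x u u _ (Finset.sum_nonneg (fun _ _ => Finset.sum_nonneg (fun _ _ => hamming_nonneg _ _)))
    have t2 : (∑ A ∈ W p L x u, ∑ i, (∑ B ∈ W p L (p i x) u,
        hamming (hol p a x A) (b x i * hol p b (p i x) B)) / w (p i x) u) / w x u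
        ≤ (∑ i, (∑ A ∈ W p L x u, ∑ B ∈ W p L (p i x) u, hamming (hol p a x A) (b x i * hol p b (p i x) B))) / c1 ^ 2 := by
      rw [Finset.sum_comm, Finset.sum_div, Finset.sum_div]
      refine Finset.sum_le_sum (fun i _ => ?_)
      rw [← Finset.sum_div, div_div]
      exact hdiv (p i x) x u u _ (Finset.sum_nonneg (fun _ _ => Finset.sum_nonneg (fun _ _ => hamming_nonneg _ _)))
    have t1 : (∑ A ∈ W p L x u, ∑ i, (∑ B ∈ W p L ((p i).symm x) u,
        hamming (a ((p i).symm x) i * hol p a x A) (hol p b ((p i).symm x) B)) / w ((p i).symm x) u) / w x u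
        ≤ (∑ i, (∑ A ∈ W p L x u, ∑ B ∈ W p L ((p i).symm x) u, hamming (a ((p i).symm x) i * hol p a x A)
      (hol p b ((p i).symm x) B))) / c1 ^ 2 := by
      rw [Finset.sum_comm, Finset.sum_div, Finset.sum_div]
      refine Finset.sum_le_sum (fun i _ => ?_)
      rw [← Finset.sum_div, div_div]
      exact hdiv ((p i).symm x) x u u _ (Finset.sum_nonneg (fun _ _ => Finset.sum_nonneg (fun _ _ => hamming_nonneg _ _)))
    linarith
  have htotal : ∑ u, ∑ x, H x u (Aw x u) ≤
      (2 * Fintype.card κ * T3 p L a b + T1 p L a b + T2 p L a b) / c1 ^ 2 := by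
    refine le_trans (Finset.sum_le_sum (fun u _ => Finset.sum_le_sum (fun x _ => hH x u))) ?_
    apply le_of_eq
    simp_rw [← Finset.sum_div]
    congr 1
    simp only [Finset.sum_add_distrib]
    have r3 : ∑ u, ∑ x, 2 * (Fintype.card κ : ℝ) * (∑ A ∈ W p L x u, ∑ B ∈ W p L x u,
        hamming (hol p a x A) (hol p b x B)) = 2 * Fintype.card κ * T3 p L a b := by
      rw [Finset.sum_comm]
      unfold T3
      simp_rw [← Finset.mul_sum]
    have r2 : ∑ u, ∑ x, ∑ i, (∑ A ∈ W p L x u, ∑ B ∈ W p L (p i x) u,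
        hamming (hol p a x A) (b x i * hol p b (p i x) B)) = T2 p L a b := by
      rw [Finset.sum_comm]
      unfold T2
      refine Finset.sum_congr rfl (fun x _ => ?_)
      rw [Finset.sum_comm]
    have r1 : ∑ u, ∑ x, ∑ i, (∑ A ∈ W p L x u, ∑ B ∈ W p L ((p i).symm x) u,
        hamming (a ((p i).symm x) i * hol p a x A) (hol p b ((p i).symm x) B)) = T1 p L a b := by
      unfold T1
      have : ∀ u, ∑ x, ∑ i, (∑ A ∈ W p L x u, ∑ B ∈ W p L ((p i).symm x) u,
          hamming (a ((p i).symm x) i * hol p a x A) (hol p b ((p i).symm x) B))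
          = ∑ x, ∑ i, ∑ A ∈ W p L (p i x) u, ∑ B ∈ W p L x u,
            hamming (a x i * hol p a (p i x) A) (hol p b x B) := by
        intro u
        rw [Finset.sum_comm]
        conv_rhs => rw [Finset.sum_comm]
        refine Finset.sum_congr rfl (fun i _ => ?_)
        rw [← Equiv.sum_comp (p i)]
        simp only [Equiv.symm_apply_apply]
      simp_rw [this]
      rw [Finset.sum_comm]
      refine Finset.sum_congr rfl (fun x _ => ?_)
      rw [Finset.sum_comm]
    rw [r3, r2, r1]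
    ring
  -- choose the best root
  obtain ⟨u, -, hu⟩ := Finset.exists_min_image (univ : Finset V) (fun u => ∑ x, H x u (Aw x u))
    Finset.univ_nonempty
  refine ⟨β u, ?_⟩
  have hmin : (Fintype.card V : ℝ) * ∑ x, H x u (Aw x u) ≤ ∑ u, ∑ x, H x u (Aw x u) := by
    have : ∑ u' : V, ∑ x, H x u (Aw x u) ≤ ∑ u', ∑ x, H x u' (Aw x u') :=
      Finset.sum_le_sum (fun u' hu' => hu u' hu')
    rw [Finset.sum_const, nsmul_eq_mul, Finset.card_univ] at this
    exact this
  have hN : (0 : ℝ) ≤ Fintype.card V := Nat.cast_nonneg _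
  calc _ ≤ (Fintype.card V : ℝ) * ∑ x, H x u (Aw x u) := mul_le_mul_of_nonneg_left (hcost u) hN
    _ ≤ _ := hmin
    _ ≤ _ := htotal

end gauge

end Pool.Agent.H57
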