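import Pool.Agent.helper57.General

set_option autoImplicit false
set_option linter.unusedSectionVars false

namespace Pool.Agent.H57

open Finset

namespace PolygonalComplex

/-- lower bound of the zeroth Cheeger constant from a Poincare inequality and nearly uniform
weights -/
lemma h0_general (X : PolygonalComplex) (K : ℝ) (hKpos : 0 < K)
    (hcmp : ∀ e e', (X.wt1 e : ℝ) ≤ K * X.wt1 e') (hpos : ∀ e, (0 : ℝ) < X.wt1 e)
    (e0 : X.E) (d : ℕ) (hd : 0 < d) (hdeg : ∀ v, X.degree v = d)
    (hE : (Fintype.card X.E : ℝ) = d * Fintype.card X.V) (hN : 0 < Fintype.card X.V)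
    (c : ℝ) (hc : 0 < c)
    (hp : ∀ (n : ℕ) (b : X.V → Equiv.Perm (Fin n)), c * d * ∑ x, ∑ y, hamming (b x) (b y)
      ≤ Fintype.card X.V * ∑ e, hamming (b (X.src e)) (b (X.src (X.rev e)))) :
    ENNReal.ofReal (c / (2 * K ^ 2)) ≤ X.hB0 := by
  have hN' : (0 : ℝ) < Fintype.card X.V := by exact_mod_cast hN
  have hd' : (0 : ℝ) < d := by exact_mod_cast hd
  obtain ⟨x0⟩ : Nonempty X.V := Fintype.card_pos_iff.mp hN
  apply hB0_ge
  · positivity
  intro n hn b hb
  obtain ⟨S, hS⟩ : ∃ S : ℝ, S = ∑ x : X.V, ∑ y : X.V, hamming (b x) (b y) := ⟨_, rfl⟩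
  obtain ⟨R, hR⟩ : ∃ R : ℝ, R = norm1 (delta0 b) := ⟨_, rfl⟩
  obtain ⟨T, hT⟩ : ∃ T : ℝ, T = distB0 b := ⟨_, rfl⟩
  -- lower bound of the norm
  have hnorm : c * S ≤ K * (Fintype.card X.V : ℝ) ^ 2 * R := by
    have h1 : ∑ e : X.E, hamming (b (X.src e)) (b (X.src (X.rev e)))
        ≤ K * (d * Fintype.card X.V) * R := by
      rw [hR]
      unfold norm1
      rw [Finset.mul_sum]
      refine Finset.sum_le_sum (fun e _ => ?_)
      have h2 := mu1_lower X K hcmp hpos e
      rw [hE] at h2
      have h3 : hamming ((delta0 b).1 e) 1 = hamming (b (X.src e)) (b (X.src (X.rev e))) := by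
        have : (delta0 b).1 e = (b (X.src e))⁻¹ * b (X.src (X.rev e)) := rfl
        rw [this, ← hamming_mul_left (b (X.src e))]
        rw [mul_inv_cancel_left, mul_one]
        exact hamming_symm _ _
      have h4 := hamming_nonneg (b (X.src e)) (b (X.src (X.rev e)))
      rw [h3]
      calc hamming (b (X.src e)) (b (X.src (X.rev e)))
          = 1 * hamming (b (X.src e)) (b (X.src (X.rev e))) := by ring
        _ ≤ (K * (d * Fintype.card X.V * X.mu1 e)) *
            hamming (b (X.src e)) (b (X.src (X.rev e))) := mul_le_mul_of_nonneg_right h2 h4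
        _ = _ := by ring
    have h6 := hp n b
    rw [← hS] at h6
    obtain ⟨G, hG⟩ : ∃ G : ℝ, G = ∑ e : X.E, hamming (b (X.src e)) (b (X.src (X.rev e))) := ⟨_, rfl⟩
    rw [← hG] at h1 h6
    have h7 : (d : ℝ) * (c * S) ≤ d * (K * (Fintype.card X.V : ℝ) ^ 2 * R) := by
      calc (d : ℝ) * (c * S) = c * d * S := by ring
        _ ≤ Fintype.card X.V * G := h6
        _ ≤ Fintype.card X.V * (K * (d * Fintype.card X.V) * R) :=
            mul_le_mul_of_nonneg_left h1 hN'.le
        _ = _ := by ring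
    exact le_of_mul_le_mul_left h7 hd'
  -- upper bound of the distance
  have hdist : (Fintype.card X.V : ℝ) ^ 2 * T ≤ 2 * K * S := by
    have h1 : ∀ y : X.V, (Fintype.card X.V : ℝ) * T ≤ 2 * K * ∑ v : X.V, hamming (b v) (b y) := by
      intro y
      have h2 : T ≤ dist0 b (fun _ => b y) := by
        rw [hT]
        exact distB0_le b (b y)
      refine le_trans (mul_le_mul_of_nonneg_left h2 hN'.le) ?_
      unfold dist0
      rw [Finset.mul_sum, Finset.mul_sum]
      refine Finset.sum_le_sum (fun v _ => ?_)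
      have h3 := mu0_upper X K hcmp hpos e0 v
      rw [hE, hdeg v] at h3
      have h4 : (Fintype.card X.V : ℝ) * X.mu0 v ≤ 2 * K := by
        have : (d : ℝ) * (Fintype.card X.V * X.mu0 v) ≤ d * (2 * K) := by
          calc _ = d * Fintype.card X.V * X.mu0 v := by ring
            _ ≤ 2 * d * K := h3
            _ = _ := by ring
        exact le_of_mul_le_mul_left this hd'
      have h5 := hamming_nonneg (b v) (b y)
      calc (Fintype.card X.V : ℝ) * (X.mu0 v * hamming (b v) (b y))
          = (Fintype.card X.V * X.mu0 v) * hamming (b v) (b y) := by ring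
        _ ≤ 2 * K * hamming (b v) (b y) := mul_le_mul_of_nonneg_right h4 h5
    have h2 := Finset.sum_le_sum (fun (y : X.V) (_ : y ∈ univ) => h1 y)
    rw [Finset.sum_const, nsmul_eq_mul, Finset.card_univ, ← Finset.mul_sum, Finset.sum_comm, ← hS] at h2
    calc (Fintype.card X.V : ℝ) ^ 2 * T = Fintype.card X.V * (Fintype.card X.V * T) := by ring
      _ ≤ _ := h2
  -- positivity
  have hSpos : 0 < S := by
    have : ∃ x y : X.V, b x ≠ b y := by
      by_contra hcon
      push Not at hcon
      exact hb (b x0) (funext (fun v => hcon v x0))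
    obtain ⟨x, y, hxy⟩ := this
    have h1 : 0 < hamming (b x) (b y) := lt_of_le_of_ne (hamming_nonneg _ _)
      (fun h => hxy (hamming_eq_zero hn _ _ h.symm))
    have h2 : hamming (b x) (b y) ≤ ∑ y, hamming (b x) (b y) :=
      Finset.single_le_sum (f := fun y => hamming (b x) (b y)) (fun _ _ => hamming_nonneg _ _) (Finset.mem_univ y)
    have h3 : ∑ y, hamming (b x) (b y) ≤ S := by
      rw [hS]
      exact Finset.single_le_sum (f := fun x => ∑ y, hamming (b x) (b y))
        (fun _ _ => Finset.sum_nonneg (fun _ _ => hamming_nonneg _ _)) (Finset.mem_univ x)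
    linarith
  rw [← hR, ← hT]
  refine ⟨?_, ?_⟩
  · have : 0 < K * (Fintype.card X.V : ℝ) ^ 2 * R := lt_of_lt_of_le (by positivity) hnorm
    exact pos_of_mul_pos_right this (by positivity)
  · have h1 : (Fintype.card X.V : ℝ) ^ 2 * (c * T)
        ≤ (Fintype.card X.V : ℝ) ^ 2 * (2 * K ^ 2 * R) := by
      calc (Fintype.card X.V : ℝ) ^ 2 * (c * T)
          = c * ((Fintype.card X.V : ℝ) ^ 2 * T) := by ring
        _ ≤ c * (2 * K * S) := mul_le_mul_of_nonneg_left hdist hc.le
        _ = 2 * K * (c * S) := by ring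
        _ ≤ 2 * K * (K * (Fintype.card X.V : ℝ) ^ 2 * R) :=
            mul_le_mul_of_nonneg_left hnorm (by positivity)
        _ = _ := by ring
    have h2 := le_of_mul_le_mul_left h1 (by positivity)
    rw [div_mul_eq_mul_div, div_le_iff₀ (by positivity)]
    linarith

/-- lower bound of the first Cheeger constant from a cone-type inequality and nearly uniform
weights -/
lemma h1_general (X : PolygonalComplex) (K : ℝ) (hKpos : 0 < K)
    (hcmp : ∀ e e', (X.wt1 e : ℝ) ≤ K * X.wt1 e') (hpos : ∀ e, (0 : ℝ) < X.wt1 e)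
    (hE0 : 0 < Fintype.card X.E)
    (c : ℝ) (hc : 0 < c)
    (hp : ∀ (n : ℕ) (a : X.C1 n), ∃ b : X.C0 n,
      c * ∑ e, hamming (a.1 e) ((delta0 b).1 e) ≤ Fintype.card X.E * normDelta1 a) :
    ENNReal.ofReal (c / K) ≤ X.hB1 := by
  have hE' : (0 : ℝ) < Fintype.card X.E := by exact_mod_cast hE0
  apply hB1_ge
  · positivity
  intro n hn a ha
  obtain ⟨b, hb⟩ := hp n a
  obtain ⟨R, hR⟩ : ∃ R : ℝ, R = normDelta1 a := ⟨_, rfl⟩
  rw [← hR] at hb ⊢
  obtain ⟨G, hG⟩ : ∃ G : ℝ, G = ∑ e, hamming (a.1 e) ((delta0 b).1 e) := ⟨_, rfl⟩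
  rw [← hG] at hb
  have hGpos : 0 < G := by
    have h1 : ∃ e, a.1 e ≠ (delta0 b).1 e := by
      by_contra hcon
      push Not at hcon
      exact ha b (Subtype.ext (funext hcon))
    obtain ⟨e, he⟩ := h1
    have h2 : 0 < hamming (a.1 e) ((delta0 b).1 e) := lt_of_le_of_ne (hamming_nonneg _ _)
      (fun h => he (hamming_eq_zero hn _ _ h.symm))
    have h3 : hamming (a.1 e) ((delta0 b).1 e) ≤ G := by
      rw [hG]
      exact Finset.single_le_sum (f := fun e => hamming (a.1 e) ((delta0 b).1 e))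
        (fun _ _ => hamming_nonneg _ _) (Finset.mem_univ e)
    linarith
  have hRpos : 0 < R := by
    have : 0 < (Fintype.card X.E : ℝ) * R := lt_of_lt_of_le (by positivity) hb
    exact pos_of_mul_pos_right this hE'.le
  refine ⟨hRpos, ?_⟩
  have h1 : distB1 a ≤ dist1 a (delta0 b) := distB1_le a b
  have h2 : (Fintype.card X.E : ℝ) * dist1 a (delta0 b) ≤ K * G := by
    unfold dist1
    rw [hG, Finset.mul_sum, Finset.mul_sum]
    refine Finset.sum_le_sum (fun e _ => ?_)
    have h3 := mu1_upper X K hcmp hpos e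
    have h4 := hamming_nonneg (a.1 e) ((delta0 b).1 e)
    calc (Fintype.card X.E : ℝ) * (X.mu1 e * hamming (a.1 e) ((delta0 b).1 e))
        = (Fintype.card X.E * X.mu1 e) * hamming (a.1 e) ((delta0 b).1 e) := by ring
      _ ≤ _ := mul_le_mul_of_nonneg_right h3 h4
  have h3 : (Fintype.card X.E : ℝ) * (c * distB1 a) ≤ Fintype.card X.E * (K * R) := by
    calc (Fintype.card X.E : ℝ) * (c * distB1 a) = c * (Fintype.card X.E * distB1 a) := by ring
      _ ≤ c * (Fintype.card X.E * dist1 a (delta0 b)) :=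
          mul_le_mul_of_nonneg_left (mul_le_mul_of_nonneg_left h1 hE'.le) hc.le
      _ ≤ c * (K * G) := mul_le_mul_of_nonneg_left h2 hc.le
      _ = K * (c * G) := by ring
      _ ≤ K * (Fintype.card X.E * R) := mul_le_mul_of_nonneg_left hb hKpos.le
      _ = _ := by ring
  have h4 := le_of_mul_le_mul_left h3 hE'
  rw [div_mul_eq_mul_div, div_le_iff₀ hKpos]
  linarith

end PolygonalComplex

end Pool.Agent.H57
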