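import Pool.Agent.helper57.PolyComplex

set_option autoImplicit false
set_option linter.unusedSectionVars false

namespace Pool.Agent.H57

open Finset

variable {n : ℕ}

lemma hamming_nonneg (s t : Equiv.Perm (Fin n)) : 0 ≤ hamming s t := by
  unfold hamming; positivity

lemma hamming_self (s : Equiv.Perm (Fin n)) : hamming s s = 0 := by
  unfold hamming; simp

lemma hamming_symm (s t : Equiv.Perm (Fin n)) : hamming s t = hamming t s := by
  unfold hamming
  congr 3
  ext j
  simp only [Finset.mem_filter, Finset.mem_univ, true_and]
  exact ne_comm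

lemma hamming_mul_left (g s t : Equiv.Perm (Fin n)) : hamming (g * s) (g * t) = hamming s t := by
  unfold hamming
  congr 3
  ext j
  simp

lemma hamming_mul_right (g s t : Equiv.Perm (Fin n)) : hamming (s * g) (t * g) = hamming s t := by
  unfold hamming
  congr 2
  apply Finset.card_bij (fun j _ => g j)
  · intro j hj
    simp only [Finset.mem_filter, Finset.mem_univ, true_and] at hj ⊢
    exact hj
  · intro a _ b _ h
    exact g.injective h
  · intro b hb
    simp only [Finset.mem_filter, Finset.mem_univ, true_and] at hb
    refine ⟨g⁻¹ b, ?_, ?_⟩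
    · simp only [Finset.mem_filter, Finset.mem_univ, true_and]
      simpa using hb
    · simp

lemma hamming_inv (s t : Equiv.Perm (Fin n)) : hamming s⁻¹ t⁻¹ = hamming s t := by
  have h1 := hamming_mul_left s s⁻¹ t⁻¹
  have h2 := hamming_mul_right t (s * s⁻¹) (s * t⁻¹)
  rw [← h1, ← h2]
  simp [mul_assoc]
  exact hamming_symm _ _

lemma hamming_triangle (s t u : Equiv.Perm (Fin n)) : hamming s u ≤ hamming s t + hamming t u := by
  unfold hamming
  rw [← add_div]
  apply div_le_div_of_nonneg_right _ (Nat.cast_nonneg n)
  have h : (univ.filter (fun j => s j ≠ u j)) ⊆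
      (univ.filter (fun j => s j ≠ t j)) ∪ (univ.filter (fun j => t j ≠ u j)) := by
    intro j hj
    simp only [Finset.mem_filter, Finset.mem_univ, true_and, Finset.mem_union] at *
    by_contra hcon
    push Not at hcon
    exact hj (hcon.1.trans hcon.2)
  have h2 := (Finset.card_le_card h).trans (Finset.card_union_le _ _)
  exact_mod_cast h2

lemma hamming_eq_zero (hn : 1 ≤ n) (s t : Equiv.Perm (Fin n)) (h : hamming s t = 0) : s = t := by
  unfold hamming at h
  have hn' : (n : ℝ) ≠ 0 := by positivity
  rw [div_eq_zero_iff] at h
  rcases h with h | h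
  · have h1 : (univ.filter (fun j => s j ≠ t j)).card = 0 := by exact_mod_cast h
    rw [Finset.card_eq_zero, Finset.filter_eq_empty_iff] at h1
    ext j
    have := h1 (Finset.mem_univ j)
    simp at this
    rw [this]
  · exact absurd h hn'

lemma hamming_one_mul_inv (s t : Equiv.Perm (Fin n)) : hamming (s * t⁻¹) 1 = hamming s t := by
  have := hamming_mul_right t (s * t⁻¹) 1
  rw [← this]
  simp

end Pool.Agent.H57
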