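import Pool.Agent.helper57.Cheeger
import Pool.Agent.helper57.H0

set_option autoImplicit false
set_option linter.unusedSectionVars false

namespace Pool.Agent.H57

open Finset PolygonalComplex

section main

variable {V κ : Type} [Fintype V] [DecidableEq V] [Fintype κ] [DecidableEq κ]

variable (p : κ → Equiv.Perm V) (L : ℕ) (hL : 0 < L)

lemma sum_grad {n : ℕ} (b : V → Equiv.Perm (Fin n)) :
    ∑ e : Dart V κ, hamming (b (dsrc p e)) (b (dsrc p (drev e)))
      = 4 * ∑ x, ∑ i, hamming (b x) (b (p i x)) := by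
  rw [sum_darts, Finset.mul_sum]
  refine Finset.sum_congr rfl (fun x _ => ?_)
  rw [Finset.mul_sum]
  refine Finset.sum_congr rfl (fun i _ => ?_)
  simp only [dsrc, drev, Bool.not_false, Bool.not_true, if_true, Bool.false_eq_true, if_false]
  rw [hamming_symm (b (p i x)) (b x)]
  ring

lemma cardE_real : ((Fintype.card (cplx p L hL).E : ℕ) : ℝ) = 4 * Fintype.card κ * Fintype.card V := by
  rw [card_E]; push_cast; ring

/-- lower bound of the zeroth Cheeger constant -/
lemma h0_bound (hN : 0 < Fintype.card V) (hκ : 0 < Fintype.card κ) (hnu : NearUnif p L) (C0 : ℝ)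
    (hC0 : ∀ x i, ∀ l ≤ L, Green p x l (p i x) ≤ C0) (lam : ℝ) (hlam : 0 < lam) (hlam1 : lam < 1)
    (hg : Gap p lam) :
    ENNReal.ofReal ((1 - lam) / (2 * (6 * (1 + 2 * C0)) ^ 2)) ≤ (cplx p L hL).hB0 := by
  have hN' : (0 : ℝ) < Fintype.card V := by exact_mod_cast hN
  have hD : (0 : ℝ) < Fintype.card κ := by exact_mod_cast hκ
  obtain ⟨x0⟩ : Nonempty V := Fintype.card_pos_iff.mp hN
  obtain ⟨i0⟩ : Nonempty κ := Fintype.card_pos_iff.mp hκ
  have hC0' : 0 ≤ C0 := le_trans (by simp [Green]) (hC0 x0 i0 0 (Nat.zero_le _))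
  refine h0_general (cplx p L hL) (6 * (1 + 2 * C0)) (by positivity)
    (fun e e' => wt1_compare p L hL hN hκ hnu C0 hC0 e e')
    (fun e => wt1_pos p L hL hN hκ hnu C0 hC0 e) (x0, i0, false, false)
    (4 * Fintype.card κ) (by positivity) (fun v => degree_cplx p L hL v)
    (by rw [cardE_real]; push_cast; rfl) hN (1 - lam) (by linarith) ?_
  intro n b
  change V → Equiv.Perm (Fin n) at b
  have h5 := sum_grad p b
  have h6 := poincare_perm p hκ hN lam hlam hg b
  change (1 - lam) * ((4 * Fintype.card κ : ℕ) : ℝ) * ∑ x : V, ∑ y : V, hamming (b x) (b y)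
    ≤ (Fintype.card V : ℝ) * ∑ e : Dart V κ, hamming (b (dsrc p e)) (b (dsrc p (drev e)))
  rw [h5]
  push_cast
  calc (1 - lam) * (4 * (Fintype.card κ : ℝ)) * ∑ x : V, ∑ y : V, hamming (b x) (b y)
      = 4 * ((Fintype.card κ : ℝ) * (1 - lam) * ∑ x : V, ∑ y : V, hamming (b x) (b y)) := by ring
    _ ≤ 4 * ((Fintype.card V : ℝ) * ∑ x, ∑ i, hamming (b x) (b (p i x))) := by linarith
    _ = (Fintype.card V : ℝ) * (4 * ∑ x, ∑ i, hamming (b x) (b (p i x))) := by ring

lemma hol_fpath {G : Type} [Group G] (t : Bool) (α : Dart V κ → G) (x : V) (A : List κ) :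
    ((fpath p t x A).map α).prod = hol p (fun x i => α (x, i, t, false)) x A := by
  induction A generalizing x with
  | nil => simp [fpath, hol]
  | cons i A ih => simp [fpath, hol, ih]

lemma hol_bpath {G : Type} [Group G] (t : Bool) (α : Dart V κ → G)
    (hα : ∀ e, α (drev e) = (α e)⁻¹) (x : V) (A : List κ) :
    ((((fpath p t x A).map drev).reverse).map α).prod
      = (hol p (fun x i => α (x, i, t, false)) x A)⁻¹ := by
  rw [← hol_fpath, List.prod_inv_reverse]
  simp only [List.map_reverse, List.map_map]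
  congr 2
  apply List.map_congr_left
  intro e _
  exact hα e

lemma hol_cpath {G : Type} [Group G] (α : Dart V κ → G)
    (hα : ∀ e, α (drev e) = (α e)⁻¹) (r : V) (A B : List κ) :
    ((cpath p r A B).map α).prod
      = hol p (fun x i => α (x, i, false, false)) r A
        * (hol p (fun x i => α (x, i, true, false)) r B)⁻¹ := by
  unfold cpath
  rw [List.map_append, List.prod_append, hol_fpath, hol_bpath p true α hα]

lemma sum_W_succ (l : ℕ) (x u : V) (f : List κ → ℝ) :
    ∑ A ∈ W p (l + 1) x u, f A = ∑ i, ∑ A ∈ W p l (p i x) u, f (i :: A) := by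
  unfold W
  rw [Finset.sum_filter, sum_words_succ]
  refine Finset.sum_congr rfl (fun i _ => ?_)
  rw [Finset.sum_filter]
  rfl

variable {n : ℕ} (a b : V → κ → Equiv.Perm (Fin n))

lemma sum_FS_T3 :
    ∑ q ∈ FS p L L, hamming (hol p a q.1 q.2.1) (hol p b q.1 q.2.2) = T3 p L a b :=
  sum_FS_C p L L (fun r A B => hamming (hol p a r A) (hol p b r B))

lemma sum_FS_T1 :
    ∑ q ∈ FS p (L + 1) L, hamming (hol p a q.1 q.2.1) (hol p b q.1 q.2.2) = T1 p L a b := by
  rw [sum_FS_C p (L + 1) L (fun r A B => hamming (hol p a r A) (hol p b r B))]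
  unfold T1
  refine Finset.sum_congr rfl (fun x _ => ?_)
  rw [Finset.sum_comm]
  refine Finset.sum_congr rfl (fun u _ => ?_)
  rw [sum_W_succ]
  rfl

lemma sum_FS_T2 :
    ∑ q ∈ FS p L (L + 1), hamming (hol p a q.1 q.2.1) (hol p b q.1 q.2.2) = T2 p L a b := by
  rw [sum_FS_C p L (L + 1) (fun r A B => hamming (hol p a r A) (hol p b r B))]
  unfold T2
  refine Finset.sum_congr rfl (fun x _ => ?_)
  rw [Finset.sum_comm]
  refine Finset.sum_congr rfl (fun u _ => ?_)
  conv_rhs => rw [Finset.sum_comm]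
  refine Finset.sum_congr rfl (fun A _ => ?_)
  rw [sum_W_succ]
  rfl

lemma sum_faces (α : (cplx p L hL).C1 n) :
    ∑ f, hamming (delta1 α f) 1
      = T3 p L (fun x i => α.1 (x, i, false, false)) (fun x i => α.1 (x, i, true, false))
        + T1 p L (fun x i => α.1 (x, i, false, false)) (fun x i => α.1 (x, i, true, false))
        + T2 p L (fun x i => α.1 (x, i, false, false)) (fun x i => α.1 (x, i, true, false)) := by
  obtain ⟨α, hα⟩ := α
  change Dart V κ → Equiv.Perm (Fin n) at α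
  have h1 : ∀ f : (cplx p L hL).F, hamming (delta1 (X := cplx p L hL) ⟨α, hα⟩ f) 1
      = hamming (hol p (fun x i => α (x, i, false, false)) f.2.1.1 f.2.1.2.1)
        (hol p (fun x i => α (x, i, true, false)) f.2.1.1 f.2.1.2.2) := by
    intro f
    have h2 : delta1 (X := cplx p L hL) ⟨α, hα⟩ f
        = ((cpath p f.2.1.1 f.2.1.2.1 f.2.1.2.2).map α).prod := rfl
    rw [h2, hol_cpath p α hα, hamming_one_mul_inv]
  have h3 : ∑ f : (cplx p L hL).F, hamming (delta1 (X := cplx p L hL) ⟨α, hα⟩ f) 1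
      = ∑ c : Fin 3, ∑ q : {q : V × List κ × List κ // q ∈ FS p (la L c) (lb L c)},
        hamming (hol p (fun x i => α (x, i, false, false)) q.1.1 q.1.2.1)
          (hol p (fun x i => α (x, i, true, false)) q.1.1 q.1.2.2) := by
    rw [← Fintype.sum_sigma (fun f : (Σ c : Fin 3, {q : V × List κ × List κ // q ∈ FS p (la L c) (lb L c)}) =>
      hamming (hol p (fun x i => α (x, i, false, false)) f.2.1.1 f.2.1.2.1)
        (hol p (fun x i => α (x, i, true, false)) f.2.1.1 f.2.1.2.2))]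
    exact Finset.sum_congr rfl (fun f _ => h1 f)
  rw [h3]
  have h4 : ∀ c : Fin 3, ∑ q : {q : V × List κ × List κ // q ∈ FS p (la L c) (lb L c)},
        hamming (hol p (fun x i => α (x, i, false, false)) q.1.1 q.1.2.1)
          (hol p (fun x i => α (x, i, true, false)) q.1.1 q.1.2.2)
      = ∑ q ∈ FS p (la L c) (lb L c), hamming (hol p (fun x i => α (x, i, false, false)) q.1 q.2.1)
          (hol p (fun x i => α (x, i, true, false)) q.1 q.2.2) := by
    intro c
    exact Finset.sum_coe_sort (FS p (la L c) (lb L c))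
      (fun q => hamming (hol p (fun x i => α (x, i, false, false)) q.1 q.2.1)
          (hol p (fun x i => α (x, i, true, false)) q.1 q.2.2))
  simp_rw [h4]
  rw [Fin.sum_univ_three]
  rw [← sum_FS_T3, ← sum_FS_T1, ← sum_FS_T2]
  rfl

lemma card_FS_le (hN : 0 < Fintype.card V) (hκ : 0 < Fintype.card κ) (hnu : NearUnif p L)
    (l m : ℕ) (hm : m = L ∨ m = L + 1) :
    ((FS p l m).card : ℝ) ≤ 3 / 2 * ((Fintype.card κ : ℝ) ^ l * (Fintype.card κ : ℝ) ^ m) := by
  have hN' : (0 : ℝ) < Fintype.card V := by exact_mod_cast hN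
  have h1 : ((FS p l m).card : ℝ) = ∑ r, ∑ A ∈ words κ l, ((W p m r (walk p r A)).card : ℝ) := by
    have := sum_FS_A p l m (fun _ _ _ => 1)
    simp only [Finset.sum_const, nsmul_eq_mul, mul_one] at this
    exact this
  rw [h1]
  have h2 : ∑ r, ∑ A ∈ words κ l, ((W p m r (walk p r A)).card : ℝ)
      ≤ ∑ r : V, ∑ A ∈ words κ l, 3 * (Fintype.card κ : ℝ) ^ m / (2 * Fintype.card V) :=
    Finset.sum_le_sum (fun r _ => Finset.sum_le_sum (fun A _ => (hnu m hm _ _).2))
  refine le_trans h2 (le_of_eq ?_)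
  simp only [Finset.sum_const, card_words, nsmul_eq_mul, Finset.card_univ]
  push_cast
  field_simp

lemma card_F_le (hN : 0 < Fintype.card V) (hκ : 0 < Fintype.card κ) (hnu : NearUnif p L) :
    (Fintype.card (cplx p L hL).F : ℝ) ≤ 3 / 2 * ((Fintype.card κ : ℝ) ^ L) ^ 2 * (1 + 2 * Fintype.card κ) := by
  have h1 : Fintype.card (cplx p L hL).F = ∑ c : Fin 3, (FS p (la L c) (lb L c)).card := by
    have : Fintype.card (cplx p L hL).F
        = Fintype.card (Σ c : Fin 3, {q : V × List κ × List κ // q ∈ FS p (la L c) (lb L c)}) := rfl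
    rw [this, Fintype.card_sigma]
    refine Finset.sum_congr rfl (fun c _ => ?_)
    exact Fintype.card_coe _
  rw [h1]
  push_cast
  refine le_trans (Finset.sum_le_sum (fun c _ => card_FS_le p L hN hκ hnu (la L c) (lb L c) (lb_cases L c))) ?_
  rw [Fin.sum_univ_three]
  have e0 : la L 0 = L := rfl
  have e1 : la L 1 = L + 1 := rfl
  have e2 : la L 2 = L := rfl
  have f0 : lb L 0 = L := rfl
  have f1 : lb L 1 = L := rfl
  have f2 : lb L 2 = L + 1 := rfl
  rw [e0, e1, e2, f0, f1, f2]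
  apply le_of_eq
  ring

lemma T1_nonneg : 0 ≤ T1 p L a b := by
  unfold T1
  exact Finset.sum_nonneg (fun _ _ => Finset.sum_nonneg (fun _ _ => Finset.sum_nonneg (fun _ _ =>
    Finset.sum_nonneg (fun _ _ => Finset.sum_nonneg (fun _ _ => hamming_nonneg _ _)))))

lemma T2_nonneg : 0 ≤ T2 p L a b := by
  unfold T2
  exact Finset.sum_nonneg (fun _ _ => Finset.sum_nonneg (fun _ _ => Finset.sum_nonneg (fun _ _ =>
    Finset.sum_nonneg (fun _ _ => Finset.sum_nonneg (fun _ _ => hamming_nonneg _ _)))))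

lemma T3_nonneg : 0 ≤ T3 p L a b := by
  unfold T3
  exact Finset.sum_nonneg (fun _ _ => Finset.sum_nonneg (fun _ _ =>
    Finset.sum_nonneg (fun _ _ => Finset.sum_nonneg (fun _ _ => hamming_nonneg _ _))))

lemma sum_edges (α : (cplx p L hL).C1 n) (β : V → Equiv.Perm (Fin n)) :
    ∑ e, hamming (α.1 e) ((delta0 (X := cplx p L hL) β).1 e)
      = 2 * ∑ x, ∑ i, (hamming (α.1 (x, i, false, false)) ((β x)⁻¹ * β (p i x))
        + hamming (α.1 (x, i, true, false)) ((β x)⁻¹ * β (p i x))) := by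
  obtain ⟨α, hα⟩ := α
  change Dart V κ → Equiv.Perm (Fin n) at α
  have h1 : ∑ e, hamming (α e) ((delta0 (X := cplx p L hL) β).1 e)
      = ∑ e : Dart V κ, hamming (α e) ((β (dsrc p e))⁻¹ * β (dsrc p (drev e))) := rfl
  change ∑ e, hamming (α e) ((delta0 (X := cplx p L hL) β).1 e) = _
  rw [h1, sum_darts, Finset.mul_sum]
  refine Finset.sum_congr rfl (fun x _ => ?_)
  rw [Finset.mul_sum]
  refine Finset.sum_congr rfl (fun i _ => ?_)
  have h2 : ∀ t, α (x, i, t, true) = (α (x, i, t, false))⁻¹ := fun t => hα (x, i, t, false)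
  simp only [dsrc, drev, Bool.not_false, Bool.not_true, if_true, Bool.false_eq_true, if_false, h2]
  have h3 : (β (p i x))⁻¹ * β x = ((β x)⁻¹ * β (p i x))⁻¹ := by group
  rw [h3, hamming_inv, hamming_inv]
  ring

/-- lower bound of the first Cheeger constant -/
lemma h1_bound (hN : 0 < Fintype.card V) (hκ : 0 < Fintype.card κ) (hnu : NearUnif p L) (C0 : ℝ)
    (hC0 : ∀ x i, ∀ l ≤ L, Green p x l (p i x) ≤ C0) :
    ENNReal.ofReal ((1 / (6 * (1 + 2 * Fintype.card κ))) / (6 * (1 + 2 * C0))) ≤ (cplx p L hL).hB1 := by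
  have hN' : (0 : ℝ) < Fintype.card V := by exact_mod_cast hN
  have hD : (0 : ℝ) < Fintype.card κ := by exact_mod_cast hκ
  have hD1 : (1 : ℝ) ≤ Fintype.card κ := by exact_mod_cast hκ
  have hVne : Nonempty V := Fintype.card_pos_iff.mp hN
  obtain ⟨x0⟩ := id hVne
  obtain ⟨i0⟩ : Nonempty κ := Fintype.card_pos_iff.mp hκ
  have hC0' : 0 ≤ C0 := le_trans (by simp [Green]) (hC0 x0 i0 0 (Nat.zero_le _))
  refine h1_general (cplx p L hL) (6 * (1 + 2 * C0)) (by positivity)
    (fun e e' => wt1_compare p L hL hN hκ hnu C0 hC0 e e')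
    (fun e => wt1_pos p L hL hN hκ hnu C0 hC0 e) (by rw [card_E]; positivity)
    (1 / (6 * (1 + 2 * Fintype.card κ))) (by positivity) ?_
  intro n α
  obtain ⟨c1, hc1⟩ : ∃ c1 : ℝ, c1 = (Fintype.card κ : ℝ) ^ L / (2 * Fintype.card V) := ⟨_, rfl⟩
  have hc1pos : 0 < c1 := by rw [hc1]; positivity
  obtain ⟨β, hβ⟩ := gauge p L (fun x i => α.1 (x, i, false, false)) (fun x i => α.1 (x, i, true, false))
    c1 hc1pos (fun x u => by rw [hc1]; exact (hnu L (Or.inl rfl) x u).1)
  refine ⟨β, ?_⟩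
  rw [sum_edges, cardE_real]
  have hF := sum_faces p L hL α
  have hFc := card_F_le p L hL hN hκ hnu
  have t1 := T1_nonneg p L (fun x i => α.1 (x, i, false, false)) (fun x i => α.1 (x, i, true, false))
  have t2 := T2_nonneg p L (fun x i => α.1 (x, i, false, false)) (fun x i => α.1 (x, i, true, false))
  have t3 := T3_nonneg p L (fun x i => α.1 (x, i, false, false)) (fun x i => α.1 (x, i, true, false))
  revert hF t1 t2 t3 hβ
  generalize T1 p L (fun x i => α.1 (x, i, false, false)) (fun x i => α.1 (x, i, true, false)) = τ1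
  generalize T2 p L (fun x i => α.1 (x, i, false, false)) (fun x i => α.1 (x, i, true, false)) = τ2
  generalize T3 p L (fun x i => α.1 (x, i, false, false)) (fun x i => α.1 (x, i, true, false)) = τ3
  generalize (∑ x, ∑ i, (hamming (α.1 (x, i, false, false)) ((β x)⁻¹ * β (p i x))
        + hamming (α.1 (x, i, true, false)) ((β x)⁻¹ * β (p i x)))) = Z
  intro hβ hF t1 t2 t3
  -- the norm of the coboundary
  obtain ⟨R, hR⟩ : ∃ R : ℝ, R = normDelta1 α := ⟨_, rfl⟩
  rw [← hR]
  have hR0 : 0 ≤ R := by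
    rw [hR]
    unfold normDelta1
    exact div_nonneg (Finset.sum_nonneg (fun _ _ => hamming_nonneg _ _)) (Nat.cast_nonneg _)
  have hsum : τ3 + τ1 + τ2 = Fintype.card (cplx p L hL).F * R := by
    rw [hR]
    unfold normDelta1
    rw [hF]
    by_cases h0 : (Fintype.card (cplx p L hL).F : ℝ) = 0
    · have hemp : IsEmpty (cplx p L hL).F := by
        rw [← Fintype.card_eq_zero_iff]; exact_mod_cast h0
      have : ∑ f : (cplx p L hL).F, hamming (delta1 α f) 1 = 0 := by
        rw [Finset.univ_eq_empty, Finset.sum_empty]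
      rw [hF] at this
      rw [this]; simp
    · field_simp
  have e1 : 2 * Fintype.card κ * τ3 + τ1 + τ2 ≤ 2 * Fintype.card κ * (τ3 + τ1 + τ2) := by
    nlinarith
  have e2 : (Fintype.card V : ℝ) * Z ≤ 12 * Fintype.card κ * (1 + 2 * Fintype.card κ) * (Fintype.card V : ℝ) ^ 2 * R := by
    refine le_trans hβ ?_
    rw [div_le_iff₀ (by positivity)]
    refine le_trans e1 ?_
    rw [hsum, hc1]
    have e3 : (Fintype.card (cplx p L hL).F : ℝ) * R
        ≤ (3 / 2 * ((Fintype.card κ : ℝ) ^ L) ^ 2 * (1 + 2 * Fintype.card κ)) * R :=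
      mul_le_mul_of_nonneg_right hFc hR0
    calc 2 * (Fintype.card κ : ℝ) * (Fintype.card (cplx p L hL).F * R)
        ≤ 2 * (Fintype.card κ : ℝ) * ((3 / 2 * ((Fintype.card κ : ℝ) ^ L) ^ 2 * (1 + 2 * Fintype.card κ)) * R) :=
          mul_le_mul_of_nonneg_left e3 (by positivity)
      _ = _ := by
          field_simp
          ring
  have e4 : Z ≤ 12 * Fintype.card κ * (1 + 2 * Fintype.card κ) * Fintype.card V * R := by
    have : (Fintype.card V : ℝ) * Z ≤ Fintype.card V * (12 * Fintype.card κ * (1 + 2 * Fintype.card κ) * Fintype.card V * R) := by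
      calc _ ≤ _ := e2
        _ = _ := by ring
    exact le_of_mul_le_mul_left this hN'
  rw [div_mul_eq_mul_div, one_mul, div_le_iff₀ (by positivity)]
  calc 2 * Z ≤ 2 * (12 * Fintype.card κ * (1 + 2 * Fintype.card κ) * Fintype.card V * R) := by linarith
    _ = _ := by ring

end main

end Pool.Agent.H57
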