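import Mathlib

set_option autoImplicit false

namespace Pool.Agent.H57

open Finset

/-- A finite polygonal complex: a finite graph (in the sense of Serre: `E` is the set of oriented
edges, `rev` reverses the orientation, `src` is the initial vertex, so the terminal vertex of `e` is
`src (rev e)`), together with finitely many polygons `F`, the polygon `f` being attached along the
cyclically reduced closed path `path f` of positive length. -/
structure PolygonalComplex where
  V : Type
  E : Type
  F : Type
  [fintypeV : Fintype V]
  [decEqV : DecidableEq V]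
  [fintypeE : Fintype E]
  [decEqE : DecidableEq E]
  [fintypeF : Fintype F]
  src : E → V
  rev : E → E
  rev_rev : ∀ e, rev (rev e) = e
  rev_ne : ∀ e, rev e ≠ e
  path : F → List E
  path_ne_nil : ∀ f, path f ≠ []
  /-- consecutive edges of `path f` are composable, and there is no backtracking -/
  path_chain : ∀ f, (path f).IsChain (fun e e' => src (rev e) = src e' ∧ e' ≠ rev e)
  /-- the same holds for the last and the first edge of `path f` -/
  path_closed : ∀ f, ∀ e ∈ (path f).getLast?, ∀ e' ∈ (path f).head?,
    src (rev e) = src e' ∧ e' ≠ rev e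

attribute [instance] PolygonalComplex.fintypeV PolygonalComplex.decEqV PolygonalComplex.fintypeE
  PolygonalComplex.decEqE PolygonalComplex.fintypeF

/-- normalized Hamming distance on `Sym(n)` -/
noncomputable def hamming {n : ℕ} (s t : Equiv.Perm (Fin n)) : ℝ :=
  ((univ.filter (fun j => s j ≠ t j)).card : ℝ) / n

namespace PolygonalComplex

variable (X : PolygonalComplex)

/-- the complex is connected -/
def Connected : Prop :=
  Nonempty X.V ∧ ∀ x y : X.V, Relation.ReflTransGen (fun a b => ∃ e, X.src e = a ∧ X.src (X.rev e) = b) x y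

/-- number of edges at a vertex (a loop counts twice) -/
def degree (v : X.V) : ℕ := (univ.filter (fun e => X.src e = v)).card

/-- number of polygons containing the (unoriented) edge `{e, rev e}` -/
def wt1 (e : X.E) : ℕ := (univ.filter (fun f => e ∈ X.path f ∨ X.rev e ∈ X.path f)).card

/-- the probability distribution on oriented edges descending from the uniform distribution on
polygons: proportional to the number of polygons containing the edge -/
noncomputable def mu1 (e : X.E) : ℝ := (X.wt1 e : ℝ) / ∑ e', (X.wt1 e' : ℝ)

/-- the sum of the `mu1`-weights of the edges containing `v` -/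
noncomputable def wt0 (v : X.V) : ℝ :=
  ∑ e ∈ univ.filter (fun e => X.src e = v ∨ X.src (X.rev e) = v), X.mu1 e

/-- the probability distribution on vertices descending from `mu1` -/
noncomputable def mu0 (v : X.V) : ℝ := X.wt0 v / ∑ v', X.wt0 v'

/-- `0`-cochains with coefficients in `Sym(n)` -/
abbrev C0 (n : ℕ) := X.V → Equiv.Perm (Fin n)

/-- `1`-cochains with coefficients in `Sym(n)` -/
def C1 (n : ℕ) := {a : X.E → Equiv.Perm (Fin n) // ∀ e, a (X.rev e) = (a e)⁻¹}

variable {X}

/-- coboundary of a `0`-cochain -/
def delta0 {n : ℕ} (b : X.C0 n) : X.C1 n :=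
  ⟨fun e => (b (X.src e))⁻¹ * b (X.src (X.rev e)), by
    intro e; simp [X.rev_rev]⟩

/-- coboundary of a `1`-cochain, on the polygon `f` with the orientation given by `path f` -/
def delta1 {n : ℕ} (a : X.C1 n) (f : X.F) : Equiv.Perm (Fin n) := ((X.path f).map a.1).prod

/-- norm of a `1`-cochain -/
noncomputable def norm1 {n : ℕ} (a : X.C1 n) : ℝ := ∑ e, X.mu1 e * hamming (a.1 e) 1

/-- norm of the coboundary of a `1`-cochain: the average over the polygons (uniform distribution)
of the Hamming distance of the holonomy to the identity; it does not depend on the choice of the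
orientations of the polygons -/
noncomputable def normDelta1 {n : ℕ} (a : X.C1 n) : ℝ :=
  (∑ f, hamming (delta1 a f) 1) / Fintype.card X.F

/-- distance of `0`-cochains -/
noncomputable def dist0 {n : ℕ} (b b' : X.C0 n) : ℝ := ∑ v, X.mu0 v * hamming (b v) (b' v)

/-- distance of `1`-cochains -/
noncomputable def dist1 {n : ℕ} (a a' : X.C1 n) : ℝ := ∑ e, X.mu1 e * hamming (a.1 e) (a'.1 e)

/-- distance to the constant `0`-cochains -/
noncomputable def distB0 {n : ℕ} (b : X.C0 n) : ℝ := ⨅ s : Equiv.Perm (Fin n), dist0 b (fun _ => s)

/-- distance to the `1`-coboundaries -/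
noncomputable def distB1 {n : ℕ} (a : X.C1 n) : ℝ := ⨅ b : X.C0 n, dist1 a (delta0 b)

variable (X)

/-- the Cheeger constant `h^B_0(X, Sym)` -/
noncomputable def hB0 : ENNReal :=
  ⨅ (n : ℕ) (_ : 1 ≤ n) (b : X.C0 n) (_ : ∀ s : Equiv.Perm (Fin n), b ≠ fun _ => s),
    ENNReal.ofReal (norm1 (delta0 b)) / ENNReal.ofReal (distB0 b)

/-- the Cheeger constant `h^B_1(X, Sym)` -/
noncomputable def hB1 : ENNReal :=
  ⨅ (n : ℕ) (_ : 1 ≤ n) (a : X.C1 n) (_ : ∀ b : X.C0 n, a ≠ delta0 b),
    ENNReal.ofReal (normDelta1 a) / ENNReal.ofReal (distB1 a)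

end PolygonalComplex

end Pool.Agent.H57
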