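import Pool.Agent.helper57.Cplx

set_option autoImplicit false
set_option linter.unusedSectionVars false

namespace Pool.Agent.H57

open Finset

section weights

variable {V κ : Type} [Fintype V] [DecidableEq V] [Fintype κ] [DecidableEq κ]

lemma mem_fpath_iff (p : κ → Equiv.Perm V) (t : Bool) (r : V) (A : List κ) (x : V) (i : κ) :
    (x, i, t, false) ∈ fpath p t r A ↔ 0 < occ p x i r A := by
  induction A generalizing r with
  | nil => simp [fpath, occ]
  | cons j A ih =>
    simp only [fpath, List.mem_cons, occ, ih, Prod.mk.injEq]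
    by_cases h : r = x ∧ j = i
    · simp [h]
    · have h' : ¬ (x = r ∧ i = j) := fun hh => h ⟨hh.1.symm, hh.2.symm⟩
      simp only [h, if_false, zero_add]
      constructor
      · rintro (⟨h1, h2, -⟩ | h1)
        · exact absurd ⟨h1, h2⟩ h'
        · exact h1
      · intro h1; exact Or.inr h1

lemma mem_cpath_iff (p : κ → Equiv.Perm V) (r : V) (A B : List κ) (x : V) (i : κ) (t o : Bool) :
    ((x, i, t, o) ∈ cpath p r A B ∨ drev (x, i, t, o) ∈ cpath p r A B) ↔
      0 < occ p x i r (if t then B else A) := by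
  have key : ∀ (e : Dart V κ), e ∈ cpath p r A B ↔ (e ∈ fpath p false r A ∨ drev e ∈ fpath p true r B) := by
    intro e
    unfold cpath
    rw [List.mem_append, List.mem_reverse, List.mem_map]
    constructor
    · rintro (h | ⟨e', h, rfl⟩)
      · exact Or.inl h
      · right; rw [drev_drev]; exact h
    · rintro (h | h)
      · exact Or.inl h
      · exact Or.inr ⟨drev e, h, drev_drev e⟩
  rw [key, key, drev_drev]
  have kf : ∀ (t' : Bool) (C : List κ), ((x, i, t, o) ∈ fpath p t' r C ∨ drev (x, i, t, o) ∈ fpath p t' r C)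
      ↔ (t = t' ∧ 0 < occ p x i r C) := by
    intro t' C
    constructor
    · rintro (h | h)
      · have h1 := fpath_mem p t' r C _ h
        simp only at h1
        obtain ⟨rfl, rfl⟩ := h1
        exact ⟨rfl, (mem_fpath_iff p _ r C x i).mp h⟩
      · have h1 := fpath_mem p t' r C _ h
        simp only [drev] at h1 h
        obtain ⟨rfl, h2⟩ := h1
        rw [h2] at h
        exact ⟨rfl, (mem_fpath_iff p _ r C x i).mp h⟩
    · rintro ⟨rfl, h⟩
      have h1 := (mem_fpath_iff p t r C x i).mpr h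
      cases o
      · exact Or.inl h1
      · exact Or.inr h1
  constructor
  · rintro ((h | h) | (h | h))
    · have := (kf false A).mp (Or.inl h); rw [this.1]; exact this.2
    · have := (kf true B).mp (Or.inr h); rw [this.1]; exact this.2
    · have := (kf false A).mp (Or.inr h); rw [this.1]; exact this.2
    · have := (kf true B).mp (Or.inl h); rw [this.1]; exact this.2
  · intro h
    cases t
    · rcases (kf false A).mpr ⟨rfl, h⟩ with h | h
      · exact Or.inl (Or.inl h)
      · exact Or.inr (Or.inl h)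
    · rcases (kf true B).mpr ⟨rfl, h⟩ with h | h
      · exact Or.inr (Or.inr h)
      · exact Or.inl (Or.inr h)

lemma sum_FS_A (p : κ → Equiv.Perm V) (l m : ℕ) (f : V → List κ → List κ → ℝ) :
    ∑ q ∈ FS p l m, f q.1 q.2.1 q.2.2
      = ∑ r, ∑ A ∈ words κ l, ∑ B ∈ W p m r (walk p r A), f r A B := by
  unfold FS W
  rw [Finset.sum_filter, Finset.sum_product]
  refine Finset.sum_congr rfl (fun r _ => ?_)
  rw [Finset.sum_product]
  refine Finset.sum_congr rfl (fun A _ => ?_)
  rw [Finset.sum_filter]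
  refine Finset.sum_congr rfl (fun B _ => ?_)
  simp only [eq_comm]

lemma sum_FS_B (p : κ → Equiv.Perm V) (l m : ℕ) (f : V → List κ → List κ → ℝ) :
    ∑ q ∈ FS p l m, f q.1 q.2.1 q.2.2
      = ∑ r, ∑ B ∈ words κ m, ∑ A ∈ W p l r (walk p r B), f r A B := by
  unfold FS W
  rw [Finset.sum_filter, Finset.sum_product]
  refine Finset.sum_congr rfl (fun r _ => ?_)
  rw [Finset.sum_product, Finset.sum_comm]
  refine Finset.sum_congr rfl (fun B _ => ?_)
  rw [Finset.sum_filter]

lemma sum_FS_C (p : κ → Equiv.Perm V) (l m : ℕ) (f : V → List κ → List κ → ℝ) :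
    ∑ q ∈ FS p l m, f q.1 q.2.1 q.2.2
      = ∑ r, ∑ u, ∑ A ∈ W p l r u, ∑ B ∈ W p m r u, f r A B := by
  rw [sum_FS_A]
  refine Finset.sum_congr rfl (fun r _ => ?_)
  have h : ∀ u, ∑ A ∈ W p l r u, ∑ B ∈ W p m r u, f r A B
      = ∑ A ∈ words κ l, if walk p r A = u then ∑ B ∈ W p m r u, f r A B else 0 := by
    intro u
    unfold W
    rw [Finset.sum_filter]
  simp_rw [h]
  rw [Finset.sum_comm]
  refine Finset.sum_congr rfl (fun A _ => ?_)
  simp

/-- total weight of the exponents -/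
noncomputable def Q (D : ℝ) (L : ℕ) : ℝ := ∑ c : Fin 3, D ^ (la L c) * D ^ (lb L c)

variable (p : κ → Equiv.Perm V) (L : ℕ) (hL : 0 < L)

/-- near-uniform distribution of the end point of the words of length `L` and `L+1` -/
def NearUnif (p : κ → Equiv.Perm V) (L : ℕ) : Prop :=
  ∀ m, (m = L ∨ m = L + 1) → ∀ x y : V,
    (Fintype.card κ : ℝ) ^ m / (2 * Fintype.card V) ≤ ((W p m x y).card : ℝ) ∧
    ((W p m x y).card : ℝ) ≤ 3 * (Fintype.card κ : ℝ) ^ m / (2 * Fintype.card V)

lemma la_cases (c : Fin 3) : la L c = L ∨ la L c = L + 1 := by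
  fin_cases c <;> simp [la]

lemma lb_cases (c : Fin 3) : lb L c = L ∨ lb L c = L + 1 := by
  fin_cases c <;> simp [lb]

/-- weight of an edge -/
lemma wt1_eq (e : Dart V κ) :
    ((cplx p L hL).wt1 e : ℝ) = ∑ c : Fin 3,
      if e.2.2.1 then ∑ r, ∑ B ∈ words κ (lb L c), (if 0 < occ p e.1 e.2.1 r B then
          ((W p (la L c) r (walk p r B)).card : ℝ) else 0)
      else ∑ r, ∑ A ∈ words κ (la L c), (if 0 < occ p e.1 e.2.1 r A then
          ((W p (lb L c) r (walk p r A)).card : ℝ) else 0) := by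
  obtain ⟨x, i, t, o⟩ := e
  have h0 : ((cplx p L hL).wt1 (x, i, t, o)) = (univ.filter (fun f : (cplx p L hL).F =>
      0 < occ p x i f.2.1.1 (if t then f.2.1.2.2 else f.2.1.2.1))).card := by
    unfold PolygonalComplex.wt1
    congr 1
    ext f
    simp only [Finset.mem_filter, Finset.mem_univ, true_and]
    exact mem_cpath_iff p f.2.1.1 f.2.1.2.1 f.2.1.2.2 x i t o
  rw [h0, Finset.card_filter]
  push_cast
  have h2 : ∑ f : (cplx p L hL).F, (if 0 < occ p x i f.2.1.1 (if t then f.2.1.2.2 else f.2.1.2.1) then (1 : ℝ) else 0)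
      = ∑ c : Fin 3, ∑ q : {q : V × List κ × List κ // q ∈ FS p (la L c) (lb L c)},
        (if 0 < occ p x i q.1.1 (if t then q.1.2.2 else q.1.2.1) then (1 : ℝ) else 0) :=
    Fintype.sum_sigma (fun f : (Σ c : Fin 3, {q : V × List κ × List κ // q ∈ FS p (la L c) (lb L c)}) =>
      (if 0 < occ p x i f.2.1.1 (if t then f.2.1.2.2 else f.2.1.2.1) then (1 : ℝ) else 0))
  rw [h2]
  refine Finset.sum_congr rfl (fun c _ => ?_)
  rw [Finset.sum_coe_sort (FS p (la L c) (lb L c))
    (fun q => if 0 < occ p x i q.1 (if t then q.2.2 else q.2.1) then (1 : ℝ) else 0)]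
  cases t
  · rw [sum_FS_A p _ _ (fun r A B => if 0 < occ p x i r (if false = true then B else A) then (1 : ℝ) else 0)]
    simp only [Bool.false_eq_true, if_false]
    refine Finset.sum_congr rfl (fun r _ => Finset.sum_congr rfl (fun A _ => ?_))
    split_ifs <;> simp
  · rw [sum_FS_B p _ _ (fun r A B => if 0 < occ p x i r (if true = true then B else A) then (1 : ℝ) else 0)]
    simp only [if_true]
    refine Finset.sum_congr rfl (fun r _ => Finset.sum_congr rfl (fun A _ => ?_))
    split_ifs <;> simp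


lemma wt1_lower (hN : 0 < Fintype.card V) (hκ : 0 < Fintype.card κ) (hnu : NearUnif p L) (C0 : ℝ)
    (hC0 : ∀ x i, ∀ l ≤ L, Green p x l (p i x) ≤ C0) (e : Dart V κ) :
    (L : ℝ) * Q (Fintype.card κ) L ≤ 2 * Fintype.card V * (Fintype.card κ * (1 + 2 * C0)) *
      ((cplx p L hL).wt1 e : ℝ) := by
  obtain ⟨x, i, t, o⟩ := e
  have hN' : (0 : ℝ) < Fintype.card V := by exact_mod_cast hN
  have hD : (0 : ℝ) < Fintype.card κ := by exact_mod_cast hκ
  have hC0' : 0 ≤ C0 := le_trans (by simp [Green]) (hC0 x i 0 (Nat.zero_le _))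
  rw [wt1_eq]
  unfold Q
  rw [Finset.mul_sum, Finset.mul_sum]
  refine Finset.sum_le_sum (fun c _ => ?_)
  -- common estimate
  have main : ∀ l m, (l = L ∨ l = L + 1) → (m = L ∨ m = L + 1) →
      (L : ℝ) * ((Fintype.card κ : ℝ) ^ l * (Fintype.card κ : ℝ) ^ m)
      ≤ 2 * Fintype.card V * (Fintype.card κ * (1 + 2 * C0)) *
        ∑ r, ∑ A ∈ words κ l, (if 0 < occ p x i r A then ((W p m r (walk p r A)).card : ℝ) else 0) := by
    intro l m hl hm
    have h1 := used_ge p hκ x i C0 L (hC0 x i) l (by omega)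
    have h2 : (Fintype.card κ : ℝ) ^ m / (2 * Fintype.card V) *
        ∑ r, ∑ A ∈ words κ l, (if 0 < occ p x i r A then (1 : ℝ) else 0)
        ≤ ∑ r, ∑ A ∈ words κ l, (if 0 < occ p x i r A then ((W p m r (walk p r A)).card : ℝ) else 0) := by
      rw [Finset.mul_sum]
      refine Finset.sum_le_sum (fun r _ => ?_)
      rw [Finset.mul_sum]
      refine Finset.sum_le_sum (fun A _ => ?_)
      split_ifs
      · rw [mul_one]; exact (hnu m hm _ _).1
      · simp
    have h3 : (L : ℝ) ≤ l := by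
      have : L ≤ l := by omega
      exact_mod_cast this
    have h4 : (L : ℝ) * (Fintype.card κ : ℝ) ^ l ≤ Fintype.card κ * (1 + 2 * C0) *
        ∑ r, ∑ A ∈ words κ l, (if 0 < occ p x i r A then (1 : ℝ) else 0) :=
      le_trans (mul_le_mul_of_nonneg_right h3 (by positivity)) h1
    calc (L : ℝ) * ((Fintype.card κ : ℝ) ^ l * (Fintype.card κ : ℝ) ^ m)
        = (L * (Fintype.card κ : ℝ) ^ l) * (Fintype.card κ : ℝ) ^ m := by ring
      _ ≤ (Fintype.card κ * (1 + 2 * C0) *
        ∑ r, ∑ A ∈ words κ l, (if 0 < occ p x i r A then (1 : ℝ) else 0)) * (Fintype.card κ : ℝ) ^ m :=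
          mul_le_mul_of_nonneg_right h4 (by positivity)
      _ = 2 * Fintype.card V * (Fintype.card κ * (1 + 2 * C0)) * ((Fintype.card κ : ℝ) ^ m / (2 * Fintype.card V) *
        ∑ r, ∑ A ∈ words κ l, (if 0 < occ p x i r A then (1 : ℝ) else 0)) := by
          field_simp
      _ ≤ _ := mul_le_mul_of_nonneg_left h2 (by positivity)
  cases t
  · simp only [Bool.false_eq_true, if_false]
    exact main _ _ (la_cases L c) (lb_cases L c)
  · simp only [if_true]
    rw [mul_comm ((Fintype.card κ : ℝ) ^ la L c)]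
    exact main _ _ (lb_cases L c) (la_cases L c)

lemma wt1_upper (hN : 0 < Fintype.card V) (hκ : 0 < Fintype.card κ) (hnu : NearUnif p L)
    (e : Dart V κ) :
    2 * Fintype.card V * Fintype.card κ * ((cplx p L hL).wt1 e : ℝ)
      ≤ 3 * (L + 1) * Q (Fintype.card κ) L := by
  obtain ⟨x, i, t, o⟩ := e
  have hN' : (0 : ℝ) < Fintype.card V := by exact_mod_cast hN
  have hD : (0 : ℝ) < Fintype.card κ := by exact_mod_cast hκ
  rw [wt1_eq]
  unfold Q
  rw [Finset.mul_sum, Finset.mul_sum]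
  refine Finset.sum_le_sum (fun c _ => ?_)
  have main : ∀ l m, (l = L ∨ l = L + 1) → (m = L ∨ m = L + 1) →
      2 * Fintype.card V * Fintype.card κ *
        ∑ r, ∑ A ∈ words κ l, (if 0 < occ p x i r A then ((W p m r (walk p r A)).card : ℝ) else 0)
      ≤ 3 * (L + 1) * ((Fintype.card κ : ℝ) ^ l * (Fintype.card κ : ℝ) ^ m) := by
    intro l m hl hm
    have h1 := M1_eq p x i l
    have h2 : ∑ r, ∑ A ∈ words κ l, (if 0 < occ p x i r A then ((W p m r (walk p r A)).card : ℝ) else 0)
        ≤ 3 * (Fintype.card κ : ℝ) ^ m / (2 * Fintype.card V) * M1 p x i l := by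
      unfold M1
      rw [Finset.mul_sum]
      refine Finset.sum_le_sum (fun r _ => ?_)
      rw [Finset.mul_sum]
      refine Finset.sum_le_sum (fun A _ => ?_)
      have h5 := (hnu m hm r (walk p r A)).2
      split_ifs with hocc
      · have h6 : (1 : ℝ) ≤ occ p x i r A := by exact_mod_cast hocc
        have h7 : (0 : ℝ) ≤ 3 * (Fintype.card κ : ℝ) ^ m / (2 * Fintype.card V) := by positivity
        nlinarith
      · positivity
    have h3 : (l : ℝ) ≤ L + 1 := by
      have : l ≤ L + 1 := by omega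
      exact_mod_cast this
    calc 2 * Fintype.card V * Fintype.card κ *
        ∑ r, ∑ A ∈ words κ l, (if 0 < occ p x i r A then ((W p m r (walk p r A)).card : ℝ) else 0)
        ≤ 2 * Fintype.card V * Fintype.card κ * (3 * (Fintype.card κ : ℝ) ^ m / (2 * Fintype.card V) * M1 p x i l) :=
          mul_le_mul_of_nonneg_left h2 (by positivity)
      _ = 3 * (Fintype.card κ : ℝ) ^ m * (Fintype.card κ * M1 p x i l) := by field_simp
      _ = 3 * (Fintype.card κ : ℝ) ^ m * (l * (Fintype.card κ : ℝ) ^ l) := by rw [h1]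
      _ ≤ 3 * (Fintype.card κ : ℝ) ^ m * ((L + 1) * (Fintype.card κ : ℝ) ^ l) := by gcongr
      _ = _ := by ring
  cases t
  · simp only [Bool.false_eq_true, if_false]
    exact main _ _ (la_cases L c) (lb_cases L c)
  · simp only [if_true]
    rw [mul_comm ((Fintype.card κ : ℝ) ^ la L c)]
    exact main _ _ (lb_cases L c) (la_cases L c)

lemma Q_pos (D : ℝ) (hD : 0 < D) : 0 < Q D L := by
  unfold Q
  positivity

/-- comparison of the weights -/
lemma wt1_compare (hL : 0 < L) (hN : 0 < Fintype.card V) (hκ : 0 < Fintype.card κ) (hnu : NearUnif p L) (C0 : ℝ)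
    (hC0 : ∀ x i, ∀ l ≤ L, Green p x l (p i x) ≤ C0) (e e' : Dart V κ) :
    ((cplx p L hL).wt1 e : ℝ) ≤ 6 * (1 + 2 * C0) * ((cplx p L hL).wt1 e' : ℝ) := by
  have hN' : (0 : ℝ) < Fintype.card V := by exact_mod_cast hN
  have hD : (0 : ℝ) < Fintype.card κ := by exact_mod_cast hκ
  have h1 := wt1_lower p L hL hN hκ hnu C0 hC0 e'
  have h2 := wt1_upper p L hL hN hκ hnu e
  have h3 : (1 : ℝ) ≤ L := by exact_mod_cast hL
  have h4 := Q_pos L (Fintype.card κ : ℝ) hD
  have h5 : 3 * ((L : ℝ) + 1) * Q (Fintype.card κ) L ≤ 6 * (L * Q (Fintype.card κ) L) := by nlinarith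
  have h6 : 2 * Fintype.card V * Fintype.card κ * ((cplx p L hL).wt1 e : ℝ)
      ≤ 2 * Fintype.card V * Fintype.card κ * (6 * (1 + 2 * C0) * ((cplx p L hL).wt1 e' : ℝ)) := by
    calc _ ≤ _ := h2
      _ ≤ _ := h5
      _ ≤ 6 * (2 * Fintype.card V * (Fintype.card κ * (1 + 2 * C0)) * ((cplx p L hL).wt1 e' : ℝ)) := by linarith
      _ = _ := by ring
  exact le_of_mul_le_mul_left h6 (by positivity)

lemma wt1_pos (hL : 0 < L) (hN : 0 < Fintype.card V) (hκ : 0 < Fintype.card κ) (hnu : NearUnif p L) (C0 : ℝ)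
    (hC0 : ∀ x i, ∀ l ≤ L, Green p x l (p i x) ≤ C0) (e : Dart V κ) :
    0 < ((cplx p L hL).wt1 e : ℝ) := by
  have hN' : (0 : ℝ) < Fintype.card V := by exact_mod_cast hN
  have hD : (0 : ℝ) < Fintype.card κ := by exact_mod_cast hκ
  have h1 := wt1_lower p L hL hN hκ hnu C0 hC0 e
  have h4 := Q_pos L (Fintype.card κ : ℝ) hD
  have h3 : (0 : ℝ) < L := by exact_mod_cast hL
  have h5 : 0 < (L : ℝ) * Q (Fintype.card κ) L := by positivity
  have hx : Nonempty κ := Fintype.card_pos_iff.mp hκ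
  have hC0' : 0 ≤ C0 := le_trans (by simp [Green]) (hC0 e.1 e.2.1 0 (Nat.zero_le _))
  by_contra hcon
  have : ((cplx p L hL).wt1 e : ℝ) = 0 := le_antisymm (not_lt.mp hcon) (Nat.cast_nonneg _)
  rw [this] at h1
  simp at h1
  linarith

end weights

end Pool.Agent.H57
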